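import Pool.Agent.P.MP_626a52_co.Geo

namespace Pool.Agent.P.MP_626a52_co
noncomputable section

def an (a b : Bool) : Bool := Bool.rec false b a
def orr (a b : Bool) : Bool := Bool.rec b true a
def nt (a : Bool) : Bool := Bool.rec true false a
def sel {α : Type} (a : Bool) (x y : α) : α := Bool.rec y x a
def allL {α : Type} (l : List α) (f : α → Bool) : Bool :=
  List.rec true (fun a _ ih => Bool.rec false ih (f a)) l
def anyL {α : Type} (l : List α) (f : α → Bool) : Bool :=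
  List.rec false (fun a _ ih => Bool.rec ih true (f a)) l
def pwB {α : Type} (e : α → α → Bool) (l : List α) : Bool :=
  List.rec true (fun a t ih => Bool.rec false ih (allL t (e a))) l
def foldL {α β : Type} (f : α → β → β) (b : β) (l : List α) : β :=
  List.rec b (fun a _ ih => f a ih) l
def isNil {α : Type} (l : List α) : Bool := List.rec true (fun _ _ _ => false) l
def force {α : Type} (n : ℕ) (k : ℕ → α) : α := Nat.rec (k 0) (fun m _ => k (Nat.succ m)) n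

def fld (n k m : ℕ) : ℕ := Nat.mod (Nat.shiftRight n k) m

/-- value of a packed linear form -/
def ev (s t f : ℕ) : ℤ :=
  (f % 16384 : ℕ) + 24 * (((f / 16384 % 128 : ℕ) : ℤ) * s + ((f / 2097152 : ℕ) : ℤ) * t)

def wf (f : ℕ) : Bool := Nat.beq (Nat.land f 1060864) 0
def le0 (f g : ℕ) : Bool := Nat.beq (Nat.land (Nat.sub (Nat.add g 1056768) f) 1056768) 1056768
def le1 (f g : ℕ) : Bool := Nat.beq (Nat.land (Nat.sub (Nat.add g 1056767) f) 1056768) 1056768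
def le2 (f g : ℕ) : Bool := Nat.beq (Nat.land (Nat.sub (Nat.add g 1056766) f) 1056768) 1056768

structure Rc where
  x0 : ℕ
  x1 : ℕ
  y0 : ℕ
  y1 : ℕ

def Rc.mem (s t : ℕ) (z : ℤ × ℤ) (R : Rc) : Prop :=
  ev s t R.x0 ≤ z.1 ∧ z.1 < ev s t R.x1 ∧ ev s t R.y0 ≤ z.2 ∧ z.2 < ev s t R.y1
instance (s t : ℕ) (z : ℤ × ℤ) (R : Rc) : Decidable (R.mem s t z) := by
  unfold Rc.mem; infer_instance

def Rc.wf (R : Rc) : Bool := Pool.Agent.P.MP_626a52_co.wf (Nat.lor (Nat.lor R.x0 R.x1) (Nat.lor R.y0 R.y1))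
def Rc.valid (R : Rc) : Bool :=
  an R.wf (an (le0 R.x0 R.x1) (an (le0 R.y0 R.y1) (Nat.ble R.x1 268435455)))
def Rc.sub (R Q : Rc) : Bool :=
  an (le0 Q.x0 R.x0) (an (le0 R.x1 Q.x1) (an (le0 Q.y0 R.y0) (le0 R.y1 Q.y1)))
def g0 (a0 a1 b0 b1 : ℕ) : Bool := orr (le0 a1 b0) (le0 b1 a0)
def g1 (a0 a1 b0 b1 : ℕ) : Bool := orr (le1 a1 b0) (le1 b1 a0)
def g2 (a0 a1 b0 b1 : ℕ) : Bool := orr (le2 a1 b0) (le2 b1 a0)
def wsep (R Q : Rc) : Bool := orr (g0 R.x0 R.x1 Q.x0 Q.x1) (g0 R.y0 R.y1 Q.y0 Q.y1)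
def sep (R Q : Rc) : Bool :=
  orr (g2 R.x0 R.x1 Q.x0 Q.x1) (orr (g2 R.y0 R.y1 Q.y0 Q.y1)
    (orr (an (g0 R.x0 R.x1 Q.x0 Q.x1) (g1 R.y0 R.y1 Q.y0 Q.y1))
      (an (g1 R.x0 R.x1 Q.x0 Q.x1) (g0 R.y0 R.y1 Q.y0 Q.y1))))

def v12 (F r : ℕ) : ℕ :=
  fld 101507458662148941118588186752850141934604001548693537635353882330737879507168916660140
    (Nat.mul 12 (Nat.add (Nat.mul 4 F) r)) 4096
def vpos (I J : ℕ) : ℕ := Nat.add (Nat.mul 3 I) (Nat.mul 48 J)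

structure Pc where
  rel : Rc
  pl : Rc
  ty : ℕ
  c1 : Ch
  c2 : Ch
  W : ℕ
  M : ℕ

structure Blk where
  R : Rc
  c : Bool
  W : ℕ
  M : ℕ
  ax : ℕ
  ay : ℕ
  bx : ℕ
  bY : ℕ
  ws : List (ℕ × ℕ)
  ps : List Pc

def agr (W W' M M' : ℕ) : Bool := Nat.beq (Nat.land (Nat.land (Nat.xor W W') M) M') 0

def bxF (A B i j : ℕ) : ℕ := Nat.add (Nat.mul i A) (Nat.mul j B)
def byF (A B n i j : ℕ) : ℕ := Nat.add (Nat.mul j A) (Nat.mul (Nat.sub n i) B)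

def vside (U W : Rc) (vx vy : ℕ) : Bool :=
  orr (an (le0 U.x1 vx) (an (le1 vx W.x0) (orr (an (le0 U.y1 (Nat.succ vy)) (le0 vy W.y0))
    (an (le0 W.y1 (Nat.succ vy)) (le0 vy U.y0)))))
  (an (le0 U.y1 vy) (an (le1 vy W.y0) (orr (an (le0 U.x1 (Nat.succ vx)) (le0 vx W.x0))
    (an (le0 W.x1 (Nat.succ vx)) (le0 vx U.x0)))))

def vt2 (p q : Pc) (I J vx vy : ℕ) : Bool :=
  an (wf (Nat.lor (Nat.lor vx vy) (Nat.lor (Nat.succ vx) (Nat.succ vy))))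
    (an (orr (vside p.pl q.pl vx vy) (vside q.pl p.pl vx vy))
      (Nat.beq (fld p.W (vpos I J) 8) (fld q.W (vpos I J) 8)))

def vt1 (A B : ℕ) (p q : Pc) (I J : ℕ) : Bool :=
  an (Nat.ble I 13) (an (Nat.ble J 15)
    (force (bxF A B I J) fun vx => force (byF A B 13 I J) fun vy => vt2 p q I J vx vy))

def vt4 (A B : ℕ) (p q : Pc) (c : Ch) : Bool :=
  orr (vt1 A B p q c.i c.j) (orr (vt1 A B p q (Nat.succ c.i) c.j)
    (orr (vt1 A B p q c.i (Nat.succ c.j)) (vt1 A B p q (Nat.succ c.i) (Nat.succ c.j))))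

def pairOK (A B : ℕ) (p q : Pc) : Bool :=
  orr (an (agr p.W q.W p.M q.M) (wsep p.pl q.pl)) (orr (sep p.pl q.pl)
    (orr (vt4 A B p q p.c1) (vt4 A B p q p.c2)))

def blkPair (A B : ℕ) (b d : Blk) : Bool :=
  orr (an b.c (an d.c (an (agr b.W d.W b.M d.M) (wsep b.R d.R)))) (orr (sep b.R d.R)
    (allL b.ps fun p => allL d.ps fun q => pairOK A B p q))

def regC (A B : ℕ) : Rc := ⟨Nat.succ B, A, Nat.succ B, A⟩
def regR (A B : ℕ) : Rc := ⟨A, Nat.succ (Nat.add A B), 1, A⟩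
def regU (A B : ℕ) : Rc := ⟨Nat.succ B, Nat.add A B, A, Nat.succ (Nat.add A B)⟩
def regL (A B : ℕ) : Rc := ⟨0, Nat.succ B, Nat.succ B, Nat.add A B⟩
def regD (A B : ℕ) : Rc := ⟨1, A, 0, Nat.succ B⟩

def chOK (W M : ℕ) (c : Ch) : Bool :=
  an (Nat.ble c.i 12) (an (Nat.ble c.j 14) (an (Nat.ble c.F 5) (an (Nat.ble c.r 3)
    (force (vpos c.i c.j) fun k =>
      an (Nat.beq (Nat.add (fld W k 64) (Nat.mul 64 (fld W (Nat.add k 48) 64))) (v12 c.F c.r))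
        (an (Nat.beq (fld M k 64) 63) (Nat.beq (fld M (Nat.add k 48) 64) 63))))))

def tyOK (A B : ℕ) (p : Pc) : Bool :=
  sel (Nat.beq p.ty 0) (p.rel.sub (regC A B))
    (sel (Nat.beq p.ty 1)
      (an (p.rel.sub (regR A B)) (an (Nat.beq p.c2.i (Nat.succ p.c1.i)) (Nat.beq p.c2.j p.c1.j)))
      (an (p.rel.sub (regU A B)) (an (Nat.beq p.c2.i p.c1.i) (Nat.beq p.c2.j (Nat.succ p.c1.j)))))

def shiftEq (P R : Rc) (u v : ℕ) : Bool :=
  an (wf (Nat.lor u v)) (an (Nat.beq P.x0 (Nat.add R.x0 u)) (an (Nat.beq P.x1 (Nat.add R.x1 u))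
    (an (Nat.beq P.y0 (Nat.add R.y0 v)) (Nat.beq P.y1 (Nat.add R.y1 v)))))

def pcOK (A B : ℕ) (b : Blk) (p : Pc) : Bool :=
  an (chOK p.W p.M p.c1) (an (chOK p.W p.M p.c2)
    (an p.rel.valid (an (tyOK A B p) (an (p.pl.sub b.R)
      (force (bxF A B p.c1.i p.c1.j) fun u => force (byF A B 12 p.c1.i p.c1.j) fun v =>
        shiftEq p.pl p.rel u v)))))

def consB (b : Blk) (p : Pc) : Bool :=
  an (Nat.beq (Nat.land p.M b.M) p.M) (agr p.W b.W p.M p.M)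

def rel2 (A B : ℕ) (p : Pc) : Rc :=
  sel (Nat.beq p.ty 1)
    ⟨Nat.sub p.rel.x0 A, Nat.sub p.rel.x1 A, Nat.add p.rel.y0 B, Nat.add p.rel.y1 B⟩
    ⟨Nat.sub p.rel.x0 B, Nat.sub p.rel.x1 B, Nat.sub p.rel.y0 A, Nat.sub p.rel.y1 A⟩

def incL (A B : ℕ) (p : Pc) (l : List (Ch × Rc)) : List (Ch × Rc) :=
  (p.c1, p.rel) :: sel (Nat.beq p.ty 0) l ((p.c2, rel2 A B p) :: l)

def allInc (A B : ℕ) (bl : List Blk) : List (Ch × Rc) :=
  foldL (fun b l => foldL (incL A B) l b.ps) [] bl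

def rotR (M r : ℕ) (R : Rc) : Rc :=
  sel (Nat.ble r 1)
    (sel (Nat.beq r 0) R ⟨Nat.sub M R.y1, Nat.sub M R.y0, R.x0, R.x1⟩)
    (sel (Nat.beq r 2) ⟨Nat.sub M R.x1, Nat.sub M R.x0, Nat.sub M R.y1, Nat.sub M R.y0⟩
      ⟨R.y0, R.y1, Nat.sub M R.x1, Nat.sub M R.x0⟩)

def inBox (M : ℕ) (R : Rc) : Bool := an R.valid (an (le0 R.x1 M) (le0 R.y1 M))

def rmK (a : ℕ) (l : List ℕ) : (List ℕ → Bool) → Bool :=
  List.rec (fun _ => false)
    (fun b t ih k => Bool.rec (ih fun t' => k (b :: t')) (k t) (Nat.beq a b)) l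

def permB (l : List ℕ) : List ℕ → Bool :=
  List.rec (fun m => isNil m) (fun a _ ih m => rmK a m ih) l

def cc (x y : ℕ) : ℕ := Nat.add x (Nat.shiftLeft y 28)
def posK (l : List Rc) : List ℕ → (List ℕ → Bool) → Bool :=
  List.rec (fun m k => k m) (fun R _ ih m k => force (cc R.x0 R.y0) fun a =>
    force (cc R.x1 R.y1) fun b => ih (a :: b :: m) k) l
def negK (l : List Rc) : List ℕ → (List ℕ → Bool) → Bool :=
  List.rec (fun m k => k m) (fun R _ ih m k => force (cc R.x1 R.y0) fun a =>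
    force (cc R.x0 R.y1) fun b => ih (a :: b :: m) k) l
def eqB (l m : List Rc) : Bool :=
  an (allL l Rc.valid) (an (allL m Rc.valid)
    (posK l [] fun a => negK m a fun a' => posK m [] fun b => negK l b fun b' => permB a' b'))

def unitR (w : ℕ × ℕ) : Rc := ⟨w.1, Nat.succ w.1, w.2, Nat.succ w.2⟩
def whiteB (x y : ℕ) : Bool := Nat.beq (Nat.mod (Nat.add x y) 2) 0

def sizeOK (R : Rc) : Bool :=
  orr (an (le2 R.x0 R.x1) (le2 R.y0 R.y1))
    (an (Nat.beq R.x1 (Nat.succ R.x0)) (Nat.beq R.y1 (Nat.succ R.y0)))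

def blkOK (A B : ℕ) (b : Blk) : Bool :=
  an (allL b.ps (pcOK A B b)) (an (allL b.ws fun w => whiteB w.1 w.2)
    (an (eqB (foldL (fun p l => p.pl :: l) (foldL (fun w l => unitR w :: l) [] b.ws) b.ps) [b.R])
      (an (sizeOK b.R) (sel b.c (allL b.ps (consB b)) (pwB (pairOK A B) b.ps)))))

def qRects (A B : ℕ) : List Rc :=
  sel (Nat.beq A B) [regR A B, regU A B, regL A B, regD A B]
    [regC A B, regR A B, regU A B, regL A B, regD A B]

def faceL (M : ℕ) (E : List (Ch × Rc)) (fw : List (ℕ × ℕ × ℕ)) (F : ℕ) : List Rc :=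
  foldL (fun e l => sel (Nat.beq e.1.F F) (rotR M e.1.r e.2 :: l) l)
    (foldL (fun w l => sel (Nat.beq w.1 F) (unitR w.2 :: l) l) [] fw) E

def inR (x y : ℕ) (R : Rc) : Bool :=
  an (le0 R.x0 x) (an (le1 x R.x1) (an (le0 R.y0 y) (le1 y R.y1)))

def off1 (f g : ℕ) : Bool := orr (Nat.beq f (Nat.succ g)) (Nat.beq g (Nat.succ f))

def conn1 (acc : List Blk) (b : Blk) : Bool :=
  an (wf (Nat.lor (Nat.lor b.ax b.ay) (Nat.lor b.bx b.bY))) (an (inR b.bx b.bY b.R)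
    (an (nt (whiteB b.bx b.bY)) (orr (isNil acc)
      (an (off1 b.ax b.bx) (an (off1 b.ay b.bY) (anyL acc fun d => inR b.ax b.ay d.R))))))

def connB (l : List Blk) : List Blk → Bool :=
  List.rec (fun _ => true) (fun b _ ih acc => an (conn1 acc b) (ih (b :: acc))) l

def tiny (A : ℕ) : Bool := an (Nat.beq (Nat.land A 2080513) 0) (Nat.ble A 4194303)

def netCheck (A B : ℕ) (bl : List Blk) (fw : List (ℕ × ℕ × ℕ)) : Bool :=
  an (tiny A) (an (tiny B) (an (le0 B A) (an (le1 0 A)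
  (an (allL bl (blkOK A B)) (an (pwB (blkPair A B) bl) (an (allL fw fun w => whiteB w.2.1 w.2.2)
  (an (allL (allInc A B bl) fun e => inBox (Nat.succ (Nat.add A B)) e.2)
  (an (allL [0, 1, 2, 3, 4, 5] fun F =>
    eqB (faceL (Nat.succ (Nat.add A B)) (allInc A B bl) fw F) (qRects A B))
  (an (nt (isNil bl)) (connB bl []))))))))))

end
end Pool.Agent.P.MP_626a52_co
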