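import Pool.Agent.P.MP_626a52_co.Check

namespace Pool.Agent.P.MP_626a52_co
noncomputable section

def chM (i j : ℕ) : ℕ := Nat.shiftLeft 17732923532771391 (vpos i j)
def chW (i j F r : ℕ) : ℕ :=
  Nat.shiftLeft (Nat.add (Nat.mod (v12 F r) 64) (Nat.shiftLeft (Nat.shiftRight (v12 F r) 6) 48))
    (vpos i j)

def pcK {α : Type} (A B x0 x1 y0 y1 ty i j F r F2 r2 : ℕ) (k : Pc → α) : α :=
  force (bxF A B i j) fun u => force (byF A B 12 i j) fun v =>
  force (Nat.add x0 u) fun X0 => force (Nat.add x1 u) fun X1 =>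
  force (Nat.add y0 v) fun Y0 => force (Nat.add y1 v) fun Y1 =>
  force (Nat.add i (Nat.mod ty 2)) fun i2 => force (Nat.add j (Nat.div ty 2)) fun j2 =>
  force (Nat.lor (chM i j) (chM i2 j2)) fun M =>
  force (Nat.lor (chW i j F r) (chW i2 j2 F2 r2)) fun W =>
  k ⟨⟨x0, x1, y0, y1⟩, ⟨X0, X1, Y0, Y1⟩, ty, ⟨i, j, F, r⟩, ⟨i2, j2, F2, r2⟩, W, M⟩

def pcD {α : Type} (A B n : ℕ) (k : Pc → α) : α :=
  force (fld n 0 268435456) fun x0 => force (fld n 28 268435456) fun x1 =>
  force (fld n 56 268435456) fun y0 => force (fld n 84 268435456) fun y1 =>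
  force (fld n 112 4) fun ty => force (fld n 114 16) fun i => force (fld n 118 16) fun j =>
  force (fld n 122 8) fun F => force (fld n 125 4) fun r => force (fld n 127 8) fun F2 =>
  force (fld n 130 4) fun r2 => pcK A B x0 x1 y0 y1 ty i j F r F2 r2 k

def mapK {α β γ : Type} (f : α → (β → γ) → γ) (l : List α) : (List β → γ) → γ :=
  List.rec (fun k => k []) (fun a _ ih k => f a fun b => ih fun m => k (b :: m)) l

structure RB where
  h : ℕ
  ws : List ℕ
  ps : List ℕ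

def wD (n : ℕ) : ℕ × ℕ := (fld n 0 268435456, fld n 28 268435456)

def blkD {α : Type} (A B : ℕ) (b : RB) (k : Blk → α) : α :=
  mapK (pcD A B) b.ps fun ps =>
  force (fld b.h 0 268435456) fun x0 => force (fld b.h 28 268435456) fun x1 =>
  force (fld b.h 56 268435456) fun y0 => force (fld b.h 84 268435456) fun y1 =>
  force (fld b.h 112 268435456) fun ax => force (fld b.h 140 268435456) fun ay =>
  force (fld b.h 168 268435456) fun bx => force (fld b.h 196 268435456) fun bY =>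
  force (foldL (fun p m => Nat.lor p.W m) 0 ps) fun W =>
  force (foldL (fun p m => Nat.lor p.M m) 0 ps) fun M =>
  k ⟨⟨x0, x1, y0, y1⟩, Nat.beq (fld b.h 224 2) 1, W, M, ax, ay, bx, bY, foldL (fun n l => wD n :: l) [] b.ws, ps⟩

def fwD (l : List ℕ) : List (ℕ × ℕ × ℕ) := foldL (fun n l => (fld n 56 8, wD n) :: l) [] l

def cellK {α : Type} (m : ℕ) (k : Blk → α) : α :=
  force (fld m 0 2) fun e => force (fld m 1 16) fun i => force (fld m 5 16) fun j =>
  force (fld m 9 8) fun F => force (fld m 12 4) fun r => force (fld m 14 8) fun F2 =>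
  force (fld m 17 4) fun r2 =>
  pcK 2 0 (Nat.sub 2 e) (Nat.sub 3 e) (Nat.add 1 e) (Nat.add 2 e) (Nat.add 1 e) i j F r F2 r2
    fun p =>
    force (Nat.sub p.pl.x1 (Nat.mul 2 (fld m 19 2))) fun ax =>
    force (Nat.sub p.pl.y1 (Nat.mul 2 (fld m 20 2))) fun ay =>
    k ⟨p.pl, true, p.W, p.M, ax, ay, p.pl.x0, p.pl.y0, [], [p]⟩

def tileK {α : Type} (n : ℕ) (k : List Blk → α) : α :=
  mapK (fun a => cellK (fld n a 2097152)) [0, 21, 42, 63, 84, 105, 126, 147, 168, 189, 210, 231] k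

def smallW : List (ℕ × ℕ × ℕ) := [(0, 1, 1), (1, 1, 1), (2, 1, 1), (3, 1, 1), (4, 1, 1), (5, 1, 1)]

end
end Pool.Agent.P.MP_626a52_co
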