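import Mathlib

namespace Pool.Agent.P.MP_626a52_co

/-- Two cells of the integer grid are adjacent if their unit squares share an edge. -/
def Adj (c d : ℤ × ℤ) : Prop := |c.1 - d.1| + |c.2 - d.2| = 1

/-- A polyomino: a nonempty finite set of cells that is connected through shared edges. -/
def IsPolyomino (P : Finset (ℤ × ℤ)) : Prop :=
  P.Nonempty ∧ ∀ c ∈ P, ∀ d ∈ P, Relation.ReflTransGen (fun x y => x ∈ P ∧ y ∈ P ∧ Adj x y) c d

/-- The closed unit square with lower left corner `c`. -/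
def square (c : ℤ × ℤ) : Set (EuclideanSpace ℝ (Fin 2)) :=
  {p | (c.1 : ℝ) ≤ p 0 ∧ p 0 ≤ (c.1 : ℝ) + 1 ∧ (c.2 : ℝ) ≤ p 1 ∧ p 1 ≤ (c.2 : ℝ) + 1}

/-- The plane region formed by the unit squares of `P`. -/
def region (P : Finset (ℤ × ℤ)) : Set (EuclideanSpace ℝ (Fin 2)) := ⋃ c ∈ P, square c

/-- The surface of the cube `[0, l]^3`. -/
def cubeSurface (l : ℝ) : Set (EuclideanSpace ℝ (Fin 3)) :=
  {q | (∀ i, 0 ≤ q i ∧ q i ≤ l) ∧ ∃ i, q i = 0 ∨ q i = l}

/-- `R` folds onto the surface of a cube: `R` is a finite union of compact convex panels,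
the map `f` is an isometry on every panel, it is injective on the union of the open panels
(no overlap), and it maps `R` onto the whole surface (no gap). -/
def IsCubeNet (R : Set (EuclideanSpace ℝ (Fin 2))) : Prop :=
  ∃ (l : ℝ) (f : EuclideanSpace ℝ (Fin 2) → EuclideanSpace ℝ (Fin 3))
    (T : Set (Set (EuclideanSpace ℝ (Fin 2)))),
    0 < l ∧ T.Finite ∧ ⋃₀ T = R ∧
    (∀ S ∈ T, IsCompact S ∧ Convex ℝ S ∧ ∀ p ∈ S, ∀ q ∈ S, dist (f p) (f q) = dist p q) ∧
    Set.InjOn f (⋃ S ∈ T, interior S) ∧ f '' R = cubeSurface l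

/-- A regular rep-cube of order `k`: a polyomino that is a net of a cube and is partitioned
into `k` polyominoes of the same area, each of them a net of a cube. -/
def IsRegularRepCube (k : ℕ) (P : Finset (ℤ × ℤ)) : Prop :=
  IsPolyomino P ∧ IsCubeNet (region P) ∧
  ∃ parts : Fin k → Finset (ℤ × ℤ),
    (∀ i, IsPolyomino (parts i) ∧ IsCubeNet (region (parts i))) ∧
    (∀ i j, i ≠ j → Disjoint (parts i) (parts j)) ∧
    (∀ c, c ∈ P ↔ ∃ i, c ∈ parts i) ∧
    (∀ i j, (parts i).card = (parts j).card)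

end Pool.Agent.P.MP_626a52_co
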