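import Pool.Agent.P.MP_626a52_co.Defs

namespace Pool.Agent.P.MP_626a52_co
open Set

abbrev E2 := EuclideanSpace ℝ (Fin 2)
abbrev E3 := EuclideanSpace ℝ (Fin 3)

def toCell (z : ℤ × ℤ) : ℤ × ℤ := ((z.1 + z.2 - 1) / 2, (z.2 - z.1 - 1) / 2)
def Black (z : ℤ × ℤ) : Prop := (z.1 + z.2) % 2 = 1
instance (z : ℤ × ℤ) : Decidable (Black z) := by unfold Black; infer_instance

def Dia (z : ℤ × ℤ) (x y : ℝ) : Prop :=
  -1 ≤ (x - z.1) + (y - z.2) ∧ (x - z.1) + (y - z.2) ≤ 1 ∧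
  -1 ≤ (y - z.2) - (x - z.1) ∧ (y - z.2) - (x - z.1) ≤ 1

def DiaO (z : ℤ × ℤ) (x y : ℝ) : Prop :=
  -1 < (x - z.1) + (y - z.2) ∧ (x - z.1) + (y - z.2) < 1 ∧
  -1 < (y - z.2) - (x - z.1) ∧ (y - z.2) - (x - z.1) < 1

theorem toCell_cast {z : ℤ × ℤ} (hz : Black z) :
    (2 * ((toCell z).1 : ℝ) = z.1 + z.2 - 1) ∧ (2 * ((toCell z).2 : ℝ) = z.2 - z.1 - 1) := by
  unfold Black at hz
  have h1 : 2 * (toCell z).1 = z.1 + z.2 - 1 := by simp only [toCell]; omega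
  have h2 : 2 * (toCell z).2 = z.2 - z.1 - 1 := by simp only [toCell]; omega
  exact ⟨by exact_mod_cast h1, by exact_mod_cast h2⟩

theorem mem_square {z : ℤ × ℤ} (hz : Black z) (p : E2) :
    p ∈ square (toCell z) ↔ Dia z (p 0 - p 1) (p 0 + p 1) := by
  obtain ⟨h1, h2⟩ := toCell_cast hz
  simp only [square, Dia, mem_ofPred_eq]
  constructor
  · rintro ⟨a, b, c, d⟩; refine ⟨?_, ?_, ?_, ?_⟩ <;> linarith
  · rintro ⟨a, b, c, d⟩; refine ⟨?_, ?_, ?_, ?_⟩ <;> linarith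

theorem toCell_inj {z w : ℤ × ℤ} (hz : Black z) (hw : Black w) (h : toCell z = toCell w) :
    z = w := by
  unfold Black at hz hw
  simp only [toCell, Prod.mk.injEq] at h
  ext <;> omega

structure Ch where
  i : ℕ
  j : ℕ
  F : ℕ
  r : ℕ

def rotN : ℕ → ℝ → ℝ → ℝ × ℝ
  | 0, a, b => (a, b)
  | 1, a, b => (1 - b, a)
  | 2, a, b => (1 - a, 1 - b)
  | _, a, b => (b, 1 - a)

def face : ℕ → ℝ × ℝ → Fin 3 → ℝ
  | 0, q => ![q.1, q.2, 1]
  | 1, q => ![1, q.1, q.2]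
  | 2, q => ![q.2, 1, q.1]
  | 3, q => ![q.2, q.1, 0]
  | 4, q => ![0, q.2, q.1]
  | _, q => ![q.1, 0, q.2]

def rotZ (M : ℤ) : ℕ → ℤ → ℤ → ℤ × ℤ
  | 0, x, y => (x, y)
  | 1, x, y => (M - y, x)
  | 2, x, y => (M - x, M - y)
  | _, x, y => (y, M - x)

def cbx (A B : ℤ) (c : Ch) : ℤ := c.i * A + c.j * B
def cby (A B : ℤ) (c : Ch) : ℤ := c.j * A + (12 - c.i) * B
def can (A B : ℤ) (c : Ch) (z : ℤ × ℤ) : ℤ × ℤ :=
  rotZ (A + B) c.r (z.1 - cbx A B c) (z.2 - cby A B c)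

noncomputable def al (A B : ℤ) (c : Ch) (x y : ℝ) : ℝ :=
  (A * x - B * (y - 13 * B)) / (A ^ 2 + B ^ 2) - c.i
noncomputable def be (A B : ℤ) (c : Ch) (x y : ℝ) : ℝ :=
  (B * x + A * (y - 13 * B)) / (A ^ 2 + B ^ 2) - c.j

def InD (A B : ℤ) (c : Ch) (x y : ℝ) : Prop :=
  0 ≤ al A B c x y ∧ al A B c x y ≤ 1 ∧ 0 ≤ be A B c x y ∧ be A B c x y ≤ 1

noncomputable def psi (A B : ℤ) (c : Ch) (x y : ℝ) : Fin 3 → ℝ :=
  face c.F (rotN c.r (al A B c x y) (be A B c x y))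

def InQ (A B : ℤ) (z : ℤ × ℤ) : Prop :=
  (B + 1 ≤ z.1 ∧ z.1 < A ∧ B + 1 ≤ z.2 ∧ z.2 < A) ∨
  (A ≤ z.1 ∧ z.1 < A + B + 1 ∧ 1 ≤ z.2 ∧ z.2 < A) ∨
  (B + 1 ≤ z.1 ∧ z.1 < A + B ∧ A ≤ z.2 ∧ z.2 < A + B + 1) ∨
  (0 ≤ z.1 ∧ z.1 < B + 1 ∧ B + 1 ≤ z.2 ∧ z.2 < A + B) ∨
  (1 ≤ z.1 ∧ z.1 < A ∧ 0 ≤ z.2 ∧ z.2 < B + 1)

theorem N_pos {A B : ℤ} (hA : 0 < A) : (0 : ℝ) < (A : ℝ) ^ 2 + (B : ℝ) ^ 2 := by
  have : (0 : ℝ) < A := by exact_mod_cast hA
  positivity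

theorem rel_x {A B : ℤ} (hA : 0 < A) (c : Ch) (x y : ℝ) :
    A * al A B c x y + B * be A B c x y = x - cbx A B c := by
  have hN := N_pos (B := B) hA
  simp only [al, be, cbx]; push_cast; field_simp; ring

theorem rel_y {A B : ℤ} (hA : 0 < A) (c : Ch) (x y : ℝ) :
    B - B * al A B c x y + A * be A B c x y = y - cby A B c := by
  have hN := N_pos (B := B) hA
  simp only [al, be, cby]; push_cast; field_simp; ring

/-- canonical position of the point with normalised coordinates `q` -/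
def ptx (A B : ℤ) (q : ℝ × ℝ) : ℝ := A * q.1 + B * q.2
def pty (A B : ℤ) (q : ℝ × ℝ) : ℝ := B - B * q.1 + A * q.2

theorem dia_can {A B : ℤ} (hA : 0 < A) (c : Ch) (z : ℤ × ℤ) (x y : ℝ) :
    (Dia z x y ↔ Dia (can A B c z) (ptx A B (rotN c.r (al A B c x y) (be A B c x y)))
      (pty A B (rotN c.r (al A B c x y) (be A B c x y)))) ∧
    (DiaO z x y → DiaO (can A B c z) (ptx A B (rotN c.r (al A B c x y) (be A B c x y)))
      (pty A B (rotN c.r (al A B c x y) (be A B c x y)))) := by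
  have hx := rel_x (B := B) hA c x y
  have hy := rel_y (B := B) hA c x y
  generalize al A B c x y = a at *
  generalize be A B c x y = b at *
  unfold can
  generalize c.r = r
  match r with
  | 0 =>
    simp only [rotZ, rotN, Dia, DiaO, ptx, pty]; push_cast
    refine ⟨⟨?_, ?_⟩, ?_⟩ <;> rintro ⟨h1, h2, h3, h4⟩ <;> refine ⟨?_, ?_, ?_, ?_⟩ <;> linarith
  | 1 =>
    simp only [rotZ, rotN, Dia, DiaO, ptx, pty]; push_cast
    refine ⟨⟨?_, ?_⟩, ?_⟩ <;> rintro ⟨h1, h2, h3, h4⟩ <;> refine ⟨?_, ?_, ?_, ?_⟩ <;> linarith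
  | 2 =>
    simp only [rotZ, rotN, Dia, DiaO, ptx, pty]; push_cast
    refine ⟨⟨?_, ?_⟩, ?_⟩ <;> rintro ⟨h1, h2, h3, h4⟩ <;> refine ⟨?_, ?_, ?_, ?_⟩ <;> linarith
  | (n + 3) =>
    simp only [rotZ, rotN, Dia, DiaO, ptx, pty]; push_cast
    refine ⟨⟨?_, ?_⟩, ?_⟩ <;> rintro ⟨h1, h2, h3, h4⟩ <;> refine ⟨?_, ?_, ?_, ?_⟩ <;> linarith

theorem black_can {A B : ℤ} (hAe : A % 2 = 0) (hBe : B % 2 = 0) (c : Ch) {z : ℤ × ℤ}
    (hz : Black z) : Black (can A B c z) := by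
  obtain ⟨a, rfl⟩ : ∃ a, A = 2 * a := ⟨A / 2, by omega⟩
  obtain ⟨b, rfl⟩ : ∃ b, B = 2 * b := ⟨B / 2, by omega⟩
  have h1 : cbx (2 * a) (2 * b) c = 2 * (c.i * a + c.j * b) := by unfold cbx; ring
  have h2 : cby (2 * a) (2 * b) c = 2 * (c.j * a + (12 - c.i) * b) := by unfold cby; ring
  unfold can; rw [h1, h2]
  generalize (c.i : ℤ) * a + c.j * b = u
  generalize (c.j : ℤ) * a + (12 - c.i) * b = v
  unfold Black at *
  generalize c.r = r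
  match r with
  | 0 => simp only [rotZ]; omega
  | 1 => simp only [rotZ]; omega
  | 2 => simp only [rotZ]; omega
  | (n + 3) => simp only [rotZ]; omega

theorem diaO_unique {z w : ℤ × ℤ} (hz : Black z) (hw : Black w) {x y : ℝ}
    (h1 : DiaO z x y) (h2 : DiaO w x y) : z = w := by
  obtain ⟨a1, a2, a3, a4⟩ := h1
  obtain ⟨b1, b2, b3, b4⟩ := h2
  have e1 : ((z.1 + z.2 - (w.1 + w.2) : ℤ) : ℝ) < 2 := by push_cast; linarith
  have e2 : ((w.1 + w.2 - (z.1 + z.2) : ℤ) : ℝ) < 2 := by push_cast; linarith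
  have e3 : ((z.2 - z.1 - (w.2 - w.1) : ℤ) : ℝ) < 2 := by push_cast; linarith
  have e4 : ((w.2 - w.1 - (z.2 - z.1) : ℤ) : ℝ) < 2 := by push_cast; linarith
  have f1 : z.1 + z.2 - (w.1 + w.2) < 2 := by exact_mod_cast e1
  have f2 : w.1 + w.2 - (z.1 + z.2) < 2 := by exact_mod_cast e2
  have f3 : z.2 - z.1 - (w.2 - w.1) < 2 := by exact_mod_cast e3
  have f4 : w.2 - w.1 - (z.2 - z.1) < 2 := by exact_mod_cast e4
  unfold Black at hz hw
  ext <;> omega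

theorem exists_dia (x y : ℝ) : ∃ z : ℤ × ℤ, Black z ∧ Dia z x y := by
  refine ⟨(⌊(x + y) / 2⌋ - ⌊(y - x) / 2⌋, ⌊(x + y) / 2⌋ + ⌊(y - x) / 2⌋ + 1), ?_, ?_⟩
  · unfold Black; simp only; omega
  · have h1 := Int.floor_le ((x + y) / 2)
    have h2 := Int.lt_floor_add_one ((x + y) / 2)
    have h3 := Int.floor_le ((y - x) / 2)
    have h4 := Int.lt_floor_add_one ((y - x) / 2)
    simp only [Dia]; push_cast
    refine ⟨?_, ?_, ?_, ?_⟩ <;> linarith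

theorem lin_bound {A B u v : ℝ} (hB : 0 ≤ B) (hBA : B ≤ A) (h1 : -1 ≤ u + v) (h2 : u + v ≤ 1)
    (h3 : -1 ≤ v - u) (h4 : v - u ≤ 1) :
    -A ≤ B * u + A * v ∧ B * u + A * v ≤ A ∧ -A ≤ A * u - B * v ∧ A * u - B * v ≤ A := by
  have a1 := mul_nonneg (add_nonneg (hB.trans hBA) hB) (sub_nonneg.2 h1)
  have a2 := mul_nonneg (add_nonneg (hB.trans hBA) hB) (sub_nonneg.2 h2)
  have a3 := mul_nonneg (add_nonneg (hB.trans hBA) hB) (sub_nonneg.2 h3)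
  have a4 := mul_nonneg (add_nonneg (hB.trans hBA) hB) (sub_nonneg.2 h4)
  have b1 := mul_nonneg (sub_nonneg.2 hBA) (sub_nonneg.2 h1)
  have b2 := mul_nonneg (sub_nonneg.2 hBA) (sub_nonneg.2 h2)
  have b3 := mul_nonneg (sub_nonneg.2 hBA) (sub_nonneg.2 h3)
  have b4 := mul_nonneg (sub_nonneg.2 hBA) (sub_nonneg.2 h4)
  refine ⟨?_, ?_, ?_, ?_⟩ <;> nlinarith

theorem inQ_of_open {A B : ℤ} (hB : 0 ≤ B) (hBA : B ≤ A) (hA : 0 < A) (hAe : A % 2 = 0)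
    (hBe : B % 2 = 0) {z : ℤ × ℤ} (hz : Black z) {q : ℝ × ℝ} (h1 : 0 < q.1) (h2 : q.1 < 1)
    (h3 : 0 < q.2) (h4 : q.2 < 1) (hd : Dia z (ptx A B q) (pty A B q)) : InQ A B z := by
  obtain ⟨a, b⟩ := q
  obtain ⟨X, Y⟩ := z
  simp only [Dia, ptx, pty] at *
  obtain ⟨d1, d2, d3, d4⟩ := hd
  have hB' : (0 : ℝ) ≤ B := by exact_mod_cast hB
  have hBA' : (B : ℝ) ≤ A := by exact_mod_cast hBA
  have hA' : (0 : ℝ) < A := by exact_mod_cast hA
  have hN := N_pos (B := B) hA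
  obtain ⟨l1, l2, l3, l4⟩ := lin_bound hB' hBA' d1 d2 d3 d4
  have pa := mul_pos hA' h1
  have pa' := mul_pos hA' (sub_pos.2 h2)
  have pb := mul_pos hA' h3
  have pb' := mul_pos hA' (sub_pos.2 h4)
  have qa := mul_nonneg hB' h1.le
  have qa' := mul_nonneg hB' (sub_pos.2 h2).le
  have qb := mul_nonneg hB' h3.le
  have qb' := mul_nonneg hB' (sub_pos.2 h4).le
  have na := mul_pos hN h1
  have na' := mul_pos hN (sub_pos.2 h2)
  have nb := mul_pos hN h3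
  have nb' := mul_pos hN (sub_pos.2 h4)
  have c1 : -1 < X := by
    have : ((-1 : ℤ) : ℝ) < X := by push_cast; linarith
    exact_mod_cast this
  have c2 : X < A + B + 1 := by
    have : (X : ℝ) < ((A + B + 1 : ℤ) : ℝ) := by push_cast; linarith
    exact_mod_cast this
  have c3 : -1 < Y := by
    have : ((-1 : ℤ) : ℝ) < Y := by push_cast; linarith
    exact_mod_cast this
  have c4 : Y < A + B + 1 := by
    have : (Y : ℝ) < ((A + B + 1 : ℤ) : ℝ) := by push_cast; linarith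
    exact_mod_cast this
  have c5 : Y = A + B → B - 1 < X := by
    intro h
    have hY : (Y : ℝ) = A + B := by exact_mod_cast h
    have : A * ((B - 1 : ℤ) : ℝ) < A * X := by push_cast; rw [hY] at l4; nlinarith
    exact_mod_cast lt_of_mul_lt_mul_left this hA'.le
  have c6 : X = 0 → B - 1 < Y := by
    intro h
    have hX : (X : ℝ) = 0 := by exact_mod_cast h
    have : A * ((B - 1 : ℤ) : ℝ) < A * Y := by push_cast; rw [hX] at l2; nlinarith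
    exact_mod_cast lt_of_mul_lt_mul_left this hA'.le
  have c7 : Y = 0 → X < A + 1 := by
    intro h
    have hY : (Y : ℝ) = 0 := by exact_mod_cast h
    have : (A : ℝ) * X < A * ((A + 1 : ℤ) : ℝ) := by push_cast; rw [hY] at l3; nlinarith
    exact_mod_cast lt_of_mul_lt_mul_left this hA'.le
  have c8 : X = A + B → Y < A + 1 := by
    intro h
    have hX : (X : ℝ) = A + B := by exact_mod_cast h
    have : (A : ℝ) * Y < A * ((A + 1 : ℤ) : ℝ) := by push_cast; rw [hX] at l1; nlinarith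
    exact_mod_cast lt_of_mul_lt_mul_left this hA'.le
  unfold Black at hz
  unfold InQ
  simp only at *
  omega

end Pool.Agent.P.MP_626a52_co
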