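import Pool.Agent.P.MP_626a52_co.Tab

namespace Pool.Agent.P.MP_626a52_co
open Finset

noncomputable def rectF (x0 x1 y0 y1 : ℤ) : Finset (ℤ × ℤ) := (Ico x0 x1 ×ˢ Ico y0 y1).filter Black

theorem mem_rectF {x0 x1 y0 y1 : ℤ} {z : ℤ × ℤ} :
    z ∈ rectF x0 x1 y0 y1 ↔ Black z ∧ x0 ≤ z.1 ∧ z.1 < x1 ∧ y0 ≤ z.2 ∧ z.2 < y1 := by
  simp only [rectF, mem_filter, mem_product, mem_Ico]; tauto

theorem row_sum (c : ℤ) (q : ℕ) :
    2 * (∑ j ∈ range q, if (c + j) % 2 = 1 then (1 : ℤ) else 0) = q + (q % 2) * (2 * (c % 2) - 1) := by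
  induction q with
  | zero => simp
  | succ q ih =>
    rw [sum_range_succ, mul_add, ih]
    push_cast
    rcases Int.emod_two_eq_zero_or_one c with h | h <;>
      rcases Int.emod_two_eq_zero_or_one q with h' | h' <;>
      simp only [h, h', Int.add_emod, Int.reduceMod, Int.reduceAdd] <;> norm_num <;> ring

theorem card_rectF (x y : ℤ) (p q : ℕ) : 2 * ((rectF x (x + p) y (y + q)).card : ℤ) =
    p * q + (p % 2) * (q % 2) * (2 * ((x + y) % 2) - 1) := by
  have e : ((rectF x (x + p) y (y + q)).card : ℤ) =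
      ∑ i ∈ range p, ∑ j ∈ range q, if (x + i + y + j) % 2 = 1 then (1 : ℤ) else 0 := by
    rw [rectF, card_filter, sum_product, Int.Ico_eq_finset_map, Int.Ico_eq_finset_map]
    simp only [sum_map, Black, add_sub_cancel_left, Int.toNat_natCast, add_assoc]
    push_cast
    refine sum_congr rfl fun i _ => sum_congr rfl fun j _ => ?_
    simp [add_assoc]
  rw [e]
  clear e
  induction p with
  | zero => simp
  | succ p ih =>
    rw [sum_range_succ, mul_add, ih, row_sum]
    push_cast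
    rcases Int.emod_two_eq_zero_or_one (x + y) with h | h <;>
      rcases Int.emod_two_eq_zero_or_one p with h' | h' <;>
      rcases Int.emod_two_eq_zero_or_one q with h'' | h''
    all_goals
      have a : (x + p + y) % 2 = ((x + y) % 2 + p % 2) % 2 := by omega
      have b : ((p : ℤ) + 1) % 2 = (p % 2 + 1) % 2 := by omega
      rw [a, b, h, h', h'']; norm_num; ring

noncomputable section

def f0 (f : ℕ) : ℕ := Nat.mod f 16384
def f1 (f : ℕ) : ℕ := fld f 14 128
def f2 (f : ℕ) : ℕ := Nat.shiftRight f 21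
def sm (f : ℕ × ℕ × ℕ → ℕ) (l : List (ℕ × ℕ × ℕ)) : ℕ := foldL (fun R n => Nat.add (f R) n) 0 l
def eps (w h c : ℕ) : ℕ :=
  sel (Nat.beq (Nat.mul (Nat.mod w 2) (Nat.mod h 2)) 1) (Nat.mul 2 (Nat.mod c 2)) 1

def whK {α : Type} (b : Blk) (k : ℕ × ℕ × ℕ → α) : α :=
  force (Nat.sub b.R.x1 b.R.x0) fun w => force (Nat.sub b.R.y1 b.R.y0) fun h =>
    force (eps w h (Nat.add b.R.x0 b.R.y0)) fun e => k (w, h, e)

def mm (f g : ℕ → ℕ) (a b : ℕ) : ℕ := Nat.add (Nat.mul (f a) (g b)) (Nat.mul (g a) (f b))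

def co (A B : ℕ) (l : List (ℕ × ℕ × ℕ)) (f g : ℕ → ℕ) : Bool :=
  Nat.beq (sm (fun e => mm f g e.1 e.2.1) l) (Nat.mul 6 (Nat.add (mm f g A A) (mm f g B B)))

def polyC (A B : ℕ) (l : List (ℕ × ℕ × ℕ)) : Bool :=
  an (Nat.beq (sm (fun e => Nat.add (Nat.mul (f0 e.1) (f0 e.2.1)) e.2.2) l)
      (Nat.add (Nat.mul 3 (Nat.add (mm f0 f0 A A) (mm f0 f0 B B))) (lenL l)))
    (an (co A B l f0 f1) (an (co A B l f0 f2) (an (co A B l f1 f1) (an (co A B l f1 f2)
      (co A B l f2 f2)))))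

structure GR where
  bs : List RB
  ox : ℕ
  oy : ℕ
  ts : List ℕ

def rbR (b : RB) : Rc :=
  ⟨fld b.h 0 268435456, fld b.h 28 268435456, fld b.h 56 268435456, fld b.h 84 268435456⟩

def rsOf (l : List RB) : List Rc := foldL (fun b t => rbR b :: t) [] l

def grpOK (m : ℕ) (g : GR) : Bool :=
  sel (isNil g.ts) (allL (rsOf g.bs) (look m)) (expl g.ox g.oy (rsOf g.bs) g.ts)

def flat (gs : List GR) : List RB := foldL (fun g l => app g.bs l) [] gs

def keyA (k : ℕ) : ℕ :=
  Nat.add (Nat.mul 2 (Nat.add (fld k 0 64) (fld k 6 64)))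
    (Nat.add (Nat.mul 16384 (fld k 12 2)) (Nat.mul 2097152 (fld k 13 2)))
def keyB (k : ℕ) : ℕ := Nat.add (Nat.mul 2 (fld k 6 64)) (Nat.mul 2097152 (fld k 13 2))

def inst (m k : ℕ) (gs : List GR) (fw : List ℕ) : Bool :=
  force (keyA k) fun A => force (keyB k) fun B =>
    an (allL gs (grpOK m)) (mapK (blkD A B) (flat gs) fun bl =>
      an (netCheck A B bl (fwD fw)) (mapK whK bl (polyC A B)))

end

theorem mapK_fun {α β γ : Type} {f : α → (β → γ) → γ} {φ : α → β} (hf : ∀ a k, f a k = k (φ a))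
    (l : List α) : ∀ k, mapK f l k = k (l.map φ) := by
  induction l with
  | nil => exact fun _ => rfl
  | cons a l ih =>
    intro k
    have : mapK f (a :: l) k = f a fun b => mapK f l fun m => k (b :: m) := rfl
    rw [this, hf, ih, List.map_cons]

theorem blkD_ex (A B : ℕ) (b : RB) : ∃ d : Blk, d.R = rbR b ∧ ∀ k : Blk → Bool, blkD A B b k = k d := by
  obtain ⟨ps, h⟩ := mapK_ex (γ := Bool) (f := pcD A B)
    (fun a => ⟨_, fun k => by simp only [pcD, pcK, force_eq]; rfl⟩) b.ps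
  exact ⟨_, rfl, fun k => by simp only [blkD, h, force_eq]; rfl⟩

theorem ev_f (s t f : ℕ) : ev s t f = f0 f + f1 f * (24 * s) + f2 f * (24 * t) := by
  have a : f0 f = f % 16384 := rfl
  have b : f1 f = f / 16384 % 128 := by rw [f1, fld_eq]; norm_num
  have c : f2 f = f / 2097152 := by
    have : f2 f = f >>> 21 := rfl
    rw [this, Nat.shiftRight_eq_div_pow]
  rw [a, b, c, ev]; ring

theorem sm_cons (f : ℕ × ℕ × ℕ → ℕ) (e : ℕ × ℕ × ℕ) (l : List (ℕ × ℕ × ℕ)) :
    sm f (e :: l) = f e + sm f l := rfl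

theorem polyC_sound {A B : ℕ} {l : List (ℕ × ℕ × ℕ)} (h : polyC A B l = true) (s t : ℕ) :
    (l.map fun e => ev s t e.1 * ev s t e.2.1 + e.2.2 - 1).sum =
      6 * (ev s t A ^ 2 + ev s t B ^ 2) := by
  have key : 2 * (l.map fun e => ev s t e.1 * ev s t e.2.1 + e.2.2 - 1).sum =
      2 * (sm (fun e => Nat.add (Nat.mul (f0 e.1) (f0 e.2.1)) e.2.2) l : ℤ) - 2 * l.length +
      2 * sm (fun e => mm f0 f1 e.1 e.2.1) l * (24 * s) +
      2 * sm (fun e => mm f0 f2 e.1 e.2.1) l * (24 * t) +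
      sm (fun e => mm f1 f1 e.1 e.2.1) l * (24 * s) ^ 2 +
      2 * sm (fun e => mm f1 f2 e.1 e.2.1) l * (24 * s) * (24 * t) +
      sm (fun e => mm f2 f2 e.1 e.2.1) l * (24 * t) ^ 2 := by
    clear h
    induction l with
    | nil => simp [sm, foldL]
    | cons e l ih =>
      simp only [List.map_cons, List.sum_cons, sm_cons, List.length_cons, mul_add, ih]
      simp only [mm, Nat.add_eq, Nat.mul_eq, ev_f]
      push_cast; ring
  simp only [polyC, co, an_iff, beq_iff, lenL_eq] at h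
  obtain ⟨h1, h2, h3, h4, h5, h6⟩ := h
  rw [h1, h2, h3, h4, h5, h6] at key
  simp only [mm, Nat.add_eq, Nat.mul_eq] at key
  rw [ev_f s t A, ev_f s t B]
  push_cast at key
  linarith

theorem sum_cntT (S : Finset (ℤ × ℤ)) (TL : List (Finset (ℤ × ℤ)))
    (h : ∀ T ∈ TL, T ⊆ S ∧ T.card = 12) : ∑ z ∈ S, cntT z TL = 12 * TL.length := by
  induction TL with
  | nil => simp [cntT]
  | cons T l ih =>
    have e : ∀ z, cntT z (T :: l) = cntT z l + if z ∈ T then 1 else 0 := fun z => by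
      simp [cntT, List.countP_cons]
    obtain ⟨a, b⟩ := h T List.mem_cons_self
    simp only [e, sum_add_distrib, ih fun Q hQ => h Q (List.mem_cons_of_mem _ hQ),
      List.length_cons]
    rw [← card_filter, filter_mem_eq_inter, inter_eq_right.2 a, b]; ring

theorem sum_cnt (s t : ℕ) (S : Finset (ℤ × ℤ)) (hS : ∀ z ∈ S, Black z) (l : List Rc)
    (h : ∀ R ∈ l, ∀ z, Black z → R.mem s t z → z ∈ S) : ∑ z ∈ S, cnt s t z l =
      (l.map fun R => (rectF (ev s t R.x0) (ev s t R.x1) (ev s t R.y0) (ev s t R.y1)).card).sum := by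
  induction l with
  | nil => simp [cnt]
  | cons R l ih =>
    have e : ∀ z, cnt s t z (R :: l) = (if R.mem s t z then 1 else 0) + cnt s t z l := fun z => by
      simp [cnt, List.countP_cons, add_comm]
    simp only [e, sum_add_distrib, ih fun Q hQ => h Q (List.mem_cons_of_mem _ hQ),
      List.map_cons, List.sum_cons]
    rw [← card_filter]
    congr 2
    ext z
    rw [mem_rectF, mem_filter]
    exact ⟨fun c => ⟨hS z c.1, c.2⟩, fun c => ⟨h R List.mem_cons_self z c.1 c.2, c.2⟩⟩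

theorem card_blk (s t : ℕ) {R : Rc} (hv : R.valid = true) :
    2 * ((rectF (ev s t R.x0) (ev s t R.x1) (ev s t R.y0) (ev s t R.y1)).card : ℤ) =
      ev s t (R.x1 - R.x0) * ev s t (R.y1 - R.y0) +
        eps (R.x1 - R.x0) (R.y1 - R.y0) (R.x0 + R.y0) - 1 := by
  obtain ⟨-, v1, v2, -⟩ := valid_sound hv
  have a := ev_sub s t v1
  have b := ev_sub s t v2
  obtain ⟨p, hp⟩ := Int.eq_ofNat_of_zero_le (ev_nonneg s t (R.x1 - R.x0))
  obtain ⟨q, hq⟩ := Int.eq_ofNat_of_zero_le (ev_nonneg s t (R.y1 - R.y0))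
  have c1 := ev_par s t (R.x1 - R.x0)
  have c2 := ev_par s t (R.y1 - R.y0)
  have c3 := ev_par s t R.x0
  have c4 := ev_par s t R.y0
  rw [show ev s t R.x1 = ev s t R.x0 + p by omega, show ev s t R.y1 = ev s t R.y0 + q by omega,
    card_rectF, hp, hq]
  rw [hp] at c1
  rw [hq] at c2
  have c5 : (ev s t R.x0 + ev s t R.y0) % 2 = ((R.x0 + R.y0) % 2 : ℕ) := by omega
  have e : ∀ w : ℕ, w.mod 2 = w % 2 := fun _ => rfl
  rw [c1, c2, c5, eps, sel_eq, e, e, e]
  rcases Nat.mod_two_eq_zero_or_one (R.x1 - R.x0) with h | h <;>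
    rcases Nat.mod_two_eq_zero_or_one (R.y1 - R.y0) with h' | h' <;>
    rcases Nat.mod_two_eq_zero_or_one (R.x0 + R.y0) with h'' | h'' <;>
    rw [h, h', h''] <;> simp <;> ring

theorem cnt_le_one {s t : ℕ} {z : ℤ × ℤ} (hz : Black z) {l : List Rc}
    (h : l.Pairwise (DisB s t)) : cnt s t z l ≤ 1 := by
  induction l with
  | nil => simp [cnt]
  | cons R l ih =>
    rw [List.pairwise_cons] at h
    have e : cnt s t z (R :: l) = cnt s t z l + if R.mem s t z then 1 else 0 := by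
      simp [cnt, List.countP_cons]
    rw [e]
    split_ifs with c
    · rw [cnt_zero fun Q hQ hm => h.1 Q hQ z hz c hm]
    · exact ih h.2

theorem grp_sound {m : ℕ} (hm : TabOK m) (hs : strips m = true) (s t : ℕ) (gs : List GR)
    (h : ∀ g ∈ gs, grpOK m g = true) (hv : ∀ b ∈ flat gs, (rbR b).valid = true)
    (hc : ∀ z, Black z → cnt s t z ((flat gs).map rbR) ≤ 1) : Tld s t ((flat gs).map rbR) := by
  induction gs with
  | nil => exact ⟨[], by simp, fun _ _ => rfl⟩
  | cons g gs ih =>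
    have e : flat (g :: gs) = g.bs ++ flat gs := app_eq _ _
    rw [e] at hv hc ⊢
    rw [List.map_append] at hc ⊢
    refine Tld.append ?_ (ih (fun a ha => h a (List.mem_cons_of_mem _ ha))
      (fun b hb => hv b (List.mem_append_right _ hb)) fun z hz => ?_)
    · have := h g List.mem_cons_self
      rw [grpOK, sel_eq, rsOf, foldL_map, List.append_nil] at this
      split_ifs at this
      · rw [allL_iff] at this
        refine tld_all fun R hR => look_sound hm hs ?_ (this R hR) s t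
        obtain ⟨b, hb, rfl⟩ := List.mem_map.1 hR
        exact hv b (List.mem_append_left _ hb)
      · refine tld_expl this fun z hz => ?_
        have := hc z hz
        rw [cnt_append] at this; omega
    · have := hc z hz
      rw [cnt_append] at this; omega

theorem pw_of_countP {α : Type} {p : α → Bool} {l : List α} (h : l.countP p ≤ 1) :
    l.Pairwise fun a b => p a = true → p b = true → False := by
  induction l with
  | nil => exact List.Pairwise.nil
  | cons a l ih =>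
    rw [List.countP_cons] at h
    refine List.Pairwise.cons (fun b hb pa pb => ?_) (ih (by omega))
    have := List.countP_pos_iff.2 ⟨b, hb, pb⟩
    rw [if_pos pa] at h; omega

theorem assemble {S : Finset (ℤ × ℤ)} {TL : List (Finset (ℤ × ℤ))} (hS : ∀ z ∈ S, Black z)
    (h1 : IsPolyomino (S.image toCell)) (h2 : IsCubeNet (region (S.image toCell)))
    (g : ∀ T ∈ TL, GoodT T) (c : ∀ z, Black z → cntT z TL ≤ 1 ∧ (0 < cntT z TL ↔ z ∈ S)) :
    IsRegularRepCube TL.length (S.image toCell) := by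
  have gi : ∀ i : Fin TL.length, GoodT TL[i] := fun i => g _ (List.getElem_mem _)
  have cp : ∀ z, 0 < cntT z TL ↔ ∃ i : Fin TL.length, z ∈ TL[i] := fun z => by
    simp only [cntT, List.countP_pos_iff, decide_eq_true_eq]
    constructor
    · rintro ⟨T, hT, hz⟩
      obtain ⟨i, hi, rfl⟩ := List.getElem_of_mem hT
      exact ⟨⟨i, hi⟩, hz⟩
    · rintro ⟨i, hz⟩; exact ⟨_, List.getElem_mem _, hz⟩
  have cd : ∀ i : Fin TL.length, (TL[i].image toCell).card = 12 := fun i => by
    rw [card_image_of_injOn fun a ha b hb e => toCell_inj ((gi i).1 a ha) ((gi i).1 b hb) e,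
      (gi i).2.1]
  refine ⟨h1, h2, fun i => TL[i].image toCell, fun i => (gi i).2.2, fun i j hij => ?_,
    fun x => ?_, fun i j => by rw [cd, cd]⟩
  · rw [disjoint_left]
    intro x hx hx'
    obtain ⟨z, hz, rfl⟩ := mem_image.1 hx
    obtain ⟨w, hw, e⟩ := mem_image.1 hx'
    have bz := (gi i).1 z hz
    rw [toCell_inj ((gi j).1 w hw) bz e] at hw
    have := List.pairwise_iff_getElem.1 (pw_of_countP (c z bz).1)
    rcases lt_or_gt_of_ne hij with l | l
    · exact this i j i.2 j.2 l (decide_eq_true hz) (decide_eq_true hw)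
    · exact this j i j.2 i.2 l (decide_eq_true hw) (decide_eq_true hz)
  · simp only [mem_image]
    constructor
    · rintro ⟨z, hz, rfl⟩
      obtain ⟨i, hi⟩ := (cp z).1 ((c z (hS z hz)).2.2 hz)
      exact ⟨i, z, hi, rfl⟩
    · rintro ⟨i, z, hz, rfl⟩
      exact ⟨z, (c z ((gi i).1 z hz)).2.1 ((cp z).2 ⟨i, hz⟩), rfl⟩

def RC (a b : ℕ) : Prop := ∃ P, IsRegularRepCube (a ^ 2 + b ^ 2) P

def Fam (k : ℕ) : Prop := ∀ s t : ℕ,
  RC (fld k 0 64 + fld k 6 64 + 12 * (fld k 12 2 * s + fld k 13 2 * t))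
    (fld k 6 64 + 12 * (fld k 13 2 * t))

theorem exists_S (s t : ℕ) (bl : List Blk) :
    ∃ S : Finset (ℤ × ℤ), ∀ z, z ∈ S ↔ Black z ∧ ∃ b ∈ bl, b.R.mem s t z := by
  induction bl with
  | nil => exact ⟨∅, by simp⟩
  | cons b l ih =>
    obtain ⟨S, hS⟩ := ih
    refine ⟨rectF (ev s t b.R.x0) (ev s t b.R.x1) (ev s t b.R.y0) (ev s t b.R.y1) ∪ S, fun z => ?_⟩
    simp only [mem_union, mem_rectF, hS, List.mem_cons, exists_eq_or_imp, Rc.mem]
    tauto

theorem inst_sound {m : ℕ} (hm : TabOK m) (hs : strips m = true) {k : ℕ} {gs : List GR}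
    {fw : List ℕ} (h : inst m k gs fw = true) : Fam k := by
  intro s t
  choose φ h1 h2 using blkD_ex (keyA k) (keyB k)
  simp only [inst, force_eq, an_iff, allL_iff, mapK_fun h2] at h
  obtain ⟨hg, hn, hp⟩ := h
  rw [mapK_fun (f := whK) (φ := fun b => (b.R.x1 - b.R.x0, b.R.y1 - b.R.y0,
    eps (b.R.x1 - b.R.x0) (b.R.y1 - b.R.y0) (b.R.x0 + b.R.y0)))
    (fun a k => by simp only [whK, force_eq]; rfl)] at hp
  obtain ⟨S, hS⟩ := exists_S s t ((flat gs).map φ)
  obtain ⟨n1, n2, n3, n4⟩ := netCheck_sound hn s t hS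
  have hc : ∀ z, Black z → cnt s t z ((flat gs).map rbR) ≤ 1 := fun z hz =>
    cnt_le_one hz (by simpa only [List.pairwise_map, h1] using n3)
  have hv : ∀ b ∈ flat gs, (rbR b).valid = true := fun b hb =>
    h1 b ▸ n4 _ (List.mem_map_of_mem hb)
  obtain ⟨TL, g, e⟩ := grp_sound hm hs s t gs hg hv hc
  have hS' : ∀ z, z ∈ S ↔ Black z ∧ 0 < cnt s t z ((flat gs).map rbR) := fun z => by
    simp only [hS, cnt_pos, List.mem_map, exists_exists_and_eq_and, h1]
  have hb : ∀ z ∈ S, Black z := fun z hz => ((hS' z).1 hz).1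
  have r := assemble hb n1 n2 g fun z hz => by
    rw [e z hz, hS']; exact ⟨hc z hz, by simp [hz]⟩
  have s1 := sum_cntT S TL fun T hT => ⟨fun z hz => by
    have bz := (g T hT).1 z hz
    rw [hS', ← e z bz]
    exact ⟨bz, List.countP_pos_iff.2 ⟨T, hT, decide_eq_true hz⟩⟩, (g T hT).2.1⟩
  have s2 := sum_cnt s t S hb ((flat gs).map rbR) fun R hR z hz hm =>
    (hS' z).2 ⟨hz, cnt_pos.2 ⟨R, hR, hm⟩⟩
  rw [sum_congr rfl fun z hz => e z (hb z hz), s2] at s1
  have s3 := polyC_sound hp s t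
  have s4 : (2 * ((12 * TL.length : ℕ) : ℤ)) = 6 * (ev s t (keyA k) ^ 2 + ev s t (keyB k) ^ 2) := by
    rw [← s1, ← s3]
    simp only [List.map_map, Nat.cast_list_sum, ← List.sum_map_mul_left]
    refine congrArg _ (List.map_congr_left fun b hb => ?_)
    simp only [Function.comp, h1]
    exact card_blk s t (hv b hb)
  have b1 : fld k 0 64 < 64 := Nat.mod_lt _ (by norm_num)
  have b2 : fld k 6 64 < 64 := Nat.mod_lt _ (by norm_num)
  have b3 : fld k 12 2 < 2 := Nat.mod_lt _ (by norm_num)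
  have eA : keyA k = 2 * (fld k 0 64 + fld k 6 64) + (16384 * fld k 12 2 + 2097152 * fld k 13 2) :=
    rfl
  have eB : keyB k = 2 * fld k 6 64 + 2097152 * fld k 13 2 := rfl
  rw [ev_fields s t (a := 2 * (fld k 0 64 + fld k 6 64)) (b := fld k 12 2) (c := fld k 13 2)
    (by omega) (by omega) (by omega), ev_fields s t (a := 2 * fld k 6 64) (b := 0)
    (c := fld k 13 2) (by omega) (by omega) (by omega)] at s4
  refine ⟨S.image toCell, ?_⟩
  convert r using 1
  zify
  push_cast at s4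
  linarith

noncomputable def cov1 (k0 km n x : ℕ) : Bool :=
  sel (Nat.beq km 1) (an (Nat.ble k0 x) (Nat.beq (Nat.mod (Nat.sub x k0) 12) 0))
    (an (Nat.beq k0 x) (Nat.ble x n))

noncomputable def covB (K : List ℕ) : Bool :=
  allL (List.range 41) fun x => allL (List.range 36) fun b => anyL K fun k =>
    an (cov1 (fld k 0 64) (fld k 12 2) 28 x) (cov1 (fld k 6 64) (fld k 13 2) 24 (Nat.succ b))

theorem cov1_sound {k0 km n x y : ℕ} (h : cov1 k0 km n x = true)
    (hy : y = x ∨ n < x ∧ x ≤ y ∧ (y - x) % 12 = 0) : ∃ s, y = k0 + 12 * (km * s) := by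
  rw [cov1, sel_eq] at h
  split_ifs at h with c
  · simp only [an_iff, beq_iff, ble_iff, Nat.sub_eq] at h c
    have : (x - k0).mod 12 = (x - k0) % 12 := rfl
    exact ⟨(y - k0) / 12, by rw [c]; omega⟩
  · simp only [an_iff, beq_iff, ble_iff] at h
    exact ⟨0, by omega⟩

theorem cover_all {K : List ℕ} (hK : ∀ k ∈ K, Fam k) (h : covB K = true) (a b : ℕ) (ha : 1 ≤ a)
    (hb : 1 ≤ b) : RC a b := by
  wlog hab : b ≤ a generalizing a b
  · have := this b a hb ha (by omega)
    rwa [RC, add_comm] at this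
  simp only [covB, allL_iff, anyL_iff, an_iff, List.mem_range] at h
  obtain ⟨k, hk, c1, c2⟩ := h (if a - b ≤ 28 then a - b else 29 + (a - b - 29) % 12)
    (by split_ifs <;> omega) (if b ≤ 24 then b - 1 else 24 + (b - 25) % 12)
    (by split_ifs <;> omega)
  obtain ⟨s, hs⟩ := cov1_sound (y := a - b) c1 (by split_ifs <;> omega)
  obtain ⟨t, ht⟩ := cov1_sound (y := b) c2 (by split_ifs <;> omega)
  convert hK k hk s t using 1
  omega

end Pool.Agent.P.MP_626a52_co
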