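import Pool.Agent.P.MP_626a52_co.D0
import Pool.Agent.P.MP_626a52_co.D1
import Pool.Agent.P.MP_626a52_co.D2
import Pool.Agent.P.MP_626a52_co.D3
import Pool.Agent.P.MP_626a52_co.D4
import Pool.Agent.P.MP_626a52_co.D5
import Pool.Agent.P.MP_626a52_co.D6
import Pool.Agent.P.MP_626a52_co.D7

namespace Pool.Agent.P.MP_626a52_co

def allK : List ℕ := [64, 128, 192, 8448, 320, 8576, 448, 8704, 576, 8832, 704, 8960, 9024, 9088, 9152, 9280, 9408, 9536, 9664, 65, 129, 193, 257, 321, 385, 449, 513, 12865, 641, 705, 769, 9025, 13185, 13249, 13313, 9281, 9345, 9409, 9473, 13697, 13761, 13825, 66, 130, 194, 258, 322, 12674, 450, 12802, 578, 12930, 706, 13058, 13122, 13186, 13250, 13314, 13378, 13506, 13634, 13762, 67, 131, 195, 259, 323, 387, 451, 8707, 579, 643, 707, 13059, 9027, 13187, 13251, 13315, 13379, 13443, 9411, 13635, 13699, 13763, 68, 132, 196, 12548, 324, 12676, 452, 12804, 12868, 644, 12996, 13060, 13124, 13188, 13252, 13380, 9412, 13700, 69, 133,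 197, 261, 325, 389, 453, 517, 12869, 12933, 709, 13061, 9029, 13189, 13253, 13317, 13381, 13445, 9413, 13573, 13765, 70, 134, 198, 12550, 326, 12678, 454, 12806, 12870, 12934, 12998, 13062, 13126, 13190, 13254, 13382, 13510, 71, 135, 199, 263, 327, 391, 455, 12807, 12871, 12935, 12999, 775, 13127, 13191, 13255, 13319, 13383, 13447, 13511, 13831, 72, 12424, 200, 12552, 328, 12680, 12744, 12808, 12872, 12936, 13000, 13064, 13128, 13256, 13384, 73, 4233, 201, 4361, 329, 12681, 4553, 12809, 12873, 12937, 13001, 13065, 13129, 13193, 13257, 13321, 13385, 13513, 74, 4234, 202, 12554, 330, 12682, 12746, 12810, 12874, 12938, 13002, 13066, 13130, 13194, 13258, 13386, 75, 139, 203, 4363, 4427, 4491, 12747, 12811, 12875, 12939, 13003, 13067, 13131, 13195, 13259, 13323, 13387, 13451, 76, 4236, 12492, 12556, 12620, 12684, 12748, 12812, 12876, 12940, 13004, 13068, 13132, 13196, 77, 141, 205, 4365, 333, 12685, 12749, 12813, 4749, 4813, 4877, 13133, 13389, 4174,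 4238, 4302, 4366, 4430, 4558, 4686, 4814, 79, 143, 4303, 4367, 4431, 4495, 12751, 12815, 4687, 4751, 4815, 13135, 80, 4240, 4304, 4432, 12752, 4752, 4177, 4241, 4305, 4369, 4433, 4497, 12753, 4625, 4817, 13137, 4178, 4242, 4306, 4434, 4562, 4179, 4243, 4307, 4371, 4435, 4499, 4563, 4883, 4180, 4308, 4436, 4181, 4309, 4437, 4182, 4310, 4438, 4183, 4247, 4311, 4184, 4185, 4249, 4313, 4441, 4187, 4251, 4188]

theorem allK_eq : allK = k0 ++ k1 ++ k2 ++ k3 ++ k4 ++ k5 ++ k6 ++ k7 := by decide +kernel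

theorem allK_fam : ∀ k ∈ allK, Fam k := by
  rw [allK_eq]
  simp only [List.forall_mem_append]
  exact ⟨⟨⟨⟨⟨⟨⟨fam0, fam1⟩, fam2⟩, fam3⟩, fam4⟩, fam5⟩, fam6⟩, fam7⟩

theorem allK_cov : covB allK = true := by decide +kernel

theorem main (a b : ℕ) (ha : 1 ≤ a) (hb : 1 ≤ b) : ∃ P, IsRegularRepCube (a ^ 2 + b ^ 2) P :=
  cover_all allK_fam allK_cov a b ha hb

end Pool.Agent.P.MP_626a52_co
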