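import Pool.Agent.P.MP_626a52_co.Geo

namespace Pool.Agent.P.MP_626a52_co
open Set

theorem exists_inQ {A B : ℤ} (hB : 0 ≤ B) (hBA : B ≤ A) (hA : 0 < A) (hAe : A % 2 = 0)
    (hBe : B % 2 = 0) {q : ℝ × ℝ} (hq : q ∈ Icc (0 : ℝ) 1 ×ˢ Icc (0 : ℝ) 1) :
    ∃ z, Black z ∧ InQ A B z ∧ Dia z (ptx A B q) (pty A B q) := by
  have hfin : {z : ℤ × ℤ | Black z ∧ InQ A B z}.Finite := by
    refine ((Set.finite_Icc (0 : ℤ) (A + B)).prod (Set.finite_Icc (0 : ℤ) (A + B))).subset ?_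
    rintro z ⟨-, hz⟩
    unfold InQ at hz
    simp only [mem_prod, mem_Icc]
    omega
  have hcl : IsClosed (⋃ z ∈ {z : ℤ × ℤ | Black z ∧ InQ A B z},
      {q : ℝ × ℝ | Dia z (ptx A B q) (pty A B q)}) := by
    refine hfin.isClosed_biUnion fun z _ => ?_
    simp only [Dia, ptx, pty, ofPred_and]
    refine IsClosed.inter ?_ (IsClosed.inter ?_ (IsClosed.inter ?_ ?_)) <;>
      exact isClosed_le (by fun_prop) (by fun_prop)
  have hsub : Ioo (0 : ℝ) 1 ×ˢ Ioo (0 : ℝ) 1 ⊆ ⋃ z ∈ {z : ℤ × ℤ | Black z ∧ InQ A B z},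
      {q : ℝ × ℝ | Dia z (ptx A B q) (pty A B q)} := by
    rintro q ⟨⟨h1, h2⟩, h3, h4⟩
    obtain ⟨z, hz, hd⟩ := exists_dia (ptx A B q) (pty A B q)
    simp only [mem_iUnion]
    exact ⟨z, ⟨hz, inQ_of_open hB hBA hA hAe hBe hz h1 h2 h3 h4 hd⟩, hd⟩
  have := closure_minimal hsub hcl
  rw [closure_prod_eq, closure_Ioo (by norm_num)] at this
  have h := this hq
  simp only [mem_iUnion] at h
  obtain ⟨z, ⟨h1, h2⟩, h3⟩ := h
  exact ⟨z, h1, h2, h3⟩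

theorem rotN_mem (r : ℕ) {a b : ℝ} (h1 : 0 ≤ a) (h2 : a ≤ 1) (h3 : 0 ≤ b) (h4 : b ≤ 1) :
    0 ≤ (rotN r a b).1 ∧ (rotN r a b).1 ≤ 1 ∧ 0 ≤ (rotN r a b).2 ∧ (rotN r a b).2 ≤ 1 := by
  match r with
  | 0 => simp only [rotN]; refine ⟨?_, ?_, ?_, ?_⟩ <;> linarith
  | 1 => simp only [rotN]; refine ⟨?_, ?_, ?_, ?_⟩ <;> linarith
  | 2 => simp only [rotN]; refine ⟨?_, ?_, ?_, ?_⟩ <;> linarith
  | (n + 3) => simp only [rotN]; refine ⟨?_, ?_, ?_, ?_⟩ <;> linarith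

theorem rotN_memO (r : ℕ) {a b : ℝ} (h1 : 0 < a) (h2 : a < 1) (h3 : 0 < b) (h4 : b < 1) :
    0 < (rotN r a b).1 ∧ (rotN r a b).1 < 1 ∧ 0 < (rotN r a b).2 ∧ (rotN r a b).2 < 1 := by
  match r with
  | 0 => simp only [rotN]; refine ⟨?_, ?_, ?_, ?_⟩ <;> linarith
  | 1 => simp only [rotN]; refine ⟨?_, ?_, ?_, ?_⟩ <;> linarith
  | 2 => simp only [rotN]; refine ⟨?_, ?_, ?_, ?_⟩ <;> linarith
  | (n + 3) => simp only [rotN]; refine ⟨?_, ?_, ?_, ?_⟩ <;> linarith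

theorem rotN_inj (r : ℕ) {a b a' b' : ℝ} (h : rotN r a b = rotN r a' b') : a = a' ∧ b = b' := by
  match r with
  | 0 => simp only [rotN, Prod.mk.injEq] at h; constructor <;> linarith [h.1, h.2]
  | 1 => simp only [rotN, Prod.mk.injEq] at h; constructor <;> linarith [h.1, h.2]
  | 2 => simp only [rotN, Prod.mk.injEq] at h; constructor <;> linarith [h.1, h.2]
  | (n + 3) => simp only [rotN, Prod.mk.injEq] at h; constructor <;> linarith [h.1, h.2]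

theorem rotN_surj (r : ℕ) {q : ℝ × ℝ} (h1 : 0 ≤ q.1) (h2 : q.1 ≤ 1) (h3 : 0 ≤ q.2) (h4 : q.2 ≤ 1) :
    ∃ a b, 0 ≤ a ∧ a ≤ 1 ∧ 0 ≤ b ∧ b ≤ 1 ∧ rotN r a b = q := by
  match r with
  | 0 => exact ⟨q.1, q.2, h1, h2, h3, h4, rfl⟩
  | 1 => exact ⟨q.2, 1 - q.1, h3, h4, by linarith, by linarith, by simp [rotN]⟩
  | 2 => exact ⟨1 - q.1, 1 - q.2, by linarith, by linarith, by linarith, by linarith,
      by simp [rotN]⟩
  | (n + 3) => exact ⟨1 - q.2, q.1, by linarith, by linarith, h1, h2, by simp [rotN]⟩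

theorem rotN_dist (r : ℕ) (a b a' b' : ℝ) :
    ((rotN r a b).1 - (rotN r a' b').1) ^ 2 + ((rotN r a b).2 - (rotN r a' b').2) ^ 2 =
      (a - a') ^ 2 + (b - b') ^ 2 := by
  match r with
  | 0 => simp only [rotN]
  | 1 => simp only [rotN]; ring
  | 2 => simp only [rotN]; ring
  | (n + 3) => simp only [rotN]; ring

theorem face_dist (F : ℕ) (q q' : ℝ × ℝ) :
    (face F q 0 - face F q' 0) ^ 2 + (face F q 1 - face F q' 1) ^ 2 +
      (face F q 2 - face F q' 2) ^ 2 = (q.1 - q'.1) ^ 2 + (q.2 - q'.2) ^ 2 := by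
  match F with
  | 0 => simp [face]
  | 1 => simp [face]
  | 2 => simp [face]; ring
  | 3 => simp [face]; ring
  | 4 => simp [face]; ring
  | (n + 5) => simp [face]

theorem face_mem (F : ℕ) {q : ℝ × ℝ} (h1 : 0 ≤ q.1) (h2 : q.1 ≤ 1) (h3 : 0 ≤ q.2) (h4 : q.2 ≤ 1) :
    (∀ k, 0 ≤ face F q k ∧ face F q k ≤ 1) ∧ ∃ k, face F q k = 0 ∨ face F q k = 1 := by
  match F with
  | 0 => exact ⟨fun k => by fin_cases k <;> simp [face, *], 2, by simp [face]⟩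
  | 1 => exact ⟨fun k => by fin_cases k <;> simp [face, *], 0, by simp [face]⟩
  | 2 => exact ⟨fun k => by fin_cases k <;> simp [face, *], 1, by simp [face]⟩
  | 3 => exact ⟨fun k => by fin_cases k <;> simp [face, *], 2, by simp [face]⟩
  | 4 => exact ⟨fun k => by fin_cases k <;> simp [face, *], 0, by simp [face]⟩
  | (n + 5) => exact ⟨fun k => by fin_cases k <;> simp [face, *], 1, by simp [face]⟩

theorem face_surj {v : Fin 3 → ℝ} (h : ∀ k, 0 ≤ v k ∧ v k ≤ 1) (h' : ∃ k, v k = 0 ∨ v k = 1) :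
    ∃ F < 6, ∃ q ∈ Icc (0 : ℝ) 1 ×ˢ Icc (0 : ℝ) 1, face F q = v := by
  obtain ⟨k, hk⟩ := h'
  have h0 := h 0
  have h1 := h 1
  have h2 := h 2
  fin_cases k <;> rcases hk with hk | hk <;> simp at hk
  · exact ⟨4, by norm_num, (v 2, v 1), ⟨h2, h1⟩, by ext k; fin_cases k <;> simp [face, hk]⟩
  · exact ⟨1, by norm_num, (v 1, v 2), ⟨h1, h2⟩, by ext k; fin_cases k <;> simp [face, hk]⟩
  · exact ⟨5, by norm_num, (v 0, v 2), ⟨h0, h2⟩, by ext k; fin_cases k <;> simp [face, hk]⟩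
  · exact ⟨2, by norm_num, (v 2, v 0), ⟨h2, h0⟩, by ext k; fin_cases k <;> simp [face, hk]⟩
  · exact ⟨3, by norm_num, (v 1, v 0), ⟨h1, h0⟩, by ext k; fin_cases k <;> simp [face, hk]⟩
  · exact ⟨0, by norm_num, (v 0, v 1), ⟨h0, h1⟩, by ext k; fin_cases k <;> simp [face, hk]⟩

theorem face_inj {F F' : ℕ} (hF : F < 6) (hF' : F' < 6) {q q' : ℝ × ℝ}
    (h1 : 0 < q.1) (h2 : q.1 < 1) (h3 : 0 < q.2) (h4 : q.2 < 1)
    (g1 : 0 < q'.1) (g2 : q'.1 < 1) (g3 : 0 < q'.2) (g4 : q'.2 < 1)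
    (h : face F q = face F' q') : F = F' ∧ q = q' := by
  have e0 := congrFun h 0
  have e1 := congrFun h 1
  have e2 := congrFun h 2
  interval_cases F <;> interval_cases F' <;> simp [face] at e0 e1 e2 <;>
    first
    | exact ⟨rfl, Prod.ext (by linarith) (by linarith)⟩
    | (exfalso; linarith)

theorem interior_step {S : Set E2} {p : E2} (hp : p ∈ interior S) (v : E2) :
    ∃ e : ℝ, 0 < e ∧ p + e • v ∈ S := by
  have hc : Continuous fun e : ℝ => p + e • v := by fun_prop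
  have h0 : (fun e : ℝ => p + e • v) ⁻¹' interior S ∈ nhds (0 : ℝ) :=
    hc.continuousAt.preimage_mem_nhds (by simpa using isOpen_interior.mem_nhds hp)
  obtain ⟨e, he, hb⟩ := Metric.mem_nhds_iff.1 h0
  refine ⟨e / 2, by positivity, interior_subset (hb ?_)⟩
  rw [Metric.mem_ball, Real.dist_eq, sub_zero, abs_of_pos (by positivity)]
  linarith

def panel (A B : ℤ) (w : (ℤ × ℤ) × Ch) : Set E2 :=
  {p | Dia w.1 (p 0 - p 1) (p 0 + p 1) ∧ InD A B w.2 (p 0 - p 1) (p 0 + p 1)}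

theorem panel_interior {A B : ℤ} (hA : 0 < A) {w : (ℤ × ℤ) × Ch} {p : E2}
    (hp : p ∈ interior (panel A B w)) :
    DiaO w.1 (p 0 - p 1) (p 0 + p 1) ∧ 0 < al A B w.2 (p 0 - p 1) (p 0 + p 1) ∧
      al A B w.2 (p 0 - p 1) (p 0 + p 1) < 1 ∧ 0 < be A B w.2 (p 0 - p 1) (p 0 + p 1) ∧
      be A B w.2 (p 0 - p 1) (p 0 + p 1) < 1 := by
  have hN := N_pos (B := B) hA
  have hA' : (0 : ℝ) < A := by exact_mod_cast hA
  obtain ⟨e1, p1, ⟨-, a1, -, -⟩, -⟩ := interior_step hp !₂[1, 0]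
  obtain ⟨e2, p2, ⟨a2, -, -, -⟩, -⟩ := interior_step hp !₂[-1, 0]
  obtain ⟨e3, p3, ⟨-, -, -, a3⟩, -⟩ := interior_step hp !₂[0, 1]
  obtain ⟨e4, p4, ⟨-, -, a4, -⟩, -⟩ := interior_step hp !₂[0, -1]
  obtain ⟨e5, p5, -, -, a5, -, -⟩ := interior_step hp !₂[1, -1]
  obtain ⟨e6, p6, -, a6, -, -, -⟩ := interior_step hp !₂[-1, 1]
  obtain ⟨e7, p7, -, -, -, -, a7⟩ := interior_step hp !₂[1, 1]
  obtain ⟨e8, p8, -, -, -, a8, -⟩ := interior_step hp !₂[-1, -1]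
  simp [al, be] at a1 a2 a3 a4 a5 a6 a7 a8
  have key : ∀ (u v : ℝ), u < v → u / ((A : ℝ) ^ 2 + B ^ 2) < v / ((A : ℝ) ^ 2 + B ^ 2) :=
    fun u v h => div_lt_div_of_pos_right h hN
  have m5 := mul_pos hA' p5
  have m6 := mul_pos hA' p6
  have m7 := mul_pos hA' p7
  have m8 := mul_pos hA' p8
  refine ⟨⟨by linarith, by linarith, by linarith, by linarith⟩, ?_, ?_, ?_, ?_⟩
  · simp only [al]; refine sub_pos.2 (lt_of_le_of_lt a6 (key _ _ ?_)); nlinarith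
  · simp only [al]; refine sub_lt_iff_lt_add.2 (lt_of_lt_of_le (key _ _ ?_) a5); nlinarith
  · simp only [be]; refine sub_pos.2 (lt_of_le_of_lt a8 (key _ _ ?_)); nlinarith
  · simp only [be]; refine sub_lt_iff_lt_add.2 (lt_of_lt_of_le (key _ _ ?_) a7); nlinarith

theorem panel_convex (A B : ℤ) (w : (ℤ × ℤ) × Ch) : Convex ℝ (panel A B w) := by
  intro p hp q hq s t hs ht hst
  obtain ⟨⟨a1, a2, a3, a4⟩, a5, a6, a7, a8⟩ := hp
  obtain ⟨⟨b1, b2, b3, b4⟩, b5, b6, b7, b8⟩ := hq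
  have ea : al A B w.2 ((s • p + t • q) 0 - (s • p + t • q) 1) ((s • p + t • q) 0 + (s • p + t • q) 1)
      = s * al A B w.2 (p 0 - p 1) (p 0 + p 1) + t * al A B w.2 (q 0 - q 1) (q 0 + q 1) := by
    simp only [al, PiLp.add_apply, PiLp.smul_apply, smul_eq_mul]
    have : t = 1 - s := by linarith
    subst this; ring
  have eb : be A B w.2 ((s • p + t • q) 0 - (s • p + t • q) 1) ((s • p + t • q) 0 + (s • p + t • q) 1)
      = s * be A B w.2 (p 0 - p 1) (p 0 + p 1) + t * be A B w.2 (q 0 - q 1) (q 0 + q 1) := by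
    simp only [be, PiLp.add_apply, PiLp.smul_apply, smul_eq_mul]
    have : t = 1 - s := by linarith
    subst this; ring
  have ht' : t = 1 - s := by linarith
  refine ⟨?_, ?_⟩
  · simp only [Dia, PiLp.add_apply, PiLp.smul_apply, smul_eq_mul]
    subst ht'
    refine ⟨?_, ?_, ?_, ?_⟩ <;> nlinarith
  · simp only [InD, ea, eb]
    subst ht'
    refine ⟨?_, ?_, ?_, ?_⟩ <;> nlinarith

theorem panel_compact (A B : ℤ) (w : (ℤ × ℤ) × Ch) : IsCompact (panel A B w) := by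
  apply Metric.isCompact_of_isClosed_isBounded
  · simp only [panel, Dia, InD, al, be, ofPred_and]
    refine IsClosed.inter (IsClosed.inter ?_ (IsClosed.inter ?_ (IsClosed.inter ?_ ?_)))
      (IsClosed.inter ?_ (IsClosed.inter ?_ (IsClosed.inter ?_ ?_))) <;>
      exact isClosed_le (by fun_prop) (by fun_prop)
  · refine (Metric.isBounded_closedBall (x := (!₂[((w.1.1 : ℝ) + w.1.2) / 2,
      ((w.1.2 : ℝ) - w.1.1) / 2] : E2)) (r := 1)).subset ?_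
    rintro p ⟨⟨a1, a2, a3, a4⟩, -⟩
    rw [Metric.mem_closedBall, EuclideanSpace.dist_eq, Real.sqrt_le_one]
    simp [Real.dist_eq, sq_abs]
    nlinarith

noncomputable def fold (A B : ℤ) (c : Ch) (p : E2) : E3 :=
  WithLp.toLp 2 fun k => √(((A : ℝ) ^ 2 + B ^ 2) / 2) * psi A B c (p 0 - p 1) (p 0 + p 1) k

theorem fold_dist {A B : ℤ} (hA : 0 < A) (c : Ch) (p q : E2) :
    dist (fold A B c p) (fold A B c q) = dist p q := by
  have hN := N_pos (B := B) hA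
  rw [EuclideanSpace.dist_eq, EuclideanSpace.dist_eq]
  congr 1
  simp only [Fin.sum_univ_three, Fin.sum_univ_two, Real.dist_eq, sq_abs, fold, psi]
  have h1 := face_dist c.F
    (rotN c.r (al A B c (p 0 - p 1) (p 0 + p 1)) (be A B c (p 0 - p 1) (p 0 + p 1)))
    (rotN c.r (al A B c (q 0 - q 1) (q 0 + q 1)) (be A B c (q 0 - q 1) (q 0 + q 1)))
  rw [rotN_dist] at h1
  have h2 : √(((A : ℝ) ^ 2 + B ^ 2) / 2) ^ 2 = ((A : ℝ) ^ 2 + B ^ 2) / 2 :=
    Real.sq_sqrt (by positivity)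
  have h3 : ((A : ℝ) ^ 2 + B ^ 2) / 2 *
      ((al A B c (p 0 - p 1) (p 0 + p 1) - al A B c (q 0 - q 1) (q 0 + q 1)) ^ 2 +
      (be A B c (p 0 - p 1) (p 0 + p 1) - be A B c (q 0 - q 1) (q 0 + q 1)) ^ 2) =
      (p 0 - q 0) ^ 2 + (p 1 - q 1) ^ 2 := by
    simp only [al, be]; field_simp; ring
  rw [← h3, ← h1, ← h2]
  simp only [h2]
  rw [← h2]
  simp only [Real.sq_sqrt (show (0 : ℝ) ≤ ((A : ℝ) ^ 2 + B ^ 2) / 2 by positivity)]
  generalize √(((A : ℝ) ^ 2 + B ^ 2) / 2) = l at *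
  rw [← h2]; ring

theorem net_of {A B : ℤ} (hB : 0 ≤ B) (hBA : B ≤ A) (hA : 0 < A) (hAe : A % 2 = 0)
    (hBe : B % 2 = 0) (S : Finset (ℤ × ℤ)) (W : Set ((ℤ × ℤ) × Ch)) (hW : W.Finite)
    (hS : ∀ z ∈ S, Black z) (h0 : ∀ w ∈ W, w.1 ∈ S ∧ w.2.F < 6)
    (h1 : ∀ z ∈ S, ∀ x y, Dia z x y → ∃ c, (z, c) ∈ W ∧ InD A B c x y)
    (h2 : ∀ w ∈ W, ∀ w' ∈ W, ∀ x y, Dia w.1 x y → Dia w'.1 x y → InD A B w.2 x y →
      InD A B w'.2 x y → psi A B w.2 x y = psi A B w'.2 x y)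
    (h3 : ∀ w ∈ W, ∀ w' ∈ W, w.2.F = w'.2.F → can A B w.2 w.1 = can A B w'.2 w'.1 → w = w')
    (h4 : ∀ F < 6, ∀ y, Black y → InQ A B y → ∃ w ∈ W, w.2.F = F ∧ can A B w.2 w.1 = y) :
    IsCubeNet (region (S.image toCell)) := by
  classical
  have hN := N_pos (B := B) hA
  set l := √(((A : ℝ) ^ 2 + B ^ 2) / 2) with hl
  have lpos : 0 < l := Real.sqrt_pos.2 (by positivity)
  let f : E2 → E3 := fun p =>
    if h : ∃ w ∈ W, p ∈ panel A B w then fold A B h.choose.2 p else 0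
  have hf : ∀ w ∈ W, ∀ p ∈ panel A B w, f p = fold A B w.2 p := by
    intro w hw p hp
    have h : ∃ w ∈ W, p ∈ panel A B w := ⟨w, hw, hp⟩
    simp only [f, dif_pos h]
    have := h2 _ h.choose_spec.1 w hw _ _ h.choose_spec.2.1 hp.1 h.choose_spec.2.2 hp.2
    simp only [fold, this]
  have hR : ∀ p, p ∈ region (S.image toCell) ↔ ∃ w ∈ W, p ∈ panel A B w := by
    intro p
    simp only [region, mem_iUnion, Finset.mem_image]
    constructor
    · rintro ⟨c, ⟨z, hz, rfl⟩, hp⟩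
      rw [mem_square (hS z hz)] at hp
      obtain ⟨c, hc, hd⟩ := h1 z hz _ _ hp
      exact ⟨_, hc, hp, hd⟩
    · rintro ⟨w, hw, hp⟩
      exact ⟨_, ⟨w.1, (h0 w hw).1, rfl⟩, (mem_square (hS _ (h0 w hw).1) p).2 hp.1⟩
  refine ⟨l, f, panel A B '' W, lpos, hW.image _, ?_, ?_, ?_, ?_⟩
  · ext p; rw [hR]; simp
  · rintro _ ⟨w, hw, rfl⟩
    refine ⟨panel_compact A B w, panel_convex A B w, fun p hp q hq => ?_⟩
    rw [hf w hw p hp, hf w hw q hq, fold_dist hA]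
  · intro p hp q hq hpq
    simp only [mem_iUnion, mem_image] at hp hq
    obtain ⟨_, ⟨w, hw, rfl⟩, hp⟩ := hp
    obtain ⟨_, ⟨w', hw', rfl⟩, hq⟩ := hq
    rw [hf w hw p (interior_subset hp), hf w' hw' q (interior_subset hq)] at hpq
    obtain ⟨d1, a1, a2, a3, a4⟩ := panel_interior hA hp
    obtain ⟨d2, b1, b2, b3, b4⟩ := panel_interior hA hq
    have e : psi A B w.2 (p 0 - p 1) (p 0 + p 1) = psi A B w'.2 (q 0 - q 1) (q 0 + q 1) := by
      ext k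
      have := congrArg (fun v : E3 => v k) hpq
      simp only [fold] at this
      exact mul_left_cancel₀ lpos.ne' this
    obtain ⟨r1, r2, r3, r4⟩ := rotN_memO w.2.r a1 a2 a3 a4
    obtain ⟨s1, s2, s3, s4⟩ := rotN_memO w'.2.r b1 b2 b3 b4
    obtain ⟨eF, eq⟩ := face_inj (h0 w hw).2 (h0 w' hw').2 r1 r2 r3 r4 s1 s2 s3 s4 e
    have c1 := (dia_can (B := B) hA w.2 w.1 _ _).2 d1
    have c2 := (dia_can (B := B) hA w'.2 w'.1 _ _).2 d2
    rw [eq] at c1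
    have := h3 w hw w' hw' eF (diaO_unique (black_can hAe hBe _ (hS _ (h0 w hw).1))
      (black_can hAe hBe _ (hS _ (h0 w' hw').1)) c1 c2)
    subst this
    have hd := fold_dist (B := B) hA w.2 p q
    rw [hpq, dist_self] at hd
    exact dist_eq_zero.1 hd.symm
  · ext v
    constructor
    · rintro ⟨p, hp, rfl⟩
      obtain ⟨w, hw, hp⟩ := (hR p).1 hp
      rw [hf w hw p hp]
      obtain ⟨a1, a2, a3, a4⟩ := hp.2
      obtain ⟨r1, r2, r3, r4⟩ := rotN_mem w.2.r a1 a2 a3 a4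
      obtain ⟨m1, k, m2⟩ := face_mem w.2.F r1 r2 r3 r4
      refine ⟨fun i => ⟨?_, ?_⟩, k, ?_⟩
      · exact mul_nonneg lpos.le (m1 i).1
      · exact mul_le_of_le_one_right lpos.le (m1 i).2
      · simp only [fold, psi]
        rcases m2 with m2 | m2
        · left; rw [m2, mul_zero]
        · right; rw [m2, mul_one]
    · rintro ⟨hv, k, hk⟩
      obtain ⟨F, hF, q, hq, hv'⟩ := face_surj (v := fun i => v i / l)
        (fun i => ⟨div_nonneg (hv i).1 lpos.le, (div_le_one lpos).2 (hv i).2⟩)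
        ⟨k, by rcases hk with hk | hk <;> simp [hk, lpos.ne']⟩
      obtain ⟨y, hy1, hy2, hy3⟩ := exists_inQ hB hBA hA hAe hBe hq
      obtain ⟨w, hw, hwF, hwc⟩ := h4 F hF y hy1 hy2
      obtain ⟨a, b, a1, a2, a3, a4, hr⟩ := rotN_surj w.2.r hq.1.1 hq.1.2 hq.2.1 hq.2.2
      let x0 : ℝ := A * a + B * b + cbx A B w.2
      let y0 : ℝ := B - B * a + A * b + cby A B w.2
      have ea : al A B w.2 x0 y0 = a := by
        simp only [al, x0, y0, cbx, cby]; push_cast; field_simp; ring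
      have eb : be A B w.2 x0 y0 = b := by
        simp only [be, x0, y0, cbx, cby]; push_cast; field_simp; ring
      let p : E2 := !₂[(x0 + y0) / 2, (y0 - x0) / 2]
      have p1 : p 0 - p 1 = x0 := by simp [p]; ring
      have p2 : p 0 + p 1 = y0 := by simp [p]; ring
      have hp : p ∈ panel A B w := by
        refine ⟨?_, ?_⟩
        · rw [p1, p2, (dia_can (B := B) hA w.2 w.1 x0 y0).1, ea, eb, hr, hwc]; exact hy3
        · rw [p1, p2]; simp only [InD, ea, eb]; exact ⟨a1, a2, a3, a4⟩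
      refine ⟨p, (hR p).2 ⟨w, hw, hp⟩, ?_⟩
      rw [hf w hw p hp]
      ext i
      simp only [fold, psi, p1, p2, ea, eb, hr, hwF, hv']
      rw [← hl]
      field_simp

theorem IsCubeNet.shift {R : Set E2} (h : IsCubeNet R) (v : E2) :
    IsCubeNet ((fun p => p + v) '' R) := by
  obtain ⟨l, f, T, hl, hT, hU, hP, hI, hS⟩ := h
  refine ⟨l, fun p => f (p - v), (fun S => (fun p => p + v) '' S) '' T, hl, hT.image _, ?_, ?_,
    ?_, ?_⟩
  · rw [← hU, sUnion_image, sUnion_eq_biUnion, image_iUnion₂]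
  · rintro _ ⟨S, hS, rfl⟩
    obtain ⟨h1, h2, h3⟩ := hP S hS
    refine ⟨h1.image (by fun_prop), ?_, ?_⟩
    · simpa [add_comm] using h2.translate v
    · rintro _ ⟨p, hp, rfl⟩ _ ⟨q, hq, rfl⟩
      simp [h3 p hp q hq]
  · intro p hp q hq hpq
    simp only [mem_iUnion, mem_image] at hp hq
    obtain ⟨_, ⟨S, hS, rfl⟩, hp⟩ := hp
    obtain ⟨_, ⟨S', hS', rfl⟩, hq⟩ := hq
    have e : ∀ S : Set E2, interior ((fun p => p + v) '' S) = (fun p => p + v) '' interior S :=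
      fun S => ((Homeomorph.addRight v).image_interior S).symm
    rw [e] at hp hq
    obtain ⟨p, hp, rfl⟩ := hp
    obtain ⟨q, hq, rfl⟩ := hq
    simp only [add_sub_cancel_right] at hpq
    rw [hI (mem_biUnion hS hp) (mem_biUnion hS' hq) hpq]
  · rw [image_image, ← hS]; simp

end Pool.Agent.P.MP_626a52_co
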