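import Pool.Agent.P.MP_626a52_co.Check

namespace Pool.Agent.P.MP_626a52_co

@[simp] theorem an_iff (a b : Bool) : an a b = true ↔ a = true ∧ b = true := by
  cases a <;> cases b <;> simp [an]
@[simp] theorem orr_iff (a b : Bool) : orr a b = true ↔ a = true ∨ b = true := by
  cases a <;> cases b <;> simp [orr]
@[simp] theorem nt_iff (a : Bool) : nt a = true ↔ ¬ a = true := by
  cases a <;> simp [nt]
theorem sel_eq {α : Type} (a : Bool) (x y : α) : sel a x y = if a = true then x else y := by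
  cases a <;> simp [sel]
@[simp] theorem force_eq {α : Type} (n : ℕ) (k : ℕ → α) : force n k = k n := by
  cases n <;> rfl
@[simp] theorem allL_iff {α : Type} (l : List α) (f : α → Bool) :
    allL l f = true ↔ ∀ a ∈ l, f a = true := by
  induction l with
  | nil => simp [allL]
  | cons a l ih =>
    have : allL (a :: l) f = an (f a) (allL l f) := rfl
    rw [this]; simp [ih]
@[simp] theorem anyL_iff {α : Type} (l : List α) (f : α → Bool) :
    anyL l f = true ↔ ∃ a ∈ l, f a = true := by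
  induction l with
  | nil => simp [anyL]
  | cons a l ih =>
    have : anyL (a :: l) f = orr (f a) (anyL l f) := rfl
    rw [this]; simp [ih]
@[simp] theorem pwB_iff {α : Type} (e : α → α → Bool) (l : List α) :
    pwB e l = true ↔ l.Pairwise fun a b => e a b = true := by
  induction l with
  | nil => simp [pwB]
  | cons a l ih =>
    have : pwB e (a :: l) = an (allL l (e a)) (pwB e l) := rfl
    rw [this]; simp [ih]
theorem foldL_eq {α β : Type} (f : α → β → β) (b : β) (l : List α) :
    foldL f b l = l.foldr f b := by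
  induction l with
  | nil => rfl
  | cons a l ih =>
    have : foldL f b (a :: l) = f a (foldL f b l) := rfl
    rw [this, ih]; rfl
theorem foldL_map {α β : Type} (f : α → β) (m : List β) (l : List α) :
    foldL (fun a t => f a :: t) m l = l.map f ++ m := by
  induction l with
  | nil => rfl
  | cons a l ih =>
    have : foldL (fun a t => f a :: t) m (a :: l) = f a :: foldL (fun a t => f a :: t) m l := rfl
    rw [this, ih]; rfl
theorem foldL_filter {α β : Type} (f : α → β) (c : α → Bool) (m : List β) (l : List α) :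
    foldL (fun a t => sel (c a) (f a :: t) t) m l = (l.filter c).map f ++ m := by
  induction l with
  | nil => rfl
  | cons a l ih =>
    have : foldL (fun a t => sel (c a) (f a :: t) t) m (a :: l) =
      sel (c a) (f a :: foldL (fun a t => sel (c a) (f a :: t) t) m l)
        (foldL (fun a t => sel (c a) (f a :: t) t) m l) := rfl
    rw [this, ih, sel_eq, List.filter_cons]
    split <;> simp
@[simp] theorem isNil_iff {α : Type} (l : List α) : isNil l = true ↔ l = [] := by
  cases l <;> simp [isNil]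

theorem beq_iff (a b : ℕ) : Nat.beq a b = true ↔ a = b := Nat.beq_eq ▸ Iff.rfl
theorem ble_iff (a b : ℕ) : Nat.ble a b = true ↔ a ≤ b := Nat.ble_eq ▸ Iff.rfl

theorem rmK_sound (a : ℕ) (l : List ℕ) : ∀ k : List ℕ → Bool, rmK a l k = true →
    ∃ m, l.Perm (a :: m) ∧ k m = true := by
  induction l with
  | nil => intro k h; simp [rmK] at h
  | cons b t ih =>
    intro k h
    have e : rmK a (b :: t) k = sel (Nat.beq a b) (k t) (rmK a t fun t' => k (b :: t')) := rfl
    rw [e, sel_eq] at h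
    split at h
    · next hb => rw [beq_iff] at hb; subst hb; exact ⟨t, List.Perm.refl _, h⟩
    · obtain ⟨m, h1, h2⟩ := ih _ h
      exact ⟨b :: m, (h1.cons b).trans (List.Perm.swap a b m), h2⟩

theorem permB_sound (l : List ℕ) : ∀ m, permB l m = true → l.Perm m := by
  induction l with
  | nil => intro m h; have : isNil m = true := h; simp at this; simp [this]
  | cons a l ih =>
    intro m h
    have e : permB (a :: l) m = rmK a m (permB l) := rfl
    rw [e] at h
    obtain ⟨m', h1, h2⟩ := rmK_sound a m _ h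
    exact ((ih m' h2).cons a).trans h1.symm

/-- well formed packed form -/
def WF (f : ℕ) : Prop := f % 16384 < 4096 ∧ f / 16384 % 128 < 64

theorem bit_zero {f m k : ℕ} (h : Nat.land f m = 0) (hm : m.testBit k = true) :
    f / 2 ^ k % 2 = 0 := by
  have h1 : (f &&& m).testBit k = false := by
    have : f &&& m = 0 := h
    rw [this]; exact Nat.zero_testBit k
  rw [Nat.testBit_and, hm, Bool.and_true, Nat.testBit_eq_decide_div_mod_eq] at h1
  simp only [decide_eq_false_iff_not] at h1
  omega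

theorem bit_one {f m k : ℕ} (h : Nat.land f m = m) (hm : m.testBit k = true) :
    f / 2 ^ k % 2 = 1 := by
  have h1 : (f &&& m).testBit k = true := by
    have : f &&& m = m := h
    rw [this]; exact hm
  rw [Nat.testBit_and, hm, Bool.and_true, Nat.testBit_eq_decide_div_mod_eq] at h1
  simpa using h1

theorem wf_sound {f : ℕ} (h : wf f = true) : WF f := by
  rw [wf, beq_iff] at h
  have h1 := bit_zero (k := 12) h (by decide)
  have h2 := bit_zero (k := 13) h (by decide)
  have h3 := bit_zero (k := 20) h (by decide)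
  unfold WF; omega

theorem wf_lor {f g : ℕ} (h : wf (Nat.lor f g) = true) : wf f = true ∧ wf g = true := by
  simp only [wf, beq_iff] at *
  have : (f ||| g) &&& 1060864 = 0 := h
  rw [Nat.and_or_distrib_right, Nat.or_eq_zero_iff] at this
  exact this

theorem wf4 {a b c d : ℕ} (h : wf (Nat.lor (Nat.lor a b) (Nat.lor c d)) = true) :
    WF a ∧ WF b ∧ WF c ∧ WF d :=
  ⟨wf_sound (wf_lor (wf_lor h).1).1, wf_sound (wf_lor (wf_lor h).1).2,
    wf_sound (wf_lor (wf_lor h).2).1, wf_sound (wf_lor (wf_lor h).2).2⟩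

/-- fieldwise comparison -/
def LE3 (k f g : ℕ) : Prop :=
  f % 16384 + k ≤ g % 16384 ∧ f / 16384 % 128 ≤ g / 16384 % 128 ∧ f / 2097152 ≤ g / 2097152

theorem le0_sound {f g : ℕ} (hf : WF f) (hg : WF g) (h : le0 f g = true) : LE3 0 f g := by
  rw [le0, beq_iff] at h
  have h2 := bit_one (k := 13) h (by decide)
  have h3 := bit_one (k := 20) h (by decide)
  simp only [Nat.add_eq, Nat.sub_eq] at h2 h3
  unfold WF at *; unfold LE3; omega

theorem le1_sound {f g : ℕ} (hf : WF f) (hg : WF g) (h : le1 f g = true) : LE3 1 f g := by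
  rw [le1, beq_iff] at h
  have h2 := bit_one (k := 13) h (by decide)
  have h3 := bit_one (k := 20) h (by decide)
  simp only [Nat.add_eq, Nat.sub_eq] at h2 h3
  unfold WF at *; unfold LE3; omega

theorem le2_sound {f g : ℕ} (hf : WF f) (hg : WF g) (h : le2 f g = true) : LE3 2 f g := by
  rw [le2, beq_iff] at h
  have h2 := bit_one (k := 13) h (by decide)
  have h3 := bit_one (k := 20) h (by decide)
  simp only [Nat.add_eq, Nat.sub_eq] at h2 h3
  unfold WF at *; unfold LE3; omega

theorem LE3.ev {k f g : ℕ} (h : LE3 k f g) (s t : ℕ) : ev s t f + k ≤ ev s t g := by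
  obtain ⟨h1, h2, h3⟩ := h
  have a := Nat.mul_le_mul_right s h2
  have b := Nat.mul_le_mul_right t h3
  unfold Pool.Agent.P.MP_626a52_co.ev
  zify at h1 a b
  push_cast at *
  linarith

theorem ev_fields (s t : ℕ) {f a b c : ℕ} (h1 : f % 16384 = a) (h2 : f / 16384 % 128 = b)
    (h3 : f / 2097152 = c) : ev s t f = a + 24 * (b * s + c * t) := by
  unfold ev; rw [h1, h2, h3]

theorem ev_add' (s t : ℕ) {f g : ℕ} (h1 : f % 16384 + g % 16384 < 16384)
    (h2 : f / 16384 % 128 + g / 16384 % 128 < 128) : ev s t (f + g) = ev s t f + ev s t g := by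
  rw [ev_fields s t (a := f % 16384 + g % 16384) (b := f / 16384 % 128 + g / 16384 % 128)
    (c := f / 2097152 + g / 2097152) (by omega) (by omega) (by omega)]
  unfold ev; push_cast; ring

theorem ev_add (s t : ℕ) {f g : ℕ} (hf : WF f) (hg : WF g) :
    ev s t (f + g) = ev s t f + ev s t g := by
  unfold WF at *; exact ev_add' s t (by omega) (by omega)

theorem ev_succ (s t : ℕ) {f : ℕ} (hf : WF f) : ev s t (f + 1) = ev s t f + 1 := by
  unfold WF at *; rw [ev_add' s t (by omega) (by omega)]; simp [ev]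

theorem ev_sub (s t : ℕ) {f g : ℕ} (h : LE3 0 g f) : ev s t (f - g) = ev s t f - ev s t g := by
  unfold LE3 at h
  have e : f = (f - g) + g := by omega
  have := ev_add' s t (f := f - g) (g := g) (by omega) (by omega)
  rw [← e] at this; linarith

theorem ev_par (s t f : ℕ) : ev s t f % 2 = (f % 2 : ℕ) := by
  unfold ev
  generalize ((f / 16384 % 128 : ℕ) : ℤ) * s + ((f / 2097152 : ℕ) : ℤ) * t = u
  omega

theorem ev_small (s t : ℕ) {f : ℕ} (h : f < 16384) : ev s t f = f := by
  rw [ev_fields s t (a := f) (b := 0) (c := 0) (by omega) (by omega) (by omega)]; simp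

/-- a small even form -/
def Tiny (A : ℕ) : Prop := ∃ a b c, a < 256 ∧ a % 2 = 0 ∧ b ≤ 1 ∧ c ≤ 1 ∧
  A = a + 16384 * b + 2097152 * c

theorem tiny_sound {A : ℕ} (h : tiny A = true) : Tiny A := by
  simp only [tiny, an_iff, beq_iff, ble_iff] at h
  obtain ⟨h, h'⟩ := h
  have b0 := bit_zero (k := 0) h (by decide)
  have b8 := bit_zero (k := 8) h (by decide)
  have b9 := bit_zero (k := 9) h (by decide)
  have b10 := bit_zero (k := 10) h (by decide)
  have b11 := bit_zero (k := 11) h (by decide)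
  have b12 := bit_zero (k := 12) h (by decide)
  have b13 := bit_zero (k := 13) h (by decide)
  have b15 := bit_zero (k := 15) h (by decide)
  have b16 := bit_zero (k := 16) h (by decide)
  have b17 := bit_zero (k := 17) h (by decide)
  have b18 := bit_zero (k := 18) h (by decide)
  have b19 := bit_zero (k := 19) h (by decide)
  have b20 := bit_zero (k := 20) h (by decide)
  refine ⟨A % 16384, A / 16384 % 128, A / 2097152, ?_, ?_, ?_, ?_, ?_⟩ <;> omega

theorem Tiny.wf {A : ℕ} (h : Tiny A) : WF A := by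
  obtain ⟨a, b, c, h1, h2, h3, h4, rfl⟩ := h; unfold WF; omega

theorem ev_lin (s t : ℕ) {A B i j : ℕ} (hA : Tiny A) (hB : Tiny B) (hi : i ≤ 15) (hj : j ≤ 15) :
    ev s t (i * A + j * B) = i * ev s t A + j * ev s t B := by
  obtain ⟨a, b, c, h1, h2, h3, h4, rfl⟩ := hA
  obtain ⟨a', b', c', g1, g2, g3, g4, rfl⟩ := hB
  have m1 : i * a ≤ 15 * 256 := Nat.mul_le_mul hi h1.le
  have m2 : j * a' ≤ 15 * 256 := Nat.mul_le_mul hj g1.le
  have m3 : i * b ≤ 15 * 1 := Nat.mul_le_mul hi h3
  have m4 : j * b' ≤ 15 * 1 := Nat.mul_le_mul hj g3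
  have e : i * (a + 16384 * b + 2097152 * c) + j * (a' + 16384 * b' + 2097152 * c') =
      (i * a + j * a') + 16384 * (i * b + j * b') + 2097152 * (i * c + j * c') := by ring
  rw [e, ev_fields s t (a := i * a + j * a') (b := i * b + j * b') (c := i * c + j * c')
    (by omega) (by omega) (by omega), ev_fields s t (a := a) (b := b) (c := c) (by omega)
    (by omega) (by omega), ev_fields s t (a := a') (b := b') (c := c') (by omega) (by omega)
    (by omega)]
  push_cast; ring

def Rc.WF (R : Rc) : Prop :=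
  Pool.Agent.P.MP_626a52_co.WF R.x0 ∧ Pool.Agent.P.MP_626a52_co.WF R.x1 ∧
    Pool.Agent.P.MP_626a52_co.WF R.y0 ∧ Pool.Agent.P.MP_626a52_co.WF R.y1

theorem valid_sound {R : Rc} (h : R.valid = true) :
    R.WF ∧ LE3 0 R.x0 R.x1 ∧ LE3 0 R.y0 R.y1 ∧ R.x1 < 268435456 := by
  simp only [Rc.valid, Rc.wf, an_iff, ble_iff] at h
  obtain ⟨h1, h2, h3, h4⟩ := h
  obtain ⟨a, b, c, d⟩ := wf4 h1
  exact ⟨⟨a, b, c, d⟩, le0_sound a b h2, le0_sound c d h3, by omega⟩

theorem sub_sound {R Q : Rc} (hR : R.WF) (hQ : Q.WF) (h : R.sub Q = true) :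
    LE3 0 Q.x0 R.x0 ∧ LE3 0 R.x1 Q.x1 ∧ LE3 0 Q.y0 R.y0 ∧ LE3 0 R.y1 Q.y1 := by
  simp only [Rc.sub, an_iff] at h
  obtain ⟨h1, h2, h3, h4⟩ := h
  exact ⟨le0_sound hQ.1 hR.1 h1, le0_sound hR.2.1 hQ.2.1 h2, le0_sound hQ.2.2.1 hR.2.2.1 h3,
    le0_sound hR.2.2.2 hQ.2.2.2 h4⟩

theorem sub_mem {R Q : Rc} (hR : R.WF) (hQ : Q.WF) (h : R.sub Q = true) {s t : ℕ} {z : ℤ × ℤ}
    (hz : R.mem s t z) : Q.mem s t z := by
  obtain ⟨h1, h2, h3, h4⟩ := sub_sound hR hQ h
  have a := h1.ev s t; have b := h2.ev s t; have c := h3.ev s t; have d := h4.ev s t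
  unfold Rc.mem at *; omega

def Hq (s t : ℕ) (z : ℤ × ℤ) (c : ℕ) : ℤ :=
  if ev s t (c % 268435456) ≤ z.1 ∧ ev s t (c / 268435456) ≤ z.2 then 1 else 0

theorem shl_eq (y k : ℕ) : Nat.shiftLeft y k = y * 2 ^ k := Nat.shiftLeft_eq y k

theorem cc_eq (x y : ℕ) : cc x y = x + y * 268435456 := by
  have h : (2 : ℕ) ^ 28 = 268435456 := by norm_num
  unfold cc
  rw [shl_eq, h, Nat.add_eq]

theorem Hq_cc (s t : ℕ) (z : ℤ × ℤ) {x y : ℕ} (hx : x < 268435456) :
    Hq s t z (cc x y) = if ev s t x ≤ z.1 ∧ ev s t y ≤ z.2 then 1 else 0 := by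
  have e := cc_eq x y
  have h1 : cc x y % 268435456 = x := by omega
  have h2 : cc x y / 268435456 = y := by omega
  rw [Hq, h1, h2]

def sP (s t : ℕ) (z : ℤ × ℤ) (l : List Rc) : ℤ :=
  (l.map fun R => Hq s t z (cc R.x0 R.y0) + Hq s t z (cc R.x1 R.y1)).sum
def sN (s t : ℕ) (z : ℤ × ℤ) (l : List Rc) : ℤ :=
  (l.map fun R => Hq s t z (cc R.x1 R.y0) + Hq s t z (cc R.x0 R.y1)).sum

theorem posK_sound (s t : ℕ) (z : ℤ × ℤ) (l : List Rc) : ∀ m k, posK l m k = true →
    ∃ m', k m' = true ∧ (m'.map (Hq s t z)).sum = sP s t z l + (m.map (Hq s t z)).sum := by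
  induction l with
  | nil => intro m k h; exact ⟨m, h, by simp [sP]⟩
  | cons R l ih =>
    intro m k h
    have e : posK (R :: l) m k = force (cc R.x0 R.y0) fun a => force (cc R.x1 R.y1) fun b =>
      posK l (a :: b :: m) k := rfl
    rw [e, force_eq, force_eq] at h
    obtain ⟨m', h1, h2⟩ := ih _ _ h
    refine ⟨m', h1, ?_⟩
    rw [h2]; simp [sP]; ring

theorem negK_sound (s t : ℕ) (z : ℤ × ℤ) (l : List Rc) : ∀ m k, negK l m k = true →
    ∃ m', k m' = true ∧ (m'.map (Hq s t z)).sum = sN s t z l + (m.map (Hq s t z)).sum := by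
  induction l with
  | nil => intro m k h; exact ⟨m, h, by simp [sN]⟩
  | cons R l ih =>
    intro m k h
    have e : negK (R :: l) m k = force (cc R.x1 R.y0) fun a => force (cc R.x0 R.y1) fun b =>
      negK l (a :: b :: m) k := rfl
    rw [e, force_eq, force_eq] at h
    obtain ⟨m', h1, h2⟩ := ih _ _ h
    refine ⟨m', h1, ?_⟩
    rw [h2]; simp [sN]; ring

def cnt (s t : ℕ) (z : ℤ × ℤ) (l : List Rc) : ℕ := l.countP fun R => decide (R.mem s t z)

theorem cnt_eq (s t : ℕ) (z : ℤ × ℤ) (l : List Rc) (h : ∀ R ∈ l, R.valid = true) :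
    (cnt s t z l : ℤ) = sP s t z l - sN s t z l := by
  induction l with
  | nil => simp [cnt, sP, sN]
  | cons R l ih =>
    have ih' := ih fun Q hQ => h Q (List.mem_cons_of_mem _ hQ)
    obtain ⟨-, h1, h2, h3⟩ := valid_sound (h R List.mem_cons_self)
    have h0 : R.x0 < 268435456 := by unfold LE3 at h1; omega
    have a := h1.ev s t
    have b := h2.ev s t
    simp only [cnt, sP, sN, List.countP_cons, List.map_cons, List.sum_cons, Hq_cc s t z h0,
      Hq_cc s t z h3, decide_eq_true_eq] at *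
    push_cast
    rw [ih']
    unfold Rc.mem
    split_ifs <;> omega

theorem eqB_sound {l m : List Rc} (h : eqB l m = true) (s t : ℕ) (z : ℤ × ℤ) :
    cnt s t z l = cnt s t z m := by
  simp only [eqB, an_iff, allL_iff] at h
  obtain ⟨h1, h2, h3⟩ := h
  obtain ⟨a, h3, ea⟩ := posK_sound s t z _ _ _ h3
  obtain ⟨a', h3, ea'⟩ := negK_sound s t z _ _ _ h3
  obtain ⟨b, h3, eb⟩ := posK_sound s t z _ _ _ h3
  obtain ⟨b', h3, eb'⟩ := negK_sound s t z _ _ _ h3
  have := ((permB_sound _ _ h3).map (Hq s t z)).sum_eq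
  have e1 := cnt_eq s t z l h1
  have e2 := cnt_eq s t z m h2
  simp only [List.map_nil, List.sum_nil] at ea eb
  omega

theorem eqB_valid {l m : List Rc} (h : eqB l m = true) :
    (∀ R ∈ l, R.valid = true) ∧ ∀ R ∈ m, R.valid = true := by
  simp only [eqB, an_iff, allL_iff] at h
  exact ⟨h.1, h.2.1⟩

end Pool.Agent.P.MP_626a52_co
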