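import Pool.Agent.P.MP_626a52_co.Sound1

namespace Pool.Agent.P.MP_626a52_co

theorem fld_eq (n k m : ℕ) : fld n k m = n / 2 ^ k % m := by
  have : Nat.shiftRight n k = n / 2 ^ k := Nat.shiftRight_eq_div_pow n k
  unfold fld; rw [this]; rfl

def P8 (n : ℕ) : Fin 3 → ℝ := ![((n % 2 : ℕ) : ℝ), ((n / 2 % 2 : ℕ) : ℝ), ((n / 4 % 2 : ℕ) : ℝ)]

def VV (c : Ch) (a b : ℕ) : Fin 3 → ℝ := face c.F (rotN c.r a b)

set_option exponentiation.threshold 300 in
theorem v12_spec {F r : ℕ} (hF : F ≤ 5) (hr : r ≤ 3) :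
    face F (rotN r 0 0) = P8 (v12 F r % 8) ∧ face F (rotN r 1 0) = P8 (v12 F r / 8 % 8) ∧
    face F (rotN r 0 1) = P8 (v12 F r / 64 % 8) ∧ face F (rotN r 1 1) = P8 (v12 F r / 512 % 8) := by
  interval_cases F <;> interval_cases r <;>
    simp only [v12, fld_eq, Nat.mul_eq, Nat.add_eq] <;> norm_num [face, rotN, P8]

def ChGood (W M : ℕ) (c : Ch) : Prop :=
  c.i ≤ 12 ∧ c.j ≤ 14 ∧ c.F ≤ 5 ∧ ∀ a ≤ 1, ∀ b ≤ 1,
    VV c a b = P8 (fld W (vpos (c.i + a) (c.j + b)) 8) ∧ fld M (vpos (c.i + a) (c.j + b)) 8 = 7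

theorem chOK_sound {W M : ℕ} {c : Ch} (h : chOK W M c = true) : ChGood W M c := by
  simp only [chOK, an_iff, ble_iff, beq_iff, force_eq, fld_eq, Nat.add_eq, Nat.mul_eq] at h
  obtain ⟨h1, h2, h3, h4, h5, h6, h7⟩ := h
  obtain ⟨v1, v2, v3, v4⟩ := v12_spec h3 h4
  refine ⟨h1, h2, h3, fun a ha b hb => ?_⟩
  have d3 : ∀ n k : ℕ, n / 2 ^ (k + 3) = n / 2 ^ k / 8 := fun n k => by
    rw [pow_add, Nat.div_div_eq_div_mul]; norm_num
  have p10 : vpos (c.i + 1) (c.j + 0) = vpos c.i c.j + 3 := by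
    simp only [vpos, Nat.add_eq, Nat.mul_eq]; omega
  have p01 : vpos (c.i + 0) (c.j + 1) = vpos c.i c.j + 48 := by
    simp only [vpos, Nat.add_eq, Nat.mul_eq]; omega
  have p11 : vpos (c.i + 1) (c.j + 1) = vpos c.i c.j + 48 + 3 := by
    simp only [vpos, Nat.add_eq, Nat.mul_eq]; omega
  simp only [fld_eq, VV]
  interval_cases a <;> interval_cases b
  · simp only [Nat.add_zero, Nat.cast_zero, v1]
    exact ⟨by congr 1; omega, by omega⟩
  · rw [p01]; simp only [Nat.cast_zero, Nat.cast_one, v3]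
    exact ⟨by congr 1; omega, by omega⟩
  · rw [p10, d3 W, d3 M]; simp only [Nat.cast_zero, Nat.cast_one, v2]
    exact ⟨by congr 1; omega, by omega⟩
  · rw [p11, d3 W (vpos c.i c.j + 48), d3 M (vpos c.i c.j + 48)]; simp only [Nat.cast_one, v4]
    exact ⟨by congr 1; omega, by omega⟩

theorem fld_bit (n k i : ℕ) : (fld n k 8).testBit i = (decide (i < 3) && n.testBit (k + i)) := by
  rw [fld_eq, show (8 : ℕ) = 2 ^ 3 by norm_num, Nat.testBit_mod_two_pow, Nat.testBit_div_two_pow,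
    add_comm]

theorem bit_of_seven {M k i : ℕ} (h : fld M k 8 = 7) (hi : i < 3) : M.testBit (k + i) = true := by
  have := fld_bit M k i
  rw [h] at this
  have h7 : (7 : ℕ).testBit i = true := by interval_cases i <;> decide
  simpa [h7, hi] using this

def Agr (W W' M M' : ℕ) : Prop :=
  ∀ k, fld M k 8 = 7 → fld M' k 8 = 7 → fld W k 8 = fld W' k 8

theorem agr_sound {W W' M M' : ℕ} (h : agr W W' M M' = true) : Agr W W' M M' := by
  intro k h1 h2
  rw [agr, beq_iff] at h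
  have h' : ((W ^^^ W') &&& M) &&& M' = 0 := h
  apply Nat.eq_of_testBit_eq
  intro i
  rw [fld_bit, fld_bit]
  by_cases hi : i < 3
  · have := congrArg (fun n => n.testBit (k + i)) h'
    simp only [Nat.testBit_and, Nat.testBit_xor, bit_of_seven h1 hi, bit_of_seven h2 hi,
      Nat.zero_testBit, Bool.and_true] at this
    simpa [hi] using this
  · simp [hi]

theorem land_seven {M M' k : ℕ} (h : Nat.land M M' = M) (h1 : fld M k 8 = 7) : fld M' k 8 = 7 := by
  have h' : M &&& M' = M := h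
  rw [← h1]
  apply Nat.eq_of_testBit_eq
  intro i
  rw [fld_bit, fld_bit]
  by_cases hi : i < 3
  · have := congrArg (fun n => n.testBit (k + i)) h'
    simp only [Nat.testBit_and, bit_of_seven h1 hi, Bool.true_and] at this
    simp [this, bit_of_seven h1 hi]
  · simp [hi]

theorem lin1 {g g' : ℕ → ℝ} {i i' : ℕ} {a a' : ℝ} (h0 : 0 ≤ a) (h1 : a ≤ 1) (h0' : 0 ≤ a')
    (h1' : a' ≤ 1) (e : a + i = a' + i')
    (H : ∀ u ≤ 1, ∀ u' ≤ 1, i + u = i' + u' → g u = g' u') :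
    (1 - a) * g 0 + a * g 1 = (1 - a') * g' 0 + a' * g' 1 := by
  have c1 : i ≤ i' + 1 := by
    have : (i : ℝ) ≤ ((i' + 1 : ℕ) : ℝ) := by push_cast; linarith
    exact_mod_cast this
  have c2 : i' ≤ i + 1 := by
    have : (i' : ℝ) ≤ ((i + 1 : ℕ) : ℝ) := by push_cast; linarith
    exact_mod_cast this
  rcases (by omega : i = i' ∨ i = i' + 1 ∨ i' = i + 1) with h | h | h
  · subst h
    have : a = a' := by linarith
    rw [H 0 (by omega) 0 (by omega) rfl, H 1 le_rfl 1 le_rfl rfl, this]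
  · subst h
    push_cast at e
    have ea : a = 0 := by linarith
    have eb : a' = 1 := by linarith
    rw [ea, eb, H 0 (by omega) 1 le_rfl (by omega)]; ring
  · subst h
    push_cast at e
    have ea : a = 1 := by linarith
    have eb : a' = 0 := by linarith
    rw [ea, eb, H 1 le_rfl 0 (by omega) (by omega)]; ring

theorem face_bil (c : Ch) (a b : ℝ) (k : Fin 3) :
    face c.F (rotN c.r a b) k = (1 - a) * ((1 - b) * VV c 0 0 k + b * VV c 0 1 k) +
      a * ((1 - b) * VV c 1 0 k + b * VV c 1 1 k) := by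
  unfold VV
  generalize c.F = F
  generalize c.r = r
  rcases F with _ | _ | _ | _ | _ | F <;> rcases r with _ | _ | _ | r <;> fin_cases k <;>
    simp [face, rotN] <;> ring

theorem psi_agree {A B : ℤ} {W W' M M' : ℕ} {c d : Ch} (hc : ChGood W M c) (hd : ChGood W' M' d)
    (h : Agr W W' M M') {x y : ℝ} (h1 : InD A B c x y) (h2 : InD A B d x y) :
    psi A B c x y = psi A B d x y := by
  obtain ⟨a1, a2, a3, a4⟩ := h1
  obtain ⟨b1, b2, b3, b4⟩ := h2
  ext k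
  simp only [psi, face_bil]
  refine lin1 (g := fun u => (1 - be A B c x y) * VV c u 0 k + be A B c x y * VV c u 1 k)
    (g' := fun u => (1 - be A B d x y) * VV d u 0 k + be A B d x y * VV d u 1 k)
    (i := c.i) (i' := d.i) a1 a2 b1 b2 (by simp only [al]; ring) fun u hu u' hu' e => ?_
  refine lin1 (g := fun v => VV c u v k) (g' := fun v => VV d u' v k)
    (i := c.j) (i' := d.j) a3 a4 b3 b4 (by simp only [be]; ring) fun v hv v' hv' e' => ?_
  obtain ⟨p1, p2⟩ := hc.2.2.2 u hu v hv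
  obtain ⟨q1, q2⟩ := hd.2.2.2 u' hu' v' hv'
  rw [← e, ← e'] at q1 q2
  rw [p1, q1, h _ p2 q2]

theorem psi_vertex {A B : ℤ} (hA : 0 < A) {W M : ℕ} {c : Ch} (hc : ChGood W M c) (I J : ℕ)
    {x y : ℝ} (hx : x = I * A + J * B) (hy : y = J * A + (13 - I) * B) (h1 : InD A B c x y) :
    psi A B c x y = P8 (fld W (vpos I J) 8) := by
  have hN := N_pos (B := B) hA
  have ea : al A B c x y = I - c.i := by
    simp only [al, hx, hy]; field_simp; ring
  have eb : be A B c x y = J - c.j := by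
    simp only [be, hx, hy]; field_simp; ring
  obtain ⟨a1, a2, a3, a4⟩ := h1
  rw [ea] at a1 a2
  rw [eb] at a3 a4
  have c1 : c.i ≤ I := by exact_mod_cast sub_nonneg.1 a1
  have c2 : I ≤ c.i + 1 := by
    have : (I : ℝ) ≤ ((c.i + 1 : ℕ) : ℝ) := by push_cast; linarith
    exact_mod_cast this
  have c3 : c.j ≤ J := by exact_mod_cast sub_nonneg.1 a3
  have c4 : J ≤ c.j + 1 := by
    have : (J : ℝ) ≤ ((c.j + 1 : ℕ) : ℝ) := by push_cast; linarith
    exact_mod_cast this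
  obtain ⟨u, rfl⟩ := Nat.exists_eq_add_of_le c1
  obtain ⟨v, rfl⟩ := Nat.exists_eq_add_of_le c3
  rw [← (hc.2.2.2 u (by omega) v (by omega)).1, psi, ea, eb, VV]
  push_cast
  congr 2 <;> ring

theorem dia_close {z z' : ℤ × ℤ} {x y : ℝ} (h : Dia z x y) (h' : Dia z' x y) :
    z.1 - z'.1 + (z.2 - z'.2) ≤ 2 ∧ z'.1 - z.1 + (z'.2 - z.2) ≤ 2 ∧
    z.1 - z'.1 + (z'.2 - z.2) ≤ 2 ∧ z'.1 - z.1 + (z.2 - z'.2) ≤ 2 := by
  obtain ⟨a1, a2, a3, a4⟩ := h
  obtain ⟨b1, b2, b3, b4⟩ := h'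
  have e1 : ((z.1 - z'.1 + (z.2 - z'.2) : ℤ) : ℝ) ≤ (2 : ℤ) := by push_cast; linarith
  have e2 : ((z'.1 - z.1 + (z'.2 - z.2) : ℤ) : ℝ) ≤ (2 : ℤ) := by push_cast; linarith
  have e3 : ((z.1 - z'.1 + (z'.2 - z.2) : ℤ) : ℝ) ≤ (2 : ℤ) := by push_cast; linarith
  have e4 : ((z'.1 - z.1 + (z.2 - z'.2) : ℤ) : ℝ) ≤ (2 : ℤ) := by push_cast; linarith
  exact ⟨by exact_mod_cast e1, by exact_mod_cast e2, by exact_mod_cast e3, by exact_mod_cast e4⟩

theorem dia_self (z : ℤ × ℤ) : Dia z z.1 z.2 := by simp [Dia]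

theorem wsep_sound {R Q : Rc} (hR : R.WF) (hQ : Q.WF) (h : wsep R Q = true) {s t : ℕ}
    {z : ℤ × ℤ} (h1 : R.mem s t z) (h2 : Q.mem s t z) : False := by
  simp only [wsep, g0, orr_iff] at h
  obtain ⟨a1, a2, a3, a4⟩ := hR
  obtain ⟨b1, b2, b3, b4⟩ := hQ
  unfold Rc.mem at *
  rcases h with (h | h) | h | h
  · have := (le0_sound a2 b1 h).ev s t; omega
  · have := (le0_sound b2 a1 h).ev s t; omega
  · have := (le0_sound a4 b3 h).ev s t; omega
  · have := (le0_sound b4 a3 h).ev s t; omega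

theorem g0_sound {a0 a1 b0 b1 : ℕ} (h0 : WF a0) (h1 : WF a1) (h2 : WF b0) (h3 : WF b1) (s t : ℕ)
    (h : g0 a0 a1 b0 b1 = true) : ev s t a1 ≤ ev s t b0 ∨ ev s t b1 ≤ ev s t a0 := by
  simp only [g0, orr_iff] at h
  rcases h with h | h
  · left; have := (le0_sound h1 h2 h).ev s t; omega
  · right; have := (le0_sound h3 h0 h).ev s t; omega
theorem g1_sound {a0 a1 b0 b1 : ℕ} (h0 : WF a0) (h1 : WF a1) (h2 : WF b0) (h3 : WF b1) (s t : ℕ)
    (h : g1 a0 a1 b0 b1 = true) : ev s t a1 + 1 ≤ ev s t b0 ∨ ev s t b1 + 1 ≤ ev s t a0 := by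
  simp only [g1, orr_iff] at h
  rcases h with h | h
  · left; have := (le1_sound h1 h2 h).ev s t; omega
  · right; have := (le1_sound h3 h0 h).ev s t; omega
theorem g2_sound {a0 a1 b0 b1 : ℕ} (h0 : WF a0) (h1 : WF a1) (h2 : WF b0) (h3 : WF b1) (s t : ℕ)
    (h : g2 a0 a1 b0 b1 = true) : ev s t a1 + 2 ≤ ev s t b0 ∨ ev s t b1 + 2 ≤ ev s t a0 := by
  simp only [g2, orr_iff] at h
  rcases h with h | h
  · left; have := (le2_sound h1 h2 h).ev s t; omega
  · right; have := (le2_sound h3 h0 h).ev s t; omega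

theorem sep_sound {R Q : Rc} (hR : R.WF) (hQ : Q.WF) (h : sep R Q = true) {s t : ℕ}
    {z z' : ℤ × ℤ} (h1 : R.mem s t z) (h2 : Q.mem s t z') {x y : ℝ} (d : Dia z x y)
    (d' : Dia z' x y) : False := by
  simp only [sep, orr_iff, an_iff] at h
  obtain ⟨a1, a2, a3, a4⟩ := hR
  obtain ⟨b1, b2, b3, b4⟩ := hQ
  have := dia_close d d'
  unfold Rc.mem at *
  rcases h with h | h | ⟨h, h'⟩ | ⟨h, h'⟩
  · have := g2_sound a1 a2 b1 b2 s t h; omega
  · have := g2_sound a3 a4 b3 b4 s t h; omega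
  · have := g0_sound a1 a2 b1 b2 s t h; have := g1_sound a3 a4 b3 b4 s t h'; omega
  · have := g1_sound a1 a2 b1 b2 s t h; have := g0_sound a3 a4 b3 b4 s t h'; omega

theorem vside_sound {U W : Rc} {vx vy : ℕ} (hU : U.WF) (hW : W.WF) (h1 : WF vx) (h2 : WF vy)
    (h3 : WF (vx + 1)) (h4 : WF (vy + 1)) (h : vside U W vx vy = true) {s t : ℕ}
    {z z' : ℤ × ℤ} (m : U.mem s t z) (m' : W.mem s t z') {x y : ℝ} (d : Dia z x y)
    (d' : Dia z' x y) : z ≠ z' ∧ x = ev s t vx ∧ y = ev s t vy := by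
  simp only [vside, orr_iff, an_iff, Nat.succ_eq_add_one] at h
  obtain ⟨a1, a2, a3, a4⟩ := hU
  obtain ⟨b1, b2, b3, b4⟩ := hW
  have hc := dia_close d d'
  have sx := ev_succ s t h1
  have sy := ev_succ s t h2
  obtain ⟨d1, d2, d3, d4⟩ := d
  obtain ⟨e1, e2, e3, e4⟩ := d'
  unfold Rc.mem at *
  rcases h with ⟨p, q, r⟩ | ⟨p, q, r⟩
  · have p := (le0_sound a2 h1 p).ev s t
    have q := (le1_sound h1 b1 q).ev s t
    have : z.1 = ev s t vx - 1 ∧ z'.1 = ev s t vx + 1 ∧ z.2 = ev s t vy ∧ z'.2 = ev s t vy := by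
      rcases r with ⟨r, r'⟩ | ⟨r, r'⟩
      · have r := (le0_sound a4 h4 r).ev s t
        have r' := (le0_sound h2 b3 r').ev s t
        omega
      · have r := (le0_sound b4 h4 r).ev s t
        have r' := (le0_sound h2 a3 r').ev s t
        omega
    obtain ⟨f1, f2, f3, f4⟩ := this
    refine ⟨fun h => by rw [h] at f1; omega, ?_⟩
    rw [f1, f3] at d1 d2 d3 d4
    rw [f2, f4] at e1 e2 e3 e4
    push_cast at *
    constructor <;> linarith
  · have p := (le0_sound a4 h2 p).ev s t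
    have q := (le1_sound h2 b3 q).ev s t
    have : z.2 = ev s t vy - 1 ∧ z'.2 = ev s t vy + 1 ∧ z.1 = ev s t vx ∧ z'.1 = ev s t vx := by
      rcases r with ⟨r, r'⟩ | ⟨r, r'⟩
      · have r := (le0_sound a2 h3 r).ev s t
        have r' := (le0_sound h1 b1 r').ev s t
        omega
      · have r := (le0_sound b2 h3 r).ev s t
        have r' := (le0_sound h1 a1 r').ev s t
        omega
    obtain ⟨f1, f2, f3, f4⟩ := this
    refine ⟨fun h => by rw [h] at f1; omega, ?_⟩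
    rw [f1, f3] at d1 d2 d3 d4
    rw [f2, f4] at e1 e2 e3 e4
    push_cast at *
    constructor <;> linarith

def IsCh (p : Pc) (c : Ch) : Prop := c = p.c1 ∨ c = p.c2

/-- the folding maps of two pieces agree where the pieces meet -/
def Con (A B s t : ℕ) (p q : Pc) : Prop :=
  ∀ z z', p.pl.mem s t z → q.pl.mem s t z' → ∀ c d, IsCh p c → IsCh q d → ∀ x y, Dia z x y →
    Dia z' x y → InD (ev s t A) (ev s t B) c x y → InD (ev s t A) (ev s t B) d x y →
    psi (ev s t A) (ev s t B) c x y = psi (ev s t A) (ev s t B) d x y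

def Dis (s t : ℕ) (R Q : Rc) : Prop := ∀ z, R.mem s t z → Q.mem s t z → False

def PG (p : Pc) : Prop := p.pl.WF ∧ ∀ c, IsCh p c → ChGood p.W p.M c

theorem Con.symm {A B s t : ℕ} {p q : Pc} (h : Con A B s t p q) : Con A B s t q p :=
  fun z z' m m' c d hc hd x y e e' i i' => (h z' z m' m d c hd hc x y e' e i' i).symm

theorem con_of_agr {A B s t : ℕ} {p q : Pc} (hp : PG p) (hq : PG q) (h : Agr p.W q.W p.M q.M) :
    Con A B s t p q :=
  fun _ _ _ _ c d hc hd _ _ _ _ i i' => psi_agree (hp.2 c hc) (hq.2 d hd) h i i'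

theorem vt1_sound {A B s t : ℕ} (hA : Tiny A) (hB : Tiny B) (hA0 : 0 < ev s t A) {p q : Pc}
    (hp : PG p) (hq : PG q) {I J : ℕ} (h : vt1 A B p q I J = true) :
    Con A B s t p q ∧ Dis s t p.pl q.pl := by
  simp only [vt1, vt2, an_iff, orr_iff, ble_iff, beq_iff, force_eq] at h
  obtain ⟨hI, hJ, hw, hs, he⟩ := h
  obtain ⟨w1, w2, w3, w4⟩ := wf4 hw
  have ex : ev s t (bxF A B I J) = I * ev s t A + J * ev s t B := ev_lin s t hA hB (by omega) hJ
  have ey : ev s t (byF A B 13 I J) = J * ev s t A + (13 - I) * ev s t B := by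
    have := ev_lin s t (i := J) (j := 13 - I) hA hB hJ (by omega)
    rw [Nat.cast_sub hI] at this
    exact this
  have key : ∀ z z', p.pl.mem s t z → q.pl.mem s t z' → ∀ x y, Dia z x y → Dia z' x y →
      z ≠ z' ∧ x = ev s t (bxF A B I J) ∧ y = ev s t (byF A B 13 I J) := by
    intro z z' m m' x y d d'
    rcases hs with hs | hs
    · exact vside_sound hp.1 hq.1 w1 w2 w3 w4 hs m m' d d'
    · obtain ⟨a, b⟩ := vside_sound hq.1 hp.1 w1 w2 w3 w4 hs m' m d' d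
      exact ⟨a.symm, b⟩
  refine ⟨fun z z' m m' c d hc hd x y e e' i i' => ?_,
    fun z m m' => (key z z m m' _ _ (dia_self z) (dia_self z)).1 rfl⟩
  obtain ⟨-, hx, hy⟩ := key z z' m m' x y e e'
  rw [ex] at hx
  rw [ey] at hy
  push_cast at hx hy
  rw [psi_vertex hA0 (hp.2 c hc) I J hx hy i, psi_vertex hA0 (hq.2 d hd) I J hx hy i', he]

theorem pairOK_sound {A B s t : ℕ} (hA : Tiny A) (hB : Tiny B) (hA0 : 0 < ev s t A) {p q : Pc}
    (hp : PG p) (hq : PG q) (h : pairOK A B p q = true) :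
    Con A B s t p q ∧ Dis s t p.pl q.pl := by
  simp only [pairOK, vt4, an_iff, orr_iff] at h
  rcases h with ⟨h, h'⟩ | h | (h | h | h | h) | h | h | h | h
  · exact ⟨con_of_agr hp hq (agr_sound h), fun z m m' => wsep_sound hp.1 hq.1 h' m m'⟩
  · exact ⟨fun z z' m m' _ _ _ _ x y e e' _ _ => (sep_sound hp.1 hq.1 h m m' e e').elim,
      fun z m m' => sep_sound hp.1 hq.1 h m m' (dia_self z) (dia_self z)⟩
  all_goals exact vt1_sound hA hB hA0 hp hq h

theorem cover_bound {A B : ℤ} (hB : 0 ≤ B) (hBA : B ≤ A) (hA : 0 < A) (c : Ch) {z : ℤ × ℤ}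
    {x y : ℝ} (d : Dia z x y) :
    let X := z.1 - cbx A B c
    let Y := z.2 - cby A B c
    (0 ≤ A * X - B * (Y - B) - A → 0 ≤ al A B c x y) ∧
    (∀ n : ℤ, A * X - B * (Y - B) + A ≤ n * (A ^ 2 + B ^ 2) → al A B c x y ≤ n) ∧
    (0 ≤ B * X + A * (Y - B) - A → 0 ≤ be A B c x y) ∧
    (∀ n : ℤ, B * X + A * (Y - B) + A ≤ n * (A ^ 2 + B ^ 2) → be A B c x y ≤ n) := by
  intro X Y
  have hN := N_pos (B := B) hA
  obtain ⟨d1, d2, d3, d4⟩ := d
  obtain ⟨l1, l2, l3, l4⟩ := lin_bound (A := A) (B := B) (by exact_mod_cast hB)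
    (by exact_mod_cast hBA) d1 d2 d3 d4
  have ea : al A B c x y * ((A : ℝ) ^ 2 + B ^ 2) =
      ((A * X - B * (Y - B) : ℤ) : ℝ) + (A * (x - z.1) - B * (y - z.2)) := by
    simp only [al, X, Y, cbx, cby]; push_cast; field_simp; ring
  have eb : be A B c x y * ((A : ℝ) ^ 2 + B ^ 2) =
      ((B * X + A * (Y - B) : ℤ) : ℝ) + (B * (x - z.1) + A * (y - z.2)) := by
    simp only [be, X, Y, cbx, cby]; push_cast; field_simp; ring
  generalize A * X - B * (Y - B) = U at *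
  generalize B * X + A * (Y - B) = V at *
  refine ⟨fun h => ?_, fun n h => ?_, fun h => ?_, fun n h => ?_⟩
  · have h' : (0 : ℝ) ≤ U - A := by exact_mod_cast h
    exact le_of_mul_le_mul_right (by linarith) hN
  · have h' : (U : ℝ) + A ≤ n * ((A : ℝ) ^ 2 + B ^ 2) := by exact_mod_cast h
    exact le_of_mul_le_mul_right (by linarith) hN
  · have h' : (0 : ℝ) ≤ V - A := by exact_mod_cast h
    exact le_of_mul_le_mul_right (by linarith) hN
  · have h' : (V : ℝ) + A ≤ n * ((A : ℝ) ^ 2 + B ^ 2) := by exact_mod_cast h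
    exact le_of_mul_le_mul_right (by linarith) hN

theorem cover_C {A B : ℤ} (hB : 0 ≤ B) (hBA : B ≤ A) (hA : 0 < A) (c : Ch) {z : ℤ × ℤ}
    {x y : ℝ} (d : Dia z x y) (h1 : B + 1 ≤ z.1 - cbx A B c) (h2 : z.1 - cbx A B c < A)
    (h3 : B + 1 ≤ z.2 - cby A B c) (h4 : z.2 - cby A B c < A) : InD A B c x y := by
  obtain ⟨k1, k2, k3, k4⟩ := cover_bound hB hBA hA c d
  generalize z.1 - cbx A B c = X at *
  generalize z.2 - cby A B c = Y at *
  refine ⟨k1 (by nlinarith), by exact_mod_cast k2 1 (by nlinarith), k3 (by nlinarith),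
    by exact_mod_cast k4 1 (by nlinarith)⟩

theorem cover_R {A B : ℤ} (hB : 0 ≤ B) (hBA : B ≤ A) (hA : 0 < A) (c c' : Ch) {z : ℤ × ℤ}
    {x y : ℝ} (d : Dia z x y) (h1 : A ≤ z.1 - cbx A B c) (h2 : z.1 - cbx A B c < A + B + 1)
    (h3 : 1 ≤ z.2 - cby A B c) (h4 : z.2 - cby A B c < A) (e1 : c'.i = c.i + 1)
    (e2 : c'.j = c.j) : InD A B c x y ∨ InD A B c' x y := by
  obtain ⟨k1, k2, k3, k4⟩ := cover_bound hB hBA hA c d
  generalize z.1 - cbx A B c = X at *
  generalize z.2 - cby A B c = Y at *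
  have a1 := k1 (by nlinarith)
  have a2 : al A B c x y ≤ 2 := by exact_mod_cast k2 2 (by nlinarith)
  have a3 := k3 (by nlinarith)
  have a4 : be A B c x y ≤ 1 := by exact_mod_cast k4 1 (by nlinarith)
  have ea : al A B c' x y = al A B c x y - 1 := by simp only [al, e1]; push_cast; ring
  have eb : be A B c' x y = be A B c x y := by simp only [be, e2]
  by_cases h : al A B c x y ≤ 1
  · exact Or.inl ⟨a1, h, a3, a4⟩
  · right; rw [InD, ea, eb]; exact ⟨by linarith, by linarith, a3, a4⟩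

theorem cover_U {A B : ℤ} (hB : 0 ≤ B) (hBA : B ≤ A) (hA : 0 < A) (c c' : Ch) {z : ℤ × ℤ}
    {x y : ℝ} (d : Dia z x y) (h1 : B + 1 ≤ z.1 - cbx A B c) (h2 : z.1 - cbx A B c < A + B)
    (h3 : A ≤ z.2 - cby A B c) (h4 : z.2 - cby A B c < A + B + 1) (e1 : c'.i = c.i)
    (e2 : c'.j = c.j + 1) : InD A B c x y ∨ InD A B c' x y := by
  obtain ⟨k1, k2, k3, k4⟩ := cover_bound hB hBA hA c d
  generalize z.1 - cbx A B c = X at *
  generalize z.2 - cby A B c = Y at *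
  have a1 := k1 (by nlinarith)
  have a2 : al A B c x y ≤ 1 := by exact_mod_cast k2 1 (by nlinarith)
  have a3 := k3 (by nlinarith)
  have a4 : be A B c x y ≤ 2 := by exact_mod_cast k4 2 (by nlinarith)
  have ea : al A B c' x y = al A B c x y := by simp only [al, e1]
  have eb : be A B c' x y = be A B c x y - 1 := by simp only [be, e2]; push_cast; ring
  by_cases h : be A B c x y ≤ 1
  · exact Or.inl ⟨a1, a2, a3, h⟩
  · right; rw [InD, ea, eb]; exact ⟨a1, a2, by linarith, by linarith⟩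

end Pool.Agent.P.MP_626a52_co
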