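import Pool.Agent.P.MP_626a52_co.Sound2
import Pool.Agent.P.MP_626a52_co.Net

namespace Pool.Agent.P.MP_626a52_co
open Relation

theorem LE3.trans {f g h : ℕ} (a : LE3 0 f g) (b : LE3 0 g h) : LE3 0 f h := by
  unfold LE3 at *; omega

theorem tiny_facts {A B : ℕ} (hA : Tiny A) (hB : Tiny B) :
    WF A ∧ WF B ∧ WF (B + 1) ∧ WF (A + B) ∧ WF (A + B + 1) ∧ WF 0 ∧ WF 1 := by
  obtain ⟨a, b, c, h1, h2, h3, h4, rfl⟩ := hA
  obtain ⟨a', b', c', g1, g2, g3, g4, rfl⟩ := hB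
  unfold WF; omega

theorem mem_incL {A B : ℕ} {p : Pc} {l : List (Ch × Rc)} {e : Ch × Rc} :
    e ∈ incL A B p l ↔ (e = (p.c1, p.rel) ∨ (p.ty ≠ 0 ∧ e = (p.c2, rel2 A B p))) ∨ e ∈ l := by
  simp only [incL, sel_eq, beq_iff]
  split_ifs with h <;> simp [h, or_assoc]

def Inc (A B : ℕ) (p : Pc) (e : Ch × Rc) : Prop :=
  e = (p.c1, p.rel) ∨ (p.ty ≠ 0 ∧ e = (p.c2, rel2 A B p))

theorem mem_allInc {A B : ℕ} {bl : List Blk} {e : Ch × Rc} :
    e ∈ allInc A B bl ↔ ∃ b ∈ bl, ∃ p ∈ b.ps, Inc A B p e := by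
  have h1 : ∀ (ps : List Pc) (l : List (Ch × Rc)),
      e ∈ ps.foldr (incL A B) l ↔ (∃ p ∈ ps, Inc A B p e) ∨ e ∈ l := by
    intro ps l
    induction ps with
    | nil => simp
    | cons p ps ih => simp only [List.foldr_cons, mem_incL, ih, Inc]; simp [or_assoc]
  simp only [allInc, foldL_eq]
  induction bl with
  | nil => simp
  | cons b bl ih => simp only [List.foldr_cons, h1, ih]; simp

structure PcP (A B s t : ℕ) (b : Blk) (p : Pc) : Prop where
  pg : PG p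
  sub : ∀ z, p.pl.mem s t z → b.R.mem s t z
  inc : ∀ e, Inc A B p e → IsCh p e.1 ∧ ∀ z : ℤ × ℤ, p.pl.mem s t z ↔
    e.2.mem s t (z.1 - cbx (ev s t A) (ev s t B) e.1, z.2 - cby (ev s t A) (ev s t B) e.1)
  cov : ∀ z, p.pl.mem s t z → ∀ x y, Dia z x y →
    ∃ e, Inc A B p e ∧ InD (ev s t A) (ev s t B) e.1 x y

theorem pcOK_sound {A B s t : ℕ} (hA : Tiny A) (hB : Tiny B) (hB0 : 0 ≤ ev s t B)
    (hBA : ev s t B ≤ ev s t A) (hA0 : 0 < ev s t A) {b : Blk} {p : Pc} (hb : b.R.WF)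
    (hp : p.pl.WF) (h : pcOK A B b p = true) : PcP A B s t b p := by
  simp only [pcOK, shiftEq, an_iff, force_eq, beq_iff, Nat.add_eq] at h
  obtain ⟨k1, k2, hv, hty, hsub, hw, e1, e2, e3, e4⟩ := h
  have g1 := chOK_sound k1
  have g2 := chOK_sound k2
  obtain ⟨⟨r1, r2, r3, r4⟩, l1, l2, -⟩ := valid_sound hv
  have wu := wf_sound (wf_lor hw).1
  have wv := wf_sound (wf_lor hw).2
  obtain ⟨wA, wB, wB1, wM, wM1, w0, w1⟩ := tiny_facts hA hB
  have eu : ev s t (bxF A B p.c1.i p.c1.j) = cbx (ev s t A) (ev s t B) p.c1 :=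
    ev_lin s t hA hB (by have := g1.1; omega) (by have := g1.2.1; omega)
  have ev' : ev s t (byF A B 12 p.c1.i p.c1.j) = cby (ev s t A) (ev s t B) p.c1 := by
    have := ev_lin s t (i := p.c1.j) (j := 12 - p.c1.i) hA hB (by have := g1.2.1; omega)
      (by omega)
    rw [Nat.cast_sub g1.1] at this
    exact this
  have m1 : ∀ z : ℤ × ℤ, p.pl.mem s t z ↔ p.rel.mem s t
      (z.1 - cbx (ev s t A) (ev s t B) p.c1, z.2 - cby (ev s t A) (ev s t B) p.c1) := by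
    intro z
    simp only [Rc.mem, e1, e2, e3, e4, ev_add s t r1 wu, ev_add s t r2 wu, ev_add s t r3 wv,
      ev_add s t r4 wv, eu, ev']
    omega
  have sB := ev_succ s t wB
  have sM := ev_add s t wA wB
  have sM1 := ev_succ s t wM
  have s1 : ev s t 1 = 1 := ev_small s t (by norm_num)
  have pg : PG p := ⟨hp, fun c hc => by rcases hc with rfl | rfl <;> assumption⟩
  have hs : ∀ z, p.pl.mem s t z → b.R.mem s t z := fun z hz => sub_mem hp hb hsub hz
  simp only [tyOK, sel_eq, beq_iff] at hty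
  split_ifs at hty with t0 t1
  · refine ⟨pg, hs, ?_, fun z hz x y d => ⟨_, Or.inl rfl, ?_⟩⟩
    · rintro e (rfl | ⟨h, -⟩)
      · exact ⟨Or.inl rfl, m1⟩
      · exact absurd t0 h
    · have := sub_mem (Q := regC A B) ⟨r1, r2, r3, r4⟩ ⟨wB1, wA, wB1, wA⟩ hty ((m1 z).1 hz)
      simp only [Rc.mem, regC, Nat.succ_eq_add_one, sB] at this
      exact cover_C hB0 hBA hA0 _ d this.1 this.2.1 this.2.2.1 this.2.2.2
  · simp only [an_iff, beq_iff, Nat.succ_eq_add_one] at hty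
    obtain ⟨hty, c1, c2⟩ := hty
    obtain ⟨q1, -, -, -⟩ := sub_sound (Q := regR A B) ⟨r1, r2, r3, r4⟩ ⟨wA, wM1, w1, wA⟩ hty
    refine ⟨pg, hs, ?_, fun z hz x y d => ?_⟩
    · rintro e (rfl | ⟨h, rfl⟩)
      · exact ⟨Or.inl rfl, m1⟩
      · refine ⟨Or.inr rfl, fun z => ?_⟩
        have a1 := ev_sub s t (f := p.rel.x0) (g := A) q1
        have a2 := ev_sub s t (f := p.rel.x1) (g := A) (q1.trans l1)
        have b1 : cbx (ev s t A) (ev s t B) p.c2 = cbx (ev s t A) (ev s t B) p.c1 + ev s t A := by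
          simp only [cbx, c1, c2]; push_cast; ring
        have b2 : cby (ev s t A) (ev s t B) p.c2 = cby (ev s t A) (ev s t B) p.c1 - ev s t B := by
          simp only [cby, c1, c2]; push_cast; ring
        rw [m1]
        simp only [rel2, sel_eq, beq_iff, t1, if_true, Rc.mem, Nat.sub_eq, Nat.add_eq, a1, a2,
          ev_add s t r3 wB, ev_add s t r4 wB, b1, b2]
        omega
    · have := sub_mem (Q := regR A B) ⟨r1, r2, r3, r4⟩ ⟨wA, wM1, w1, wA⟩ hty ((m1 z).1 hz)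
      simp only [Rc.mem, regR, Nat.succ_eq_add_one, Nat.add_eq, sM1, sM, s1] at this
      rcases cover_R hB0 hBA hA0 p.c1 p.c2 d this.1 this.2.1 this.2.2.1 this.2.2.2 c1 c2 with
        h | h
      · exact ⟨_, Or.inl rfl, h⟩
      · exact ⟨_, Or.inr ⟨t0, rfl⟩, h⟩
  · simp only [an_iff, beq_iff, Nat.succ_eq_add_one] at hty
    obtain ⟨hty, c1, c2⟩ := hty
    obtain ⟨q1, -, q3, -⟩ := sub_sound (Q := regU A B) ⟨r1, r2, r3, r4⟩ ⟨wB1, wM, wA, wM1⟩ hty
    have q0 : LE3 0 B p.rel.x0 := by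
      have : LE3 0 B (B + 1) := by unfold WF at wB; unfold LE3; omega
      exact this.trans q1
    refine ⟨pg, hs, ?_, fun z hz x y d => ?_⟩
    · rintro e (rfl | ⟨h, rfl⟩)
      · exact ⟨Or.inl rfl, m1⟩
      · refine ⟨Or.inr rfl, fun z => ?_⟩
        have a1 := ev_sub s t (f := p.rel.x0) (g := B) q0
        have a2 := ev_sub s t (f := p.rel.x1) (g := B) (q0.trans l1)
        have a3 := ev_sub s t (f := p.rel.y0) (g := A) q3
        have a4 := ev_sub s t (f := p.rel.y1) (g := A) (q3.trans l2)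
        have b1 : cbx (ev s t A) (ev s t B) p.c2 = cbx (ev s t A) (ev s t B) p.c1 + ev s t B := by
          simp only [cbx, c1, c2]; push_cast; ring
        have b2 : cby (ev s t A) (ev s t B) p.c2 = cby (ev s t A) (ev s t B) p.c1 + ev s t A := by
          simp only [cby, c1, c2]; push_cast; ring
        rw [m1]
        simp only [rel2, sel_eq, beq_iff, t1, if_false, Rc.mem, Nat.sub_eq, a1, a2, a3, a4, b1, b2]
        omega
    · have := sub_mem (Q := regU A B) ⟨r1, r2, r3, r4⟩ ⟨wB1, wM, wA, wM1⟩ hty ((m1 z).1 hz)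
      simp only [Rc.mem, regU, Nat.succ_eq_add_one, Nat.add_eq, sM1, sM, sB] at this
      rcases cover_U hB0 hBA hA0 p.c1 p.c2 d this.1 this.2.1 this.2.2.1 this.2.2.2 c1 c2 with
        h | h
      · exact ⟨_, Or.inl rfl, h⟩
      · exact ⟨_, Or.inr ⟨t0, rfl⟩, h⟩

theorem rotR_mem {M r s t : ℕ} {m : ℤ} {R : Rc} (hM : WF M) (em : ev s t M = m + 1)
    (h : inBox M R = true) (X Y : ℤ) :
    (rotR M r R).mem s t (rotZ m r X Y) ↔ R.mem s t (X, Y) := by
  simp only [inBox, an_iff] at h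
  obtain ⟨hv, h1, h2⟩ := h
  obtain ⟨⟨r1, r2, r3, r4⟩, l1, l2, -⟩ := valid_sound hv
  have k1 := le0_sound r2 hM h1
  have k2 := le0_sound r4 hM h2
  have a1 := ev_sub s t k1
  have a2 := ev_sub s t k2
  have a3 := ev_sub s t (l1.trans k1)
  have a4 := ev_sub s t (l2.trans k2)
  rcases r with _ | _ | _ | r
  · simp [rotR, sel_eq, rotZ]
  · simp only [rotR, sel_eq, rotZ, ble_iff, beq_iff, Rc.mem, Nat.sub_eq]
    norm_num [a1, a2, a3, a4]; omega
  · simp only [rotR, sel_eq, rotZ, ble_iff, beq_iff, Rc.mem, Nat.sub_eq]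
    norm_num [a1, a2, a3, a4]; omega
  · have e1 : ¬ (r + 1 + 1 + 1 ≤ 1) := by omega
    have e2 : ¬ (r + 1 + 1 + 1 = 2) := by omega
    simp only [rotR, sel_eq, rotZ, ble_iff, beq_iff, Rc.mem, Nat.sub_eq, e1, e2, if_false, a1, a3]
    omega

theorem rotZ_surj (m : ℤ) (r : ℕ) (y : ℤ × ℤ) :
    ∃ X Y, rotZ m r X Y = y ∧ (m % 2 = 0 → (X + Y) % 2 = (y.1 + y.2) % 2) := by
  rcases r with _ | _ | _ | r
  · exact ⟨y.1, y.2, rfl, fun _ => rfl⟩
  · exact ⟨y.2, m - y.1, by simp [rotZ], by omega⟩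
  · exact ⟨m - y.1, m - y.2, by simp [rotZ], by omega⟩
  · exact ⟨m - y.2, y.1, by simp [rotZ], by omega⟩

theorem rotZ_inj {m : ℤ} {r : ℕ} {X Y X' Y' : ℤ} (h : rotZ m r X Y = rotZ m r X' Y') :
    X = X' ∧ Y = Y' := by
  rcases r with _ | _ | _ | r <;> simp only [rotZ, Prod.mk.injEq] at h <;> omega

theorem unit_white {s t : ℕ} {w : ℕ × ℕ} (hv : (unitR w).valid = true)
    (hw : whiteB w.1 w.2 = true) {z : ℤ × ℤ} (hz : Black z) : ¬ (unitR w).mem s t z := by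
  obtain ⟨⟨r1, -, r3, -⟩, -⟩ := valid_sound hv
  have a := ev_succ s t (f := w.1) r1
  have b := ev_succ s t (f := w.2) r3
  have c := ev_par s t w.1
  have d := ev_par s t w.2
  simp only [whiteB, beq_iff, Nat.add_eq] at hw
  have hw' : (w.1 + w.2) % 2 = 0 := hw
  simp only [Rc.mem, unitR, Nat.succ_eq_add_one, a, b]
  unfold Black at hz
  omega

theorem cnt_append (s t : ℕ) (z : ℤ × ℤ) (l m : List Rc) :
    cnt s t z (l ++ m) = cnt s t z l + cnt s t z m := by simp [cnt]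

theorem cnt_zero {s t : ℕ} {z : ℤ × ℤ} {l : List Rc} (h : ∀ R ∈ l, ¬ R.mem s t z) :
    cnt s t z l = 0 := by
  simpa [cnt, List.countP_eq_zero] using h

theorem cnt_pos {s t : ℕ} {z : ℤ × ℤ} {l : List Rc} :
    0 < cnt s t z l ↔ ∃ R ∈ l, R.mem s t z := by
  simp [cnt, List.countP_pos_iff]

theorem countP_le_one_eq {α : Type} {p : α → Bool} {l : List α} (h : l.countP p ≤ 1) {a b : α}
    (ha : a ∈ l) (hb : b ∈ l) (pa : p a = true) (pb : p b = true) : a = b := by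
  rw [List.countP_eq_length_filter] at h
  have h1 : a ∈ l.filter p := List.mem_filter.2 ⟨ha, pa⟩
  have h2 : b ∈ l.filter p := List.mem_filter.2 ⟨hb, pb⟩
  match hl : l.filter p with
  | [] => rw [hl] at h1; simp at h1
  | [c] => rw [hl] at h1 h2; simp at h1 h2; rw [h1, h2]
  | c :: d :: m => rw [hl] at h; simp at h

theorem cnt_q {A B s t : ℕ} (hA : Tiny A) (hB : Tiny B) (hB0 : 0 ≤ ev s t B)
    (hBA : ev s t B ≤ ev s t A) (y : ℤ × ℤ) :
    cnt s t y (qRects A B) ≤ 1 ∧ (InQ (ev s t A) (ev s t B) y → 0 < cnt s t y (qRects A B)) := by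
  obtain ⟨wA, wB, wB1, wM, wM1, w0, w1⟩ := tiny_facts hA hB
  have sB := ev_succ s t wB
  have sM := ev_add s t wA wB
  have sM1 := ev_succ s t wM
  have s1 : ev s t 1 = 1 := ev_small s t (by norm_num)
  have s0 : ev s t 0 = 0 := ev_small s t (by norm_num)
  simp only [qRects, sel_eq, beq_iff, InQ]
  split_ifs with h
  · have : ev s t A = ev s t B := by rw [h]
    simp only [cnt, List.countP_cons, List.countP_nil, decide_eq_true_eq, Rc.mem, regR, regU, regL,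
      regD, Nat.succ_eq_add_one, Nat.add_eq, sB, sM1, sM, s1, s0]
    split_ifs <;> omega
  · simp only [cnt, List.countP_cons, List.countP_nil, decide_eq_true_eq, Rc.mem, regC, regR, regU,
      regL, regD, Nat.succ_eq_add_one, Nat.add_eq, sB, sM1, sM, s1, s0]
    split_ifs <;> omega

def Dg (S : Finset (ℤ × ℤ)) (z w : ℤ × ℤ) : Prop :=
  z ∈ S ∧ w ∈ S ∧ (z.1 = w.1 + 1 ∨ w.1 = z.1 + 1) ∧ (z.2 = w.2 + 1 ∨ w.2 = z.2 + 1)

theorem Dg.symm {S : Finset (ℤ × ℤ)} {z w : ℤ × ℤ} (h : Dg S z w) : Dg S w z :=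
  ⟨h.2.1, h.1, h.2.2.1.symm, h.2.2.2.symm⟩

theorem rtg_symm {S : Finset (ℤ × ℤ)} {z w : ℤ × ℤ} (h : ReflTransGen (Dg S) z w) :
    ReflTransGen (Dg S) w z := by
  induction h with
  | refl => exact ReflTransGen.refl
  | tail _ h ih => exact ReflTransGen.head h.symm ih

theorem rect_conn {S : Finset (ℤ × ℤ)} {x0 x1 y0 y1 : ℤ} (hx : x0 + 2 ≤ x1) (hy : y0 + 2 ≤ y1)
    (hS : ∀ z : ℤ × ℤ, Black z → x0 ≤ z.1 → z.1 < x1 → y0 ≤ z.2 → z.2 < y1 → z ∈ S) :
    ∀ (n : ℕ) (z : ℤ × ℤ), 2 * (z.2 - y0) + (z.1 - x0) ≤ n → Black z → x0 ≤ z.1 → z.1 < x1 →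
      y0 ≤ z.2 → z.2 < y1 → ReflTransGen (Dg S) z (x0 + 1 - (x0 + y0) % 2, y0) := by
  intro n
  induction n with
  | zero =>
    rintro ⟨x, y⟩ h hb h1 h2 h3 h4
    unfold Black at hb
    simp only at *
    have : (x, y) = (x0 + 1 - (x0 + y0) % 2, y0) := by ext <;> dsimp only <;> omega
    rw [this]
  | succ n ih =>
    rintro ⟨x, y⟩ h hb h1 h2 h3 h4
    have hz := hS _ hb h1 h2 h3 h4
    unfold Black at hb ih hS
    simp only at *
    by_cases c1 : y0 < y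
    · by_cases c2 : x0 < x
      · refine ReflTransGen.head (b := (x - 1, y - 1)) ⟨hz, hS _ ?_ ?_ ?_ ?_ ?_, ?_, ?_⟩
          (ih _ ?_ ?_ ?_ ?_ ?_ ?_) <;> dsimp only <;> omega
      · refine ReflTransGen.head (b := (x + 1, y - 1)) ⟨hz, hS _ ?_ ?_ ?_ ?_ ?_, ?_, ?_⟩
          (ih _ ?_ ?_ ?_ ?_ ?_ ?_) <;> dsimp only <;> omega
    · by_cases c2 : x0 + 2 ≤ x
      · have hm : (x - 1, y + 1) ∈ S := by
          refine hS _ ?_ ?_ ?_ ?_ ?_ <;> dsimp only <;> omega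
        refine ReflTransGen.head (b := (x - 1, y + 1)) ⟨hz, hm, ?_, ?_⟩
          (ReflTransGen.head (b := (x - 2, y)) ⟨hm, hS _ ?_ ?_ ?_ ?_ ?_, ?_, ?_⟩
          (ih _ ?_ ?_ ?_ ?_ ?_ ?_)) <;> dsimp only <;> omega
      · have : (x, y) = (x0 + 1 - (x0 + y0) % 2, y0) := by ext <;> dsimp only <;> omega
        rw [this]

theorem blk_conn {S : Finset (ℤ × ℤ)} {s t : ℕ} {R : Rc} (hR : R.WF) (h : sizeOK R = true)
    (hS : ∀ z, Black z → R.mem s t z → z ∈ S) {z w : ℤ × ℤ} (hz : Black z) (hw : Black w)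
    (mz : R.mem s t z) (mw : R.mem s t w) : ReflTransGen (Dg S) z w := by
  obtain ⟨r1, r2, r3, r4⟩ := hR
  simp only [sizeOK, orr_iff, an_iff, beq_iff, Nat.succ_eq_add_one] at h
  rcases h with ⟨h1, h2⟩ | ⟨h1, h2⟩
  · have a := (le2_sound r1 r2 h1).ev s t
    have b := (le2_sound r3 r4 h2).ev s t
    have k := rect_conn (S := S) a b fun z hz h1 h2 h3 h4 => hS z hz ⟨h1, h2, h3, h4⟩
    exact (k _ z (Int.self_le_toNat _) hz mz.1 mz.2.1 mz.2.2.1 mz.2.2.2).trans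
      (rtg_symm (k _ w (Int.self_le_toNat _) hw mw.1 mw.2.1 mw.2.2.1 mw.2.2.2))
  · have a := ev_succ s t r1
    have b := ev_succ s t r3
    simp only [Rc.mem, h1, h2, a, b] at mz mw
    have : z = w := by ext <;> omega
    rw [this]

theorem inR_sound {x y : ℕ} {R : Rc} (hx : WF x) (hy : WF y) (hR : R.WF) (h : inR x y R = true)
    (s t : ℕ) : R.mem s t (ev s t x, ev s t y) := by
  obtain ⟨r1, r2, r3, r4⟩ := hR
  simp only [inR, an_iff] at h
  obtain ⟨h1, h2, h3, h4⟩ := h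
  have a := (le0_sound r1 hx h1).ev s t
  have b := (le1_sound hx r2 h2).ev s t
  have c := (le0_sound r3 hy h3).ev s t
  have d := (le1_sound hy r4 h4).ev s t
  simp only [Rc.mem]; omega

theorem off1_sound {f g : ℕ} (hf : WF f) (hg : WF g) (h : off1 f g = true) (s t : ℕ) :
    ev s t f = ev s t g + 1 ∨ ev s t g = ev s t f + 1 := by
  simp only [off1, orr_iff, beq_iff, Nat.succ_eq_add_one] at h
  rcases h with h | h
  · left; rw [h, ev_succ s t hg]
  · right; rw [h, ev_succ s t hf]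

theorem connB_sound {S : Finset (ℤ × ℤ)} {s t : ℕ} (l : List Blk) : ∀ acc : List Blk,
    (∀ b, b ∈ acc ∨ b ∈ l → b.R.WF ∧ sizeOK b.R = true ∧ ∀ z, Black z → b.R.mem s t z → z ∈ S) →
    connB l acc = true → ∀ r, acc ≠ [] →
    (∀ b ∈ acc, ∀ z, Black z → b.R.mem s t z → ReflTransGen (Dg S) z r) →
    ∀ b ∈ l, ∀ z, Black z → b.R.mem s t z → ReflTransGen (Dg S) z r := by
  induction l with
  | nil => intro _ _ _ _ _ _ b hb; simp at hb
  | cons b l ih =>
    intro acc hg h r hne hacc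
    have e : connB (b :: l) acc = an (conn1 acc b) (connB l (b :: acc)) := rfl
    rw [e, an_iff] at h
    obtain ⟨h1, h2⟩ := h
    simp only [conn1, an_iff, orr_iff, nt_iff, isNil_iff, anyL_iff, whiteB, beq_iff,
      Nat.add_eq] at h1
    obtain ⟨hw, hin, hbl, hh⟩ := h1
    obtain ⟨w1, w2, w3, w4⟩ := wf4 hw
    obtain ⟨o1, o2, d, hd, hin'⟩ := hh.resolve_left hne
    obtain ⟨gb1, gb2, gb3⟩ := hg b (Or.inr List.mem_cons_self)
    obtain ⟨gd1, gd2, gd3⟩ := hg d (Or.inl hd)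
    have m1 := inR_sound w3 w4 gb1 hin s t
    have m2 := inR_sound w1 w2 gd1 hin' s t
    have p1 := off1_sound w1 w3 o1 s t
    have p2 := off1_sound w2 w4 o2 s t
    have hbl' : ¬ (b.bx + b.bY) % 2 = 0 := hbl
    have q1 := ev_par s t b.bx
    have q2 := ev_par s t b.bY
    have b1 : Black (ev s t b.bx, ev s t b.bY) := by unfold Black; simp only; omega
    have b2 : Black (ev s t b.ax, ev s t b.ay) := by unfold Black at *; simp only at *; omega
    have hb : ∀ z, Black z → b.R.mem s t z → ReflTransGen (Dg S) z r := fun z hz mz =>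
      (blk_conn gb1 gb2 gb3 hz b1 mz m1).trans (ReflTransGen.head
        ⟨gb3 _ b1 m1, gd3 _ b2 m2, p1.symm, p2.symm⟩ (hacc d hd _ b2 m2))
    have := ih (b :: acc) (fun c hc => hg c (by
      rcases hc with hc | hc
      · rcases List.mem_cons.1 hc with rfl | hc
        · exact Or.inr List.mem_cons_self
        · exact Or.inl hc
      · exact Or.inr (List.mem_cons_of_mem _ hc))) h2 r (by simp) (fun c hc => by
      rcases List.mem_cons.1 hc with rfl | hc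
      · exact hb
      · exact hacc c hc)
    intro c hc
    rcases List.mem_cons.1 hc with rfl | hc
    · exact hb
    · exact this c hc

theorem poly_of_conn {S : Finset (ℤ × ℤ)} (hS : ∀ z ∈ S, Black z) {r : ℤ × ℤ} (hr : r ∈ S)
    (h : ∀ z ∈ S, ReflTransGen (Dg S) z r) : IsPolyomino (S.image toCell) := by
  refine ⟨⟨_, Finset.mem_image_of_mem _ hr⟩, ?_⟩
  intro c hc d hd
  obtain ⟨z, hz, rfl⟩ := Finset.mem_image.1 hc
  obtain ⟨w, hw, rfl⟩ := Finset.mem_image.1 hd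
  refine ReflTransGen.lift (r := Dg S) toCell ?_ _ _ ((h z hz).trans (rtg_symm (h w hw)))
  rintro u v ⟨h1, h2, h3, h4⟩
  refine ⟨Finset.mem_image_of_mem _ h1, Finset.mem_image_of_mem _ h2, ?_⟩
  have a := hS u h1
  have b := hS v h2
  unfold Black at a b
  simp only [Adj, toCell, abs_eq_max_neg]
  omega

end Pool.Agent.P.MP_626a52_co
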