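import Pool.Agent.P.MP_626a52_co.Sound3

namespace Pool.Agent.P.MP_626a52_co
open Relation

structure BkP (A B s t : ℕ) (b : Blk) : Prop where
  valid : b.R.valid = true
  size : sizeOK b.R = true
  pc : ∀ p ∈ b.ps, PcP A B s t b p
  cov : ∀ z, Black z → b.R.mem s t z → ∃ p ∈ b.ps, p.pl.mem s t z
  con : ∀ p ∈ b.ps, ∀ q ∈ b.ps, Con A B s t p q
  cons : b.c = true → ∀ p ∈ b.ps, ∀ k, fld p.M k 8 = 7 →
    fld b.M k 8 = 7 ∧ fld p.W k 8 = fld b.W k 8

theorem pairwise_all {α : Type} {r : α → α → Prop} {l : List α} (hs : ∀ a b, r a b → r b a)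
    (hr : ∀ a ∈ l, r a a) (h : l.Pairwise r) : ∀ a ∈ l, ∀ b ∈ l, r a b := by
  induction l with
  | nil => simp
  | cons c l ih =>
    rw [List.pairwise_cons] at h
    intro a ha b hb
    rcases List.mem_cons.1 ha with rfl | ha' <;> rcases List.mem_cons.1 hb with rfl | hb'
    · exact hr _ ha
    · exact h.1 _ hb'
    · exact hs _ _ (h.1 _ ha')
    · exact ih (fun a ha => hr a (List.mem_cons_of_mem _ ha)) h.2 a ha' b hb'

theorem blkOK_sound {A B s t : ℕ} (hA : Tiny A) (hB : Tiny B) (hB0 : 0 ≤ ev s t B)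
    (hBA : ev s t B ≤ ev s t A) (hA0 : 0 < ev s t A) {b : Blk} (h : blkOK A B b = true) :
    BkP A B s t b := by
  simp only [blkOK, an_iff, allL_iff, foldL_map, List.append_nil, sel_eq] at h
  obtain ⟨h1, h2, h3, h4, h5⟩ := h
  obtain ⟨v1, v2⟩ := eqB_valid h3
  have vb := v2 b.R (by simp)
  have pc : ∀ p ∈ b.ps, PcP A B s t b p := fun p hp =>
    pcOK_sound hA hB hB0 hBA hA0 (valid_sound vb).1
      (valid_sound (v1 _ (List.mem_append_left _ (List.mem_map_of_mem hp)))).1 (h1 p hp)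
  have cons : b.c = true → ∀ p ∈ b.ps, ∀ k, fld p.M k 8 = 7 →
      fld b.M k 8 = 7 ∧ fld p.W k 8 = fld b.W k 8 := by
    intro hc p hp k hk
    rw [if_pos hc, allL_iff] at h5
    have := h5 p hp
    simp only [consB, an_iff, beq_iff] at this
    exact ⟨land_seven this.1 hk, agr_sound this.2 k hk hk⟩
  refine ⟨vb, h4, pc, fun z hz mz => ?_, ?_, cons⟩
  · have e := eqB_sound h3 s t z
    have e1 : 0 < cnt s t z [b.R] := cnt_pos.2 ⟨_, by simp, mz⟩
    rw [← e] at e1
    obtain ⟨R, hR, mR⟩ := cnt_pos.1 e1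
    rcases List.mem_append.1 hR with hR' | hR'
    · obtain ⟨p, hp, rfl⟩ := List.mem_map.1 hR'
      exact ⟨p, hp, mR⟩
    · obtain ⟨w, hw, rfl⟩ := List.mem_map.1 hR'
      exact absurd mR (unit_white (v1 _ hR) (h2 w hw) hz)
  · by_cases hc : b.c = true
    · intro p hp q hq
      refine con_of_agr (pc p hp).pg (pc q hq).pg fun k k1 k2 => ?_
      rw [(cons hc p hp k k1).2, (cons hc q hq k k2).2]
    · rw [if_neg hc, pwB_iff] at h5
      refine pairwise_all (fun _ _ h => h.symm)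
        (fun p hp => con_of_agr (pc p hp).pg (pc p hp).pg fun _ _ _ => rfl) ?_
      refine (List.Pairwise.and_mem.1 h5).imp ?_
      rintro p q ⟨hp, hq, h⟩
      exact (pairOK_sound hA hB hA0 (pc p hp).pg (pc q hq).pg h).1

def DisB (s t : ℕ) (R Q : Rc) : Prop := ∀ z, Black z → R.mem s t z → Q.mem s t z → False

theorem blkPair_sound {A B s t : ℕ} (hA : Tiny A) (hB : Tiny B) (hA0 : 0 < ev s t A) {b d : Blk}
    (hb : BkP A B s t b) (hd : BkP A B s t d) (h : blkPair A B b d = true) :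
    (∀ p ∈ b.ps, ∀ q ∈ d.ps, Con A B s t p q) ∧ DisB s t b.R d.R := by
  simp only [blkPair, an_iff, orr_iff, allL_iff] at h
  have wb := (valid_sound hb.valid).1
  have wd := (valid_sound hd.valid).1
  rcases h with ⟨c1, c2, h1, h2⟩ | h | h
  · refine ⟨fun p hp q hq => con_of_agr (hb.pc p hp).pg (hd.pc q hq).pg fun k k1 k2 => ?_,
      fun z _ m m' => wsep_sound wb wd h2 m m'⟩
    rw [(hb.cons c1 p hp k k1).2, (hd.cons c2 q hq k k2).2]
    exact agr_sound h1 k (hb.cons c1 p hp k k1).1 (hd.cons c2 q hq k k2).1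
  · exact ⟨fun p hp q hq z z' m m' _ _ _ _ x y e e' _ _ =>
      (sep_sound wb wd h ((hb.pc p hp).sub z m) ((hd.pc q hq).sub z' m') e e').elim,
      fun z _ m m' => sep_sound wb wd h m m' (dia_self z) (dia_self z)⟩
  · refine ⟨fun p hp q hq => (pairOK_sound hA hB hA0 (hb.pc p hp).pg (hd.pc q hq).pg
      (h p hp q hq)).1, fun z hz m m' => ?_⟩
    obtain ⟨p, hp, mp⟩ := hb.cov z hz m
    obtain ⟨q, hq, mq⟩ := hd.cov z hz m'
    exact (pairOK_sound hA hB hA0 (hb.pc p hp).pg (hd.pc q hq).pg (h p hp q hq)).2 z mp mq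

theorem ev_nonneg (s t f : ℕ) : 0 ≤ ev s t f := by unfold ev; positivity

theorem Tiny.even {A : ℕ} (h : Tiny A) (s t : ℕ) : ev s t A % 2 = 0 := by
  obtain ⟨a, b, c, h1, h2, h3, h4, rfl⟩ := h
  rw [ev_par]; omega

theorem netCheck_sound {A B : ℕ} {bl : List Blk} {fw : List (ℕ × ℕ × ℕ)}
    (h : netCheck A B bl fw = true) (s t : ℕ) {S : Finset (ℤ × ℤ)}
    (hS : ∀ z, z ∈ S ↔ Black z ∧ ∃ b ∈ bl, b.R.mem s t z) :
    IsPolyomino (S.image toCell) ∧ IsCubeNet (region (S.image toCell)) ∧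
      (bl.Pairwise fun b d => DisB s t b.R d.R) ∧ ∀ b ∈ bl, b.R.valid = true := by
  simp only [netCheck, an_iff, allL_iff, pwB_iff, nt_iff, isNil_iff] at h
  obtain ⟨tA, tB, hle, hpos, hbl, hpw, hfw, hbox, hface, hne, hconn⟩ := h
  have hA := tiny_sound tA
  have hB := tiny_sound tB
  obtain ⟨wA, wB, wB1, wM, wM1, w0, w1⟩ := tiny_facts hA hB
  have hB0 := ev_nonneg s t B
  have hBA : ev s t B ≤ ev s t A := by have := (le0_sound wB wA hle).ev s t; omega
  have hA0 : 0 < ev s t A := by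
    have := (le1_sound w0 wA hpos).ev s t
    have := ev_nonneg s t 0
    omega
  have bk : ∀ b ∈ bl, BkP A B s t b := fun b hb => blkOK_sound hA hB hB0 hBA hA0 (hbl b hb)
  have pw : bl.Pairwise fun b d =>
      (∀ p ∈ b.ps, ∀ q ∈ d.ps, Con A B s t p q) ∧ DisB s t b.R d.R := by
    refine (List.Pairwise.and_mem.1 hpw).imp ?_
    rintro b d ⟨hb, hd, h⟩
    exact blkPair_sound hA hB hA0 (bk b hb) (bk d hd) h
  have con : ∀ b ∈ bl, ∀ d ∈ bl, ∀ p ∈ b.ps, ∀ q ∈ d.ps, Con A B s t p q :=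
    pairwise_all (r := fun b d : Blk => ∀ p ∈ b.ps, ∀ q ∈ d.ps, Con A B s t p q)
      (fun b d h q hq p hp => (h p hp q hq).symm) (fun b hb => (bk b hb).con) (pw.imp And.left)
  have eM : ev s t (A + B + 1) = ev s t A + ev s t B + 1 := by
    rw [ev_succ s t wM, ev_add s t wA wB]
  have hfc : ∀ F < 6, ∀ y, Black y → ((allInc A B bl).filter fun e => Nat.beq e.1.F F).countP
      (fun e => decide ((rotR (A + B + 1) e.1.r e.2).mem s t y)) = cnt s t y (qRects A B) := by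
    intro F hF y hy
    have h := hface F (by simp; omega)
    have hv := (eqB_valid h).1
    rw [← eqB_sound h s t y]
    simp only [faceL, foldL_filter, List.append_nil, Nat.succ_eq_add_one, Nat.add_eq] at hv ⊢
    rw [cnt_append, cnt_zero (l := List.map _ (List.filter _ fw)), cnt, List.countP_map]
    · rfl
    · intro R hR
      obtain ⟨w, hw, rfl⟩ := List.mem_map.1 hR
      exact unit_white (hv _ (List.mem_append_right _ hR)) (hfw w (List.mem_filter.1 hw).1) hy
  have hcan : ∀ b ∈ bl, ∀ p ∈ b.ps, ∀ e, Inc A B p e → ∀ z, p.pl.mem s t z ↔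
      (rotR (A + B + 1) e.1.r e.2).mem s t (can (ev s t A) (ev s t B) e.1 z) := by
    intro b hb p hp e he z
    rw [(((bk b hb).pc p hp).inc e he).2 z, can]
    exact (rotR_mem wM1 eM (hbox e (mem_allInc.2 ⟨b, hb, p, hp, he⟩)) _ _).symm
  refine ⟨?_, ?_, pw.imp And.right, fun b hb => (bk b hb).valid⟩
  · obtain ⟨b, l, rfl⟩ := List.exists_cons_of_ne_nil hne
    have e : connB (b :: l) [] = an (conn1 [] b) (connB l [b]) := rfl
    rw [e, an_iff] at hconn
    obtain ⟨h1, h2⟩ := hconn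
    simp only [conn1, an_iff, nt_iff, whiteB, beq_iff, Nat.add_eq] at h1
    obtain ⟨hw, hin, hbl', -⟩ := h1
    obtain ⟨-, -, w3, w4⟩ := wf4 hw
    have hg : ∀ c ∈ b :: l, c.R.WF ∧ sizeOK c.R = true ∧ ∀ z, Black z → c.R.mem s t z → z ∈ S :=
      fun c hc => ⟨(valid_sound (bk c hc).valid).1, (bk c hc).size,
        fun z hz mz => (hS z).2 ⟨hz, c, hc, mz⟩⟩
    obtain ⟨g1, g2, g3⟩ := hg b List.mem_cons_self
    have m1 := inR_sound w3 w4 g1 hin s t
    have hbl'' : ¬ (b.bx + b.bY) % 2 = 0 := hbl'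
    have q1 := ev_par s t b.bx
    have q2 := ev_par s t b.bY
    have b1 : Black (ev s t b.bx, ev s t b.bY) := by unfold Black; simp only; omega
    have hb : ∀ z, Black z → b.R.mem s t z → ReflTransGen (Dg S) z (ev s t b.bx, ev s t b.bY) :=
      fun z hz mz => blk_conn g1 g2 g3 hz b1 mz m1
    have := connB_sound (S := S) (s := s) (t := t) l [b] (fun c hc => hg c (by simpa using hc)) h2
      _ (by simp) (fun c hc => by rw [List.mem_singleton.1 hc]; exact hb)
    refine poly_of_conn (fun z hz => ((hS z).1 hz).1) (g3 _ b1 m1) fun z hz => ?_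
    obtain ⟨hz, c, hc, mz⟩ := (hS z).1 hz
    rcases List.mem_cons.1 hc with rfl | hc
    · exact hb z hz mz
    · exact this c hc z hz mz
  · refine net_of hB0 hBA hA0 (hA.even s t) (hB.even s t) S
      {w | Black w.1 ∧ ∃ b ∈ bl, ∃ p ∈ b.ps, p.pl.mem s t w.1 ∧ ∃ R, Inc A B p (w.2, R)} ?_
      (fun z hz => ((hS z).1 hz).1) ?_ ?_ ?_ ?_ ?_
    · refine (S.finite_toSet.prod (List.finite_toSet ((allInc A B bl).map Prod.fst))).subset ?_
      rintro w ⟨hz, b, hb, p, hp, m, R, hR⟩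
      exact ⟨(hS _).2 ⟨hz, b, hb, ((bk b hb).pc p hp).sub _ m⟩,
        List.mem_map.2 ⟨_, mem_allInc.2 ⟨b, hb, p, hp, hR⟩, rfl⟩⟩
    · rintro w ⟨hz, b, hb, p, hp, m, R, hR⟩
      refine ⟨(hS _).2 ⟨hz, b, hb, ((bk b hb).pc p hp).sub _ m⟩, ?_⟩
      have := (((bk b hb).pc p hp).pg.2 _ (((bk b hb).pc p hp).inc _ hR).1).2.2.1
      simp only at this
      omega
    · intro z hz x y d
      obtain ⟨hz, b, hb, m⟩ := (hS z).1 hz
      obtain ⟨p, hp, m⟩ := (bk b hb).cov z hz m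
      obtain ⟨e, he, hd⟩ := ((bk b hb).pc p hp).cov z m x y d
      exact ⟨e.1, ⟨hz, b, hb, p, hp, m, e.2, he⟩, hd⟩
    · rintro w ⟨-, b, hb, p, hp, m, R, hR⟩ w' ⟨-, d, hd, q, hq, m', R', hR'⟩ x y e e' i i'
      exact con b hb d hd p hp q hq _ _ m m' _ _ (((bk b hb).pc p hp).inc _ hR).1
        (((bk d hd).pc q hq).inc _ hR').1 x y e e' i i'
    · rintro w ⟨hz, b, hb, p, hp, m, R, hR⟩ w' ⟨-, d, hd, q, hq, m', R', hR'⟩ eF ec
      have hF : w.2.F < 6 := by
        have := (((bk b hb).pc p hp).pg.2 _ (((bk b hb).pc p hp).inc _ hR).1).2.2.1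
        simp only at this
        omega
      have hy := black_can (hA.even s t) (hB.even s t) w.2 hz
      have c1 := (hcan b hb p hp _ hR _).1 m
      have c2 := (hcan d hd q hq _ hR' _).1 m'
      have hc := hfc _ hF _ hy
      have := countP_le_one_eq (hc ▸ (cnt_q hA hB hB0 hBA _).1) (a := (w.2, R)) (b := (w'.2, R'))
        (List.mem_filter.2 ⟨mem_allInc.2 ⟨b, hb, p, hp, hR⟩, (beq_iff _ _).2 rfl⟩)
        (List.mem_filter.2 ⟨mem_allInc.2 ⟨d, hd, q, hq, hR'⟩, (beq_iff _ _).2 eF.symm⟩)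
        (decide_eq_true c1) (decide_eq_true (by rw [ec]; exact c2))
      have e2 : w.2 = w'.2 := (Prod.mk.inj this).1
      rw [can, can, ← e2] at ec
      have := rotZ_inj ec
      refine Prod.ext (Prod.ext ?_ ?_) e2 <;> omega
    · intro F hF y hy hq
      have hc := hfc F hF y hy
      have := (cnt_q hA hB hB0 hBA y).2 hq
      rw [← hc, List.countP_pos_iff] at this
      obtain ⟨e, he, me⟩ := this
      obtain ⟨he, eF⟩ := List.mem_filter.1 he
      obtain ⟨b, hb, p, hp, hi⟩ := mem_allInc.1 he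
      obtain ⟨X, Y, hr, hpar⟩ := rotZ_surj (ev s t A + ev s t B) e.1.r y
      have ec : can (ev s t A) (ev s t B) e.1 (X + cbx (ev s t A) (ev s t B) e.1,
          Y + cby (ev s t A) (ev s t B) e.1) = y := by simp [can, hr]
      refine ⟨((X + cbx (ev s t A) (ev s t B) e.1, Y + cby (ev s t A) (ev s t B) e.1), e.1),
        ⟨?_, b, hb, p, hp, ?_, e.2, hi⟩, (beq_iff _ _).1 eF, ec⟩
      · have ea := hA.even s t
        have eb := hB.even s t
        have := hpar (by omega)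
        obtain ⟨a, ha⟩ : ∃ a, ev s t A = 2 * a := ⟨ev s t A / 2, by omega⟩
        obtain ⟨b, hb⟩ : ∃ b, ev s t B = 2 * b := ⟨ev s t B / 2, by omega⟩
        have h1 : cbx (ev s t A) (ev s t B) e.1 = 2 * (e.1.i * a + e.1.j * b) := by
          rw [ha, hb]; unfold cbx; ring
        have h2 : cby (ev s t A) (ev s t B) e.1 = 2 * (e.1.j * a + (12 - e.1.i) * b) := by
          rw [ha, hb]; unfold cby; ring
        unfold Black at *
        simp only [h1, h2]
        omega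
      · rw [hcan b hb p hp e hi, ec]
        exact of_decide_eq_true me

end Pool.Agent.P.MP_626a52_co
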