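import Pool.Agent.P.MP_626a52_co.Tile

namespace Pool.Agent.P.MP_626a52_co

/-- the black cells of a rectangle are tiled -/
def Til (x0 x1 y0 y1 : ℤ) : Prop := ∃ TL : List (Finset (ℤ × ℤ)), (∀ T ∈ TL, GoodT T) ∧
  ∀ z, Black z → cntT z TL = if x0 ≤ z.1 ∧ z.1 < x1 ∧ y0 ≤ z.2 ∧ z.2 < y1 then 1 else 0

theorem Til.hcat {x0 x1 x2 y0 y1 : ℤ} (h : Til x0 x1 y0 y1) (h' : Til x1 x2 y0 y1) (a : x0 ≤ x1)
    (b : x1 ≤ x2) : Til x0 x2 y0 y1 := by
  obtain ⟨l, g, e⟩ := h
  obtain ⟨m, g', e'⟩ := h'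
  refine ⟨l ++ m, fun T hT => (List.mem_append.1 hT).elim (g T) (g' T), fun z hz => ?_⟩
  rw [cntT_append, e z hz, e' z hz]
  split_ifs <;> omega

theorem Til.vcat {x0 x1 y0 y1 y2 : ℤ} (h : Til x0 x1 y0 y1) (h' : Til x0 x1 y1 y2) (a : y0 ≤ y1)
    (b : y1 ≤ y2) : Til x0 x1 y0 y2 := by
  obtain ⟨l, g, e⟩ := h
  obtain ⟨m, g', e'⟩ := h'
  refine ⟨l ++ m, fun T hT => (List.mem_append.1 hT).elim (g T) (g' T), fun z hz => ?_⟩
  rw [cntT_append, e z hz, e' z hz]
  split_ifs <;> omega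

theorem Til.shift {x0 x1 y0 y1 : ℤ} (h : Til x0 x1 y0 y1) {u v : ℤ} (huv : (u + v) % 2 = 0) :
    Til (x0 + u) (x1 + u) (y0 + v) (y1 + v) := by
  obtain ⟨l, g, e⟩ := h
  refine ⟨l.map (shiftT u v), fun T hT => ?_, fun z hz => ?_⟩
  · obtain ⟨T', h', rfl⟩ := List.mem_map.1 hT
    exact (g T' h').shift huv
  · rw [cntT_shift, e _ (by unfold Black at *; simp only; omega)]
    simp only
    split_ifs <;> omega

def TP (p q par : ℕ) : Prop := ∀ x y : ℤ, (x + y) % 2 = par → Til x (x + p) y (y + q)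

def Tld (s t : ℕ) (l : List Rc) : Prop := ∃ TL : List (Finset (ℤ × ℤ)), (∀ T ∈ TL, GoodT T) ∧
  ∀ z, Black z → cntT z TL = cnt s t z l

theorem Tld.append {s t : ℕ} {l m : List Rc} (h : Tld s t l) (h' : Tld s t m) :
    Tld s t (l ++ m) := by
  obtain ⟨a, g, e⟩ := h
  obtain ⟨b, g', e'⟩ := h'
  refine ⟨a ++ b, fun T hT => (List.mem_append.1 hT).elim (g T) (g' T), fun z hz => ?_⟩
  rw [cntT_append, cnt_append, e z hz, e' z hz]

theorem cnt_one (s t : ℕ) (z : ℤ × ℤ) (R : Rc) : cnt s t z [R] =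
    if ev s t R.x0 ≤ z.1 ∧ z.1 < ev s t R.x1 ∧ ev s t R.y0 ≤ z.2 ∧ z.2 < ev s t R.y1 then 1
    else 0 := by
  simp only [cnt, List.countP_cons, List.countP_nil, zero_add, decide_eq_true_eq]
  rfl

theorem tld_one {s t : ℕ} {R : Rc} :
    Tld s t [R] ↔ Til (ev s t R.x0) (ev s t R.x1) (ev s t R.y0) (ev s t R.y1) := by
  simp only [Tld, Til, cnt_one]

theorem tld_all {s t : ℕ} {l : List Rc} (h : ∀ R ∈ l, Tld s t [R]) : Tld s t l := by
  induction l with
  | nil => exact ⟨[], by simp, fun _ _ => rfl⟩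
  | cons R l ih =>
    exact (h R List.mem_cons_self).append (ih fun Q hQ => h Q (List.mem_cons_of_mem _ hQ))

theorem tld_expl {ox oy : ℕ} {l : List Rc} {tiles : List ℕ} (h : expl ox oy l tiles = true)
    {s t : ℕ} (hc : ∀ z, Black z → cnt s t z l ≤ 1) : Tld s t l := by
  obtain ⟨TL, g, -, e⟩ := expl_sound h s t
  exact ⟨TL, g, fun z hz => e z hz (hc z hz)⟩

noncomputable section

def idx (p q par : ℕ) : ℕ := Nat.add (Nat.mul (Nat.add (Nat.mul p 64) q) 2) par

def has (m p q par : ℕ) : Bool :=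
  an (Nat.ble p 63) (an (Nat.ble q 63) (an (Nat.ble par 1) (Nat.beq (fld m (idx p q par) 2) 1)))

def look0 (m : ℕ) (R : Rc) : Bool :=
  an (Nat.ble R.x1 4000) (an (Nat.ble R.y1 4000) (an (Nat.ble R.x0 R.x1) (an (Nat.ble R.y0 R.y1)
    (has m (Nat.sub R.x1 R.x0) (Nat.sub R.y1 R.y0) (Nat.mod (Nat.add R.x0 R.y0) 2)))))

def rcK {α : Type} (n : ℕ) (k : Rc → α) : α :=
  force (fld n 0 128) fun a => force (fld n 7 128) fun b => force (fld n 14 128) fun c =>
    force (fld n 21 128) fun d => k ⟨a, b, c, d⟩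

structure TE where
  w : ℕ
  subs : List ℕ
  ex : List ℕ
  ts : List ℕ

def app {α : Type} (l m : List α) : List α := foldL (fun a t => a :: t) m l

def teOK (m : ℕ) (e : TE) : Bool :=
  rcK e.w fun W => mapK rcK e.subs fun l => mapK rcK e.ex fun l' =>
    an (Nat.beq W.y0 0) (an (Nat.ble W.x0 1) (an (Nat.ble W.x1 63) (an (Nat.ble W.y1 63)
      (an (allL l (look0 m)) (an (eqB (app l l') [W]) (expl 0 0 l' e.ts))))))

def teBit (e : TE) : ℕ :=
  Nat.shiftLeft 1 (idx (Nat.sub (fld e.w 7 128) (fld e.w 0 128)) (fld e.w 21 128) (fld e.w 0 128))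

def tabChk (l : List TE) (m1 : ℕ) : ℕ → Bool :=
  List.rec (fun m => Nat.beq m m1)
    (fun e _ ih m => an (teOK m e) (force (Nat.lor m (teBit e)) ih)) l

def red (p : ℕ) : ℕ := sel (Nat.ble p 48) p (Nat.add 25 (Nat.mod (Nat.sub p 25) 24))

def goodB (p : ℕ) : Bool := orr (Nat.beq p 3) (Nat.ble 6 p)

def look (m : ℕ) (R : Rc) : Bool :=
  force (Nat.sub R.x1 R.x0) fun w => force (Nat.sub R.y1 R.y0) fun h =>
  force (red (Nat.mod w 16384)) fun p => force (red (Nat.mod h 16384)) fun q =>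
    an (has m p q (Nat.mod (Nat.add R.x0 R.y0) 2))
      (orr (an (goodB p) (goodB q)) (an (Nat.beq w p) (Nat.beq h q)))

def strips (m : ℕ) : Bool :=
  allL [3, 7, 8] fun q => allL [0, 1] fun par => an (has m 24 q par) (has m q 24 par)

end

def TabOK (m : ℕ) : Prop := ∀ p q par, has m p q par = true → TP p q par

theorem has_iff {m p q par : ℕ} : has m p q par = true ↔
    p ≤ 63 ∧ q ≤ 63 ∧ par ≤ 1 ∧ m.testBit ((p * 64 + q) * 2 + par) = true := by
  simp only [has, an_iff, ble_iff, beq_iff, fld_eq, idx, Nat.add_eq, Nat.mul_eq,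
    Nat.testBit_eq_decide_div_mod_eq, decide_eq_true_eq]

theorem app_eq {α : Type} (l m : List α) : app l m = l ++ m := by
  simpa [app] using foldL_map (fun a : α => a) m l

theorem look0_sound {m : ℕ} (hm : TabOK m) {R : Rc} (h : look0 m R = true) (s t : ℕ) :
    Tld s t [R] := by
  simp only [look0, an_iff, ble_iff, Nat.sub_eq, Nat.add_eq] at h
  obtain ⟨h1, h2, h3, h4, h5⟩ := h
  have := hm _ _ _ h5 R.x0 R.y0 (by
    have : (R.x0 + R.y0).mod 2 = (R.x0 + R.y0) % 2 := rfl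
    omega)
  rw [tld_one, ev_small s t (by omega), ev_small s t (by omega), ev_small s t (by omega),
    ev_small s t (by omega)]
  convert this using 1 <;> omega

theorem rcK_eq {α : Type} (n : ℕ) (k : Rc → α) :
    rcK n k = k ⟨fld n 0 128, fld n 7 128, fld n 14 128, fld n 21 128⟩ := by
  simp only [rcK, force_eq]

theorem teOK_sound {m : ℕ} (hm : TabOK m) {e : TE} (h : teOK m e = true) :
    fld e.w 0 128 ≤ 1 ∧ fld e.w 7 128 ≤ 63 ∧ fld e.w 21 128 ≤ 63 ∧
      TP (fld e.w 7 128 - fld e.w 0 128) (fld e.w 21 128) (fld e.w 0 128) := by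
  obtain ⟨l, hl⟩ := mapK_ex (γ := Bool) (f := rcK) (fun a => ⟨_, rcK_eq a⟩) e.subs
  obtain ⟨l', hl'⟩ := mapK_ex (γ := Bool) (f := rcK) (fun a => ⟨_, rcK_eq a⟩) e.ex
  rw [teOK, rcK_eq, hl, hl'] at h
  simp only [an_iff, beq_iff, ble_iff, allL_iff, app_eq] at h
  obtain ⟨h1, h2, h3, h4, h5, h6, h7⟩ := h
  refine ⟨h2, h3, h4, fun x y hxy => ?_⟩
  have hv := (valid_sound ((eqB_valid h6).2 _ List.mem_cons_self)).2.1
  have c := eqB_sound h6 0 0
  have t1 : Tld 0 0 l := tld_all fun R hR => look0_sound hm (h5 R hR) 0 0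
  have t2 : Tld 0 0 l' := tld_expl h7 fun z _ => by
    have := c z
    rw [cnt_append, cnt_one] at this
    split_ifs at this <;> omega
  obtain ⟨TL, g, e'⟩ := t1.append t2
  have t3 := tld_one.1 ⟨TL, g, fun z hz => (e' z hz).trans (c z)⟩
  simp only [LE3] at hv
  simp only [h1] at t3
  rw [ev_small 0 0 (by omega), ev_small 0 0 (by omega), ev_small 0 0 (by omega),
    ev_small 0 0 (by omega)] at t3
  have := t3.shift (u := x - fld e.w 0 128) (v := y) (by omega)
  convert this using 1 <;> omega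

theorem tabChk_sound (l : List TE) (m1 : ℕ) : ∀ m, TabOK m → tabChk l m1 m = true → TabOK m1 := by
  induction l with
  | nil => intro m hm h; exact (beq_iff _ _).1 h ▸ hm
  | cons e l ih =>
    intro m hm h
    have e' : tabChk (e :: l) m1 m = an (teOK m e) (force (Nat.lor m (teBit e)) (tabChk l m1)) :=
      rfl
    rw [e', an_iff, force_eq] at h
    refine ih _ (fun p q par hp => ?_) h.2
    obtain ⟨a, b, c, d⟩ := teOK_sound hm h.1
    obtain ⟨p1, p2, p3, p4⟩ := has_iff.1 hp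
    have : (Nat.lor m (teBit e)).testBit ((p * 64 + q) * 2 + par) =
      (m.testBit ((p * 64 + q) * 2 + par) || (teBit e).testBit ((p * 64 + q) * 2 + par)) :=
      Nat.testBit_or _ _ _
    rw [this, Bool.or_eq_true] at p4
    rcases p4 with p4 | p4
    · exact hm p q par (has_iff.2 ⟨p1, p2, p3, p4⟩)
    · simp only [teBit, shl_eq, one_mul, Nat.testBit_two_pow, decide_eq_true_eq, idx, Nat.add_eq,
        Nat.mul_eq, Nat.sub_eq] at p4
      have e1 : p = fld e.w 7 128 - fld e.w 0 128 := by omega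
      have e2 : q = fld e.w 21 128 := by omega
      have e3 : par = fld e.w 0 128 := by omega
      rw [e1, e2, e3]; exact d

theorem tabOK_zero : TabOK 0 := fun p q par h => by simp [has_iff] at h

theorem strips_sound {m : ℕ} (hm : TabOK m) (h : strips m = true) (q : ℕ) (hq : q = 3 ∨ 6 ≤ q) :
    ∀ x y : ℤ, Til x (x + 24) y (y + q) ∧ Til x (x + q) y (y + 24) := by
  simp only [strips, allL_iff, an_iff] at h
  have base : ∀ q ∈ [3, 7, 8], ∀ x y : ℤ,
      Til x (x + 24) y (y + (q : ℕ)) ∧ Til x (x + (q : ℕ)) y (y + 24) := by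
    intro q hq x y
    rcases Int.emod_two_eq_zero_or_one (x + y) with c | c
    · exact ⟨hm _ _ _ (h q hq 0 (by simp)).1 x y c, hm _ _ _ (h q hq 0 (by simp)).2 x y c⟩
    · exact ⟨hm _ _ _ (h q hq 1 (by simp)).1 x y c, hm _ _ _ (h q hq 1 (by simp)).2 x y c⟩
  induction q using Nat.strong_induction_on with
  | _ q ih =>
    by_cases c : q ∈ [3, 7, 8]
    · exact base q c
    simp only [List.mem_cons, List.not_mem_nil, or_false] at c
    obtain ⟨r, rfl⟩ : ∃ r, q = r + 3 := ⟨q - 3, by omega⟩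
    intro x y
    have a := ih r (by omega) (by omega)
    have e : ∀ u : ℤ, u + (r + 3 : ℕ) = u + r + (3 : ℕ) := fun u => by push_cast; ring
    rw [e, e]
    exact ⟨(a x y).1.vcat (base 3 (by simp) x (y + r)).1 (by omega) (by omega),
      (a x y).2.hcat (base 3 (by simp) (x + r) y).2 (by omega) (by omega)⟩

theorem inflate {m : ℕ} (hm : TabOK m) (h : strips m = true) {p q : ℕ} (hp : p = 3 ∨ 6 ≤ p)
    (hq : q = 3 ∨ 6 ≤ q) {x y : ℤ} (h0 : Til x (x + p) y (y + q)) (k l : ℕ) :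
    Til x (x + p + 24 * k) y (y + q + 24 * l) := by
  have h1 : Til x (x + p + 24 * k) y (y + q) := by
    induction k with
    | zero => simpa using h0
    | succ k ih =>
      have := ih.hcat (strips_sound hm h q hq (x + p + 24 * k) y).1 (by omega) (by omega)
      convert this using 1; push_cast; ring
  induction l with
  | zero => simpa using h1
  | succ l ih =>
    have a := (strips_sound hm h (p + 24 * k) (by omega) x (y + q + 24 * l)).2
    have e : x + (p + 24 * k : ℕ) = x + p + 24 * k := by push_cast; ring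
    rw [e] at a
    have := ih.vcat a (by omega) (by omega)
    convert this using 1; push_cast; ring

theorem red_spec (p : ℕ) : ∃ k, p = red p + 24 * k := by
  rw [red, sel_eq]
  split_ifs with c
  · exact ⟨0, rfl⟩
  · rw [ble_iff] at c
    have : Nat.add 25 (Nat.mod (Nat.sub p 25) 24) = 25 + (p - 25) % 24 := rfl
    exact ⟨(p - 25) / 24, by omega⟩

theorem ev_red (s t w : ℕ) : ∃ k : ℕ, ev s t w = red (w % 16384) + 24 * k := by
  obtain ⟨k, hk⟩ := red_spec (w % 16384)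
  refine ⟨k + (w / 16384 % 128 * s + w / 2097152 * t), ?_⟩
  rw [ev]
  conv_lhs => rw [hk]
  push_cast; ring

theorem look_sound {m : ℕ} (hm : TabOK m) (hs : strips m = true) {R : Rc} (hv : R.valid = true)
    (h : look m R = true) (s t : ℕ) : Tld s t [R] := by
  simp only [look, force_eq, an_iff, orr_iff, goodB, beq_iff, ble_iff, Nat.sub_eq,
    Nat.add_eq] at h
  obtain ⟨h1, h2⟩ := h
  obtain ⟨-, v1, v2, -⟩ := valid_sound hv
  have a := ev_sub s t v1
  have b := ev_sub s t v2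
  have c := hm _ _ _ h1 (ev s t R.x0) (ev s t R.y0) (by
    have : (R.x0 + R.y0).mod 2 = (R.x0 + R.y0) % 2 := rfl
    have := ev_par s t R.x0
    have := ev_par s t R.y0
    omega)
  have p63 := has_iff.1 h1
  rw [tld_one]
  rcases h2 with h2 | h2
  · obtain ⟨k, hk⟩ := ev_red s t (R.x1 - R.x0)
    obtain ⟨l, hl⟩ := ev_red s t (R.y1 - R.y0)
    have := inflate hm hs h2.1 h2.2 c k l
    have e1 : ∀ w : ℕ, w.mod 16384 = w % 16384 := fun _ => rfl
    rw [e1, e1] at this
    convert this using 1 <;> omega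
  · rw [← h2.1, ← h2.2] at c p63
    rw [ev_small s t (by omega)] at a b
    convert c using 1 <;> omega

end Pool.Agent.P.MP_626a52_co
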