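import Pool.Agent.P.MP_626a52_co.Sound4
import Pool.Agent.P.MP_626a52_co.Decode

namespace Pool.Agent.P.MP_626a52_co
open Relation

def GoodT (T : Finset (ℤ × ℤ)) : Prop :=
  (∀ z ∈ T, Black z) ∧ T.card = 12 ∧ IsPolyomino (T.image toCell) ∧
    IsCubeNet (region (T.image toCell))

def shiftT (u v : ℤ) (T : Finset (ℤ × ℤ)) : Finset (ℤ × ℤ) := T.image fun z => (z.1 + u, z.2 + v)

theorem mem_shiftT {u v : ℤ} {T : Finset (ℤ × ℤ)} {z : ℤ × ℤ} :
    z ∈ shiftT u v T ↔ (z.1 - u, z.2 - v) ∈ T := by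
  simp only [shiftT, Finset.mem_image]
  constructor
  · rintro ⟨w, hw, rfl⟩; simpa using hw
  · intro h; exact ⟨_, h, by simp⟩

theorem IsPolyomino.shift {P : Finset (ℤ × ℤ)} (h : IsPolyomino P) (u v : ℤ) :
    IsPolyomino (shiftT u v P) := by
  refine ⟨h.1.image _, fun c hc d hd => ?_⟩
  obtain ⟨z, hz, rfl⟩ := Finset.mem_image.1 hc
  obtain ⟨w, hw, rfl⟩ := Finset.mem_image.1 hd
  refine ReflTransGen.lift (r := fun x y => x ∈ P ∧ y ∈ P ∧ Adj x y)
    (fun z : ℤ × ℤ => (z.1 + u, z.2 + v)) ?_ _ _ (h.2 z hz w hw)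
  rintro a b ⟨h1, h2, h3⟩
  refine ⟨Finset.mem_image_of_mem _ h1, Finset.mem_image_of_mem _ h2, ?_⟩
  simpa [Adj] using h3

theorem region_shift (P : Finset (ℤ × ℤ)) (u v : ℤ) :
    region (shiftT u v P) = (fun p => p + (!₂[(u : ℝ), (v : ℝ)] : E2)) '' region P := by
  ext p
  simp only [region, Set.mem_iUnion, Set.mem_image, mem_shiftT, square, Set.mem_ofPred_eq]
  constructor
  · rintro ⟨c, hc, h1, h2, h3, h4⟩
    refine ⟨p - !₂[(u : ℝ), (v : ℝ)], ⟨_, hc, ?_⟩, by simp⟩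
    simp
    refine ⟨?_, ?_, ?_, ?_⟩ <;> linarith
  · rintro ⟨q, ⟨c, hc, h1, h2, h3, h4⟩, rfl⟩
    refine ⟨(c.1 + u, c.2 + v), by simpa using hc, ?_⟩
    simp
    refine ⟨?_, ?_, ?_, ?_⟩ <;> linarith

theorem GoodT.shift {T : Finset (ℤ × ℤ)} (h : GoodT T) {u v : ℤ} (huv : (u + v) % 2 = 0) :
    GoodT (shiftT u v T) := by
  obtain ⟨h1, h2, h3, h4⟩ := h
  have e : (shiftT u v T).image toCell = shiftT ((u + v) / 2) ((v - u) / 2) (T.image toCell) := by
    simp only [shiftT, Finset.image_image]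
    refine Finset.image_congr fun z hz => ?_
    have := h1 z hz
    unfold Black at this
    simp only [Function.comp, toCell, Prod.mk.injEq]
    omega
  refine ⟨fun z hz => ?_, ?_, e ▸ h3.shift _ _, ?_⟩
  · have := h1 _ (mem_shiftT.1 hz)
    unfold Black at *; simp only at this; omega
  · rw [shiftT, Finset.card_image_of_injective _ ?_, h2]
    intro a b hab
    simp only [Prod.mk.injEq] at hab
    ext <;> omega
  · rw [e, region_shift]; exact h4.shift _

def cntT (z : ℤ × ℤ) (TL : List (Finset (ℤ × ℤ))) : ℕ := TL.countP fun T => decide (z ∈ T)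

theorem cntT_append (z : ℤ × ℤ) (l m : List (Finset (ℤ × ℤ))) :
    cntT z (l ++ m) = cntT z l + cntT z m := by simp [cntT]

theorem cntT_shift (u v : ℤ) (z : ℤ × ℤ) (l : List (Finset (ℤ × ℤ))) :
    cntT z (l.map (shiftT u v)) = cntT (z.1 - u, z.2 - v) l := by
  simp only [cntT, List.countP_map]
  congr 1; ext T; simp [mem_shiftT]

noncomputable section

def unitB (dx : ℕ) (b : Blk) : Bool :=
  an (Nat.beq b.R.x1 (Nat.succ b.R.x0)) (an (Nat.beq b.R.y1 (Nat.succ b.R.y0))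
    (an (Nat.ble (Nat.add b.R.x0 dx) 127) (an (Nat.ble b.R.y0 4000) (nt (whiteB b.R.x0 b.R.y0)))))

def bitAt (x y : ℕ) : ℕ := Nat.shiftLeft 1 (Nat.add x (Nat.mul 128 y))

def lenL {α : Type} (l : List α) : ℕ := foldL (fun _ n => Nat.succ n) 0 l

def tileV (dx dy : ℕ) (bl : List Blk) : ℕ :=
  sel (an (netCheck 2 0 bl smallW) (an (allL bl (unitB dx)) (an (Nat.beq (lenL bl) 12)
    (whiteB dx dy))))
    (foldL (fun b m => Nat.lor (bitAt (Nat.add b.R.x0 dx) (Nat.add b.R.y0 dy)) m) 0 bl) 0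

def tileM (n : ℕ) : ℕ := tileK n (tileV (fld n 252 128) (fld n 259 128))

def rowM (x0 y n : ℕ) : ℕ :=
  Nat.rec 0 (fun i m => sel (whiteB (Nat.add x0 i) y) m (Nat.lor (bitAt (Nat.add x0 i) y) m)) n

def rectM (x0 y0 w h : ℕ) : ℕ := Nat.rec 0 (fun j m => Nat.lor (rowM x0 (Nat.add y0 j) w) m) h

def locOK (ox oy : ℕ) (R : Rc) : Bool :=
  an (Nat.ble ox (Nat.add R.x0 4)) (an (Nat.ble oy (Nat.add R.y0 4))
    (an (Nat.ble (Nat.add R.x1 4) (Nat.add ox 128)) (an (Nat.ble R.x0 4000) (an (Nat.ble R.y0 4000)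
      (an (Nat.ble R.x1 4000) (an (Nat.ble R.y1 4000) (Nat.ble R.x0 R.x1)))))))

def regM (ox oy : ℕ) (l : List Rc) : ℕ :=
  foldL (fun R m => Nat.lor (rectM (Nat.sub (Nat.add R.x0 4) ox) (Nat.sub (Nat.add R.y0 4) oy)
    (Nat.sub R.x1 R.x0) (Nat.sub R.y1 R.y0)) m) 0 l

def clrM (l : List ℕ) : ℕ → Bool :=
  List.rec (fun m => Nat.beq m 0) (fun n _ ih m => force (tileM n) fun u =>
    an (nt (Nat.beq u 0)) (an (Nat.beq (Nat.land u m) u) (force (Nat.xor m u) ih))) l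

def expl (ox oy : ℕ) (l : List Rc) (tiles : List ℕ) : Bool :=
  an (whiteB ox oy) (an (allL l (locOK ox oy)) (force (regM ox oy l) (clrM tiles)))

end

def InM (m : ℕ) (z : ℤ × ℤ) : Prop :=
  ∃ x y : ℕ, x < 128 ∧ z = ((x : ℤ), (y : ℤ)) ∧ m.testBit (x + 128 * y) = true

theorem inM_zero (z : ℤ × ℤ) : ¬ InM 0 z := by simp [InM]

theorem inM_lor {a b : ℕ} {z : ℤ × ℤ} : InM (Nat.lor a b) z ↔ InM a z ∨ InM b z := by
  have : ∀ i, (Nat.lor a b).testBit i = (a.testBit i || b.testBit i) := Nat.testBit_or a b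
  simp only [InM, this, Bool.or_eq_true]
  constructor
  · rintro ⟨x, y, h1, h2, h3 | h3⟩
    · exact Or.inl ⟨x, y, h1, h2, h3⟩
    · exact Or.inr ⟨x, y, h1, h2, h3⟩
  · rintro (⟨x, y, h1, h2, h3⟩ | ⟨x, y, h1, h2, h3⟩)
    · exact ⟨x, y, h1, h2, Or.inl h3⟩
    · exact ⟨x, y, h1, h2, Or.inr h3⟩

theorem inM_bit {x y : ℕ} (hx : x < 128) {z : ℤ × ℤ} :
    InM (bitAt x y) z ↔ z = ((x : ℤ), (y : ℤ)) := by
  simp only [InM, bitAt, shl_eq, one_mul, Nat.testBit_two_pow, decide_eq_true_eq, Nat.add_eq,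
    Nat.mul_eq]
  constructor
  · rintro ⟨x', y', h1, h2, h3⟩
    rw [h2]; ext <;> simp only <;> omega
  · intro h; exact ⟨x, y, hx, h, rfl⟩

theorem inM_xor {u m : ℕ} (h : Nat.land u m = u) (z : ℤ × ℤ) :
    (InM m z ↔ InM (Nat.xor m u) z ∨ InM u z) ∧ ¬ (InM (Nat.xor m u) z ∧ InM u z) := by
  have e : ∀ i, (Nat.xor m u).testBit i = (m.testBit i ^^ u.testBit i) := Nat.testBit_xor m u
  have e' : ∀ i, u.testBit i = true → m.testBit i = true := by
    intro i hi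
    have h' : u &&& m = u := h
    have := congrArg (fun n => n.testBit i) h'
    simpa [Nat.testBit_and, hi] using this
  simp only [InM, e]
  refine ⟨⟨?_, ?_⟩, ?_⟩
  · rintro ⟨x, y, h1, h2, h3⟩
    by_cases c : u.testBit (x + 128 * y) = true
    · exact Or.inr ⟨x, y, h1, h2, c⟩
    · exact Or.inl ⟨x, y, h1, h2, by simp [h3, c]⟩
  · rintro (⟨x, y, h1, h2, h3⟩ | ⟨x, y, h1, h2, h3⟩)
    · refine ⟨x, y, h1, h2, ?_⟩
      by_cases c : u.testBit (x + 128 * y) = true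
      · exact e' _ c
      · simpa [c] using h3
    · exact ⟨x, y, h1, h2, e' _ h3⟩
  · rintro ⟨⟨x, y, h1, h2, h3⟩, x', y', h1', h2', h3'⟩
    rw [h2] at h2'
    simp only [Prod.mk.injEq, Nat.cast_inj] at h2'
    rw [← h2'.1, ← h2'.2] at h3'
    simp [h3', e' _ h3'] at h3

theorem lenL_eq {α : Type} (l : List α) : lenL l = l.length := by
  rw [lenL, foldL_eq]
  induction l with
  | nil => rfl
  | cons a l ih => simp [ih]

theorem whiteB_iff (x y : ℕ) : whiteB x y = true ↔ (x + y) % 2 = 0 := by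
  rw [whiteB, beq_iff]; rfl

theorem tileV_sound {dx dy : ℕ} {bl : List Blk} (h : tileV dx dy bl ≠ 0) :
    ∃ T, GoodT T ∧ ∀ z, z ∈ T ↔ InM (tileV dx dy bl) z := by
  simp only [tileV, sel_eq] at h ⊢
  split_ifs at h ⊢ with hc
  swap
  · exact absurd rfl h
  simp only [an_iff, allL_iff, beq_iff, lenL_eq, whiteB_iff, unitB, ble_iff, nt_iff, Nat.add_eq,
    Nat.succ_eq_add_one] at hc
  obtain ⟨hn, hu, hl, hw⟩ := hc
  have hm : ∀ b ∈ bl, ∀ z, b.R.mem 0 0 z ↔ z = ((b.R.x0 : ℤ), (b.R.y0 : ℤ)) := by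
    intro b hb z
    obtain ⟨e1, e2, e3, e4, -⟩ := hu b hb
    simp only [Rc.mem, e1, e2, ev_small 0 0 (show b.R.x0 < 16384 by omega),
      ev_small 0 0 (show b.R.x0 + 1 < 16384 by omega),
      ev_small 0 0 (show b.R.y0 < 16384 by omega), ev_small 0 0 (show b.R.y0 + 1 < 16384 by omega),
      Prod.ext_iff]
    omega
  have hb : ∀ b ∈ bl, Black ((b.R.x0 : ℤ), (b.R.y0 : ℤ)) := by
    intro b hb
    have := (hu b hb).2.2.2.2
    unfold Black; simp only; omega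
  let S := (bl.map fun b => ((b.R.x0 : ℤ), (b.R.y0 : ℤ))).toFinset
  have hS : ∀ z, z ∈ S ↔ ∃ b ∈ bl, z = ((b.R.x0 : ℤ), (b.R.y0 : ℤ)) := by
    intro z; simp only [S, List.mem_toFinset, List.mem_map, eq_comm]
  obtain ⟨g1, g2, g3, -⟩ := netCheck_sound hn 0 0 (S := S) (fun z => by
    rw [hS]
    constructor
    · rintro ⟨b, h1, rfl⟩; exact ⟨hb b h1, b, h1, (hm b h1 _).2 rfl⟩
    · rintro ⟨-, b, h1, h2⟩; exact ⟨b, h1, (hm b h1 _).1 h2⟩)
  have gS : GoodT S := by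
    refine ⟨fun z hz => ?_, ?_, g1, g2⟩
    · obtain ⟨b, h1, rfl⟩ := (hS z).1 hz; exact hb b h1
    · rw [List.toFinset_card_of_nodup, List.length_map, hl]
      rw [List.Nodup, List.pairwise_map]
      refine (List.Pairwise.and_mem.1 g3).imp ?_
      rintro b d ⟨h1, h2, h3⟩ e
      exact h3 _ (hb b h1) ((hm b h1 _).2 rfl) ((hm d h2 _).2 e)
  refine ⟨shiftT dx dy S, gS.shift (by omega), fun z => ?_⟩
  rw [mem_shiftT, hS, foldL_eq]
  have hx : ∀ b ∈ bl, b.R.x0 + dx < 128 := fun b hb => by have := (hu b hb).2.2.1; omega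
  clear * - hx
  induction bl with
  | nil => simp [inM_zero]
  | cons b l ih =>
    have ih' := ih (fun c hc => hx c (List.mem_cons_of_mem _ hc))
    rw [List.foldr_cons, inM_lor]
    simp only [List.mem_cons, exists_eq_or_imp]
    refine or_congr ?_ ih'
    simp only [Nat.add_eq, inM_bit (hx b List.mem_cons_self), Prod.ext_iff]
    push_cast
    omega

theorem mapK_ex {α β γ : Type} {f : α → (β → γ) → γ} (hf : ∀ a, ∃ b, ∀ k, f a k = k b)
    (l : List α) : ∃ m, ∀ k, mapK f l k = k m := by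
  induction l with
  | nil => exact ⟨[], fun _ => rfl⟩
  | cons a l ih =>
    obtain ⟨m, hm⟩ := ih
    obtain ⟨b, hb⟩ := hf a
    refine ⟨b :: m, fun k => ?_⟩
    have : mapK f (a :: l) k = f a fun b => mapK f l fun m => k (b :: m) := rfl
    rw [this, hb, hm]

theorem tileM_sound {n : ℕ} (h : tileM n ≠ 0) : ∃ T, GoodT T ∧ ∀ z, z ∈ T ↔ InM (tileM n) z := by
  obtain ⟨bl, hb⟩ := mapK_ex (γ := ℕ) (f := fun a => cellK (fld n a 2097152))
    (fun a => ⟨_, fun k => by simp only [cellK, pcK, force_eq]; rfl⟩)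
    [0, 21, 42, 63, 84, 105, 126, 147, 168, 189, 210, 231]
  rw [tileM, tileK, hb] at h ⊢
  exact tileV_sound h

theorem inM_row {x0 y : ℕ} (n : ℕ) (h : x0 + n ≤ 128) (z : ℤ × ℤ) :
    InM (rowM x0 y n) z ↔ Black z ∧ (x0 : ℤ) ≤ z.1 ∧ z.1 < x0 + n ∧ z.2 = y := by
  induction n with
  | zero => simp [rowM, inM_zero]; omega
  | succ i ih =>
    have e : rowM x0 y (i + 1) = sel (whiteB (x0 + i) y) (rowM x0 y i)
      (Nat.lor (bitAt (x0 + i) y) (rowM x0 y i)) := rfl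
    rw [e, sel_eq]
    split_ifs with c
    · rw [ih (by omega)]; rw [whiteB_iff] at c; unfold Black; push_cast; omega
    · rw [inM_lor, ih (by omega), inM_bit (by omega), Prod.ext_iff]
      rw [whiteB_iff] at c; unfold Black; push_cast; omega

theorem inM_rect {x0 y0 w : ℕ} (n : ℕ) (h : x0 + w ≤ 128) (z : ℤ × ℤ) :
    InM (rectM x0 y0 w n) z ↔
      Black z ∧ (x0 : ℤ) ≤ z.1 ∧ z.1 < x0 + w ∧ (y0 : ℤ) ≤ z.2 ∧ z.2 < y0 + n := by
  induction n with
  | zero =>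
    have e : rectM x0 y0 w 0 = 0 := rfl
    rw [e]
    refine ⟨fun h => absurd h (inM_zero z), fun h => ?_⟩
    push_cast at h; omega
  | succ i ih =>
    have e : rectM x0 y0 w (i + 1) = Nat.lor (rowM x0 (y0 + i) w) (rectM x0 y0 w i) := rfl
    rw [e, inM_lor, ih, inM_row w h]
    by_cases c : Black z <;> simp only [c, true_and, false_and, or_self]
    push_cast; omega

theorem clrM_sound (l : List ℕ) : ∀ m, clrM l m = true → ∃ TL : List (Finset (ℤ × ℤ)),
    (∀ T ∈ TL, GoodT T) ∧ TL.length = l.length ∧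
      ∀ z, (InM m z → cntT z TL = 1) ∧ (¬ InM m z → cntT z TL = 0) := by
  induction l with
  | nil =>
    intro m h
    have : m = 0 := (beq_iff _ _).1 h
    subst this
    exact ⟨[], by simp, rfl, fun z => ⟨fun h => absurd h (inM_zero z), fun _ => rfl⟩⟩
  | cons n l ih =>
    intro m h
    have e : clrM (n :: l) m = force (tileM n) fun u => an (nt (Nat.beq u 0))
      (an (Nat.beq (Nat.land u m) u) (force (Nat.xor m u) (clrM l))) := rfl
    simp only [e, force_eq, an_iff, nt_iff, beq_iff] at h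
    obtain ⟨h1, h2, h3⟩ := h
    obtain ⟨T, g, hT⟩ := tileM_sound h1
    obtain ⟨TL, g1, g2, g3⟩ := ih _ h3
    refine ⟨T :: TL, by simpa using ⟨g, g1⟩, by simp [g2], fun z => ?_⟩
    obtain ⟨a, b⟩ := inM_xor h2 z
    obtain ⟨c, d⟩ := g3 z
    have e : cntT z (T :: TL) = cntT z TL + if z ∈ T then 1 else 0 := by
      simp [cntT, List.countP_cons]
    rw [e, a, ← hT] at *
    by_cases c1 : z ∈ T <;> by_cases c2 : InM (Nat.xor m (tileM n)) z
    · exact absurd ⟨c2, c1⟩ b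
    · simp [c1, d c2]
    · rw [c c2, if_neg c1]; tauto
    · rw [d c2, if_neg c1]; tauto

theorem expl_sound {ox oy : ℕ} {l : List Rc} {tiles : List ℕ} (h : expl ox oy l tiles = true)
    (s t : ℕ) : ∃ TL : List (Finset (ℤ × ℤ)), (∀ T ∈ TL, GoodT T) ∧ TL.length = tiles.length ∧
      ∀ z, Black z → cnt s t z l ≤ 1 → cntT z TL = cnt s t z l := by
  simp only [expl, an_iff, allL_iff, force_eq, whiteB_iff] at h
  obtain ⟨h1, h2, h3⟩ := h
  obtain ⟨TL, g1, g2, g3⟩ := clrM_sound _ _ h3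
  refine ⟨TL.map (shiftT (ox - 4) (oy - 4)), fun T hT => ?_, by simp [g2], fun z hz hc => ?_⟩
  · obtain ⟨T', h', rfl⟩ := List.mem_map.1 hT
    exact (g1 T' h').shift (by omega)
  have key : InM (regM ox oy l) (z.1 - (ox - 4), z.2 - (oy - 4)) ↔ ∃ R ∈ l, R.mem s t z := by
    rw [regM, foldL_eq]
    clear hc h3 g3
    induction l with
    | nil => simp [inM_zero]
    | cons R l ih =>
      have hR := h2 R List.mem_cons_self
      simp only [locOK, an_iff, ble_iff, Nat.add_eq] at hR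
      obtain ⟨r1, r2, r3, r4, r5, r6, r7, r8⟩ := hR
      rw [List.foldr_cons, inM_lor, ih fun c hc => h2 c (List.mem_cons_of_mem _ hc)]
      simp only [List.mem_cons, exists_eq_or_imp, Nat.add_eq, Nat.sub_eq]
      refine or_congr_left ?_
      simp only [Rc.mem, ev_small s t (show R.x0 < 16384 by omega),
        ev_small s t (show R.x1 < 16384 by omega), ev_small s t (show R.y0 < 16384 by omega),
        ev_small s t (show R.y1 < 16384 by omega)]
      rw [inM_rect _ (by omega)]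
      unfold Black at *
      simp only
      omega
  rw [cntT_shift]
  obtain ⟨a, b⟩ := g3 (z.1 - (ox - 4), z.2 - (oy - 4))
  rw [key, ← cnt_pos] at a b
  omega

end Pool.Agent.P.MP_626a52_co
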